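import Pool.Agent.Lib.MP_efc1da_coA.Spec

set_option autoImplicit false

open Pool.Agent.Efc

namespace Pool.Agent.EfcA

theorem stmtCrx : StmtSpn → StmtSqn → StmtCrx := by
  intro hSpn hSqn α ι κ _ _ _ _ I S J K ρ ρ' l l₁ M hl hM hρ hlρ hρ' hl₁ hI hSI hSl hJ hSJ hKl
  classical
  have hM' : (0 : ℝ) < M := by exact_mod_cast hM
  obtain ⟨T, hT⟩ : ∃ T : ℝ, T = ((M : ℝ) + 2) ^ Fintype.card α := ⟨_, rfl⟩
  have hTpos : 0 < T := by rw [hT]; positivity
  have hJpos : (0 : ℝ) < J.card := by exact_mod_cast hJ.card_pos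
  have h1 := hSpn α ι I S ρ l M hl hM hρ hlρ hI hSI hSl
  obtain ⟨h2, h3⟩ := hSqn α κ J K ρ' l₁ M hM hρ' hl₁ hSJ hKl
  rw [← hT] at h1 h2 h3
  by_contra hcon
  push Not at hcon
  have hq : 1 ≤ ((M : ℝ) + 2) / M := by
    rw [le_div_iff₀ hM']
    linarith
  obtain ⟨B, hB⟩ : ∃ B : Finset (α → Fin (M + 2)), B = Finset.univ.filter
      (fun c => ∀ i ∈ I, ¬ S i ⊆ Wn c 0 ∪ Wn c 1) := ⟨_, rfl⟩
  have h1' : 32 * (B.card : ℝ) ≤ T := by
    rw [hB]
    convert h1 using 3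
  have hgood : ∀ c : α → Fin (M + 2), c ∉ B → hsum M J K c ≤ (J.card : ℝ) / 2 := by
    intro c hc
    rw [hB, Finset.mem_filter] at hc
    push Not at hc
    obtain ⟨i, hi, hiS⟩ := hc (Finset.mem_univ _)
    have h5 := hcon i hi
    have h6 : hsum M J K c ≤ ∑ j ∈ J, if Disjoint (K j) (S i) then (((M : ℝ) + 2) / M) ^ l₁
        else 0 := by
      unfold hsum
      refine Finset.sum_le_sum fun j hj => ?_
      by_cases h7 : Disjoint (K j) (Wn c 0 ∪ Wn c 1)
      · rw [if_pos h7, if_pos (Disjoint.mono_right hiS h7)]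
        exact pow_le_pow_right₀ hq (hKl j hj)
      · rw [if_neg h7]
        split_ifs
        · positivity
        · exact le_rfl
    refine h6.trans ?_
    rw [← Finset.sum_filter, Finset.sum_const, nsmul_eq_mul]
    have h8 : (0 : ℝ) < (((M : ℝ) + 2) / M) ^ l₁ := by positivity
    have h9 : ((M : ℝ) / (M + 2)) ^ l₁ * (((M : ℝ) + 2) / M) ^ l₁ = 1 := by
      rw [← mul_pow]
      have : (M : ℝ) / (M + 2) * (((M : ℝ) + 2) / M) = 1 := by
        field_simp
      rw [this, one_pow]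
    calc ((J.filter fun j => Disjoint (K j) (S i)).card : ℝ) * (((M : ℝ) + 2) / M) ^ l₁
        ≤ ((1 / 2 : ℝ) * ((M : ℝ) / (M + 2)) ^ l₁ * J.card) * (((M : ℝ) + 2) / M) ^ l₁ := by
          refine mul_le_mul_of_nonneg_right (le_trans (le_of_eq ?_) h5.le) h8.le
          congr
      _ = (1 / 2 : ℝ) * J.card * (((M : ℝ) / (M + 2)) ^ l₁ * (((M : ℝ) + 2) / M) ^ l₁) := by ring
      _ = (J.card : ℝ) / 2 := by
          rw [h9]
          ring
  have hpt : ∀ c : α → Fin (M + 2), 2 * (J.card : ℝ) * hsum M J K c ≤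
      (J.card : ℝ) ^ 2 + hsum M J K c ^ 2 / 8 + (if c ∈ B then 8 * (J.card : ℝ) ^ 2 else 0) := by
    intro c
    by_cases hc : c ∈ B
    · rw [if_pos hc]
      nlinarith [sq_nonneg (hsum M J K c - 8 * (J.card : ℝ)), sq_nonneg (J.card : ℝ)]
    · rw [if_neg hc]
      have := hgood c hc
      nlinarith [sq_nonneg (hsum M J K c)]
  have hsumm := Finset.sum_le_sum fun c (_ : c ∈ (Finset.univ : Finset (α → Fin (M + 2)))) => hpt c
  rw [← Finset.mul_sum, h2, Finset.sum_add_distrib, Finset.sum_add_distrib, Finset.sum_const,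
    ← Finset.sum_div, Finset.card_univ, Fintype.card_fun, Fintype.card_fin, nsmul_eq_mul,
    Finset.sum_ite_mem, Finset.univ_inter, Finset.sum_const, nsmul_eq_mul] at hsumm
  push_cast at hsumm
  rw [← hT] at hsumm
  have he := Real.exp_one_lt_d9
  have hA : (0 : ℝ) < (J.card : ℝ) ^ 2 * T := by positivity
  have h10 : (B.card : ℝ) * (8 * (J.card : ℝ) ^ 2) ≤ (J.card : ℝ) ^ 2 * T / 4 := by
    have h11 : (B.card : ℝ) ≤ T / 32 := by linarith
    calc (B.card : ℝ) * (8 * (J.card : ℝ) ^ 2) ≤ T / 32 * (8 * (J.card : ℝ) ^ 2) := by gcongr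
      _ = (J.card : ℝ) ^ 2 * T / 4 := by ring
  have h12 : Real.exp 1 * (J.card : ℝ) ^ 2 * T ≤ 3 * ((J.card : ℝ) ^ 2 * T) := by
    rw [mul_assoc]
    exact mul_le_mul_of_nonneg_right (by linarith) hA.le
  have h13 : 2 * (J.card : ℝ) * (J.card * T) = 2 * ((J.card : ℝ) ^ 2 * T) := by ring
  rw [h13] at hsumm
  nlinarith

end Pool.Agent.EfcA
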