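import Pool.Agent.Lib.MP_efc1da_coA.Spec

/-!
# DCA: decomposition in spread pieces
-/

set_option autoImplicit false

namespace Pool.Agent.EfcA.DcaM

open Pool.Agent.Efc

/-- A maximiser of `r^|S| |G(S)|`. -/
private theorem maxi {α : Type} [Fintype α] [DecidableEq α] (r : ℝ) (H : Finset (Finset α))
    (hr : 0 < r) (hH : H.Nonempty) :
    ∃ S : Finset α, (up H S).Nonempty ∧ (H.card : ℝ) ≤ r ^ S.card * (up H S).card ∧
      SprOver r (up H S) S := by
  obtain ⟨S, -, hS⟩ := Finset.exists_max_image (Finset.univ : Finset (Finset α))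
    (fun S => r ^ S.card * ((up H S).card : ℝ)) ⟨∅, Finset.mem_univ _⟩
  have h0 : (H.card : ℝ) ≤ r ^ S.card * ((up H S).card : ℝ) := by
    have h1 := hS ∅ (Finset.mem_univ _)
    have h2 : up H (∅ : Finset α) = H :=
      Finset.filter_true_of_mem fun A _ => Finset.empty_subset A
    simp only [Finset.card_empty, pow_zero, one_mul] at h1
    rwa [h2] at h1
  have hpos : (0 : ℝ) < (H.card : ℝ) := by exact_mod_cast hH.card_pos
  have hne : (up H S).Nonempty := by
    rw [Finset.nonempty_iff_ne_empty]
    intro h1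
    rw [h1, Finset.card_empty, Nat.cast_zero, mul_zero] at h0
    exact absurd h0 (not_le.2 hpos)
  refine ⟨S, hne, h0, fun Z hZ => ?_⟩
  have e1 : up (up H S) Z = up H (S ∪ Z) := by
    ext B
    unfold up
    rw [Finset.mem_filter, Finset.mem_filter, Finset.mem_filter, Finset.union_subset_iff, and_assoc]
  have h2 := hS (S ∪ Z) (Finset.mem_univ _)
  rw [Finset.card_union_of_disjoint hZ.symm, pow_add, mul_assoc] at h2
  have h3 := le_of_mul_le_mul_left h2 (pow_pos hr S.card)
  rw [e1, mul_comm]
  exact h3

/-- The induction for the decomposition. -/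
private theorem ind {α : Type} [Fintype α] [DecidableEq α] (r : ℝ) (H : Finset (Finset α))
    (hr : 0 < r) (G : Finset (Finset α)) :
    ∃ (D : Finset (Finset α)) (κ : Finset α → Finset α),
      D ⊆ G ∧ 4 * G.card ≤ H.card + 4 * D.card ∧ (∀ A ∈ D, κ A ⊆ A) ∧
      (∀ A ∈ D, SprOver r (D.filter fun B => κ B = κ A) (κ A)) ∧
      (∀ A ∈ D, (H.card : ℝ) ≤ 4 * (r ^ (κ A).card * (D.filter fun B => κ B = κ A).card)) := by
  induction G using Finset.strongInduction with
  | H G ih =>
    by_cases h4 : 4 * G.card ≤ H.card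
    · refine ⟨∅, fun A => A, Finset.empty_subset _, by simpa using h4, ?_, ?_, ?_⟩
      · intro A hA
        exact absurd hA (Finset.notMem_empty _)
      · intro A hA
        exact absurd hA (Finset.notMem_empty _)
      · intro A hA
        exact absurd hA (Finset.notMem_empty _)
    · rw [not_le] at h4
      have hGne : G.Nonempty := by
        rw [← Finset.card_pos]
        omega
      obtain ⟨S, hne, h0, hspr⟩ := maxi r G hr hGne
      have h4' : (H.card : ℝ) < 4 * (G.card : ℝ) := by exact_mod_cast h4
      have hlt : G \ up G S ⊂ G := Finset.sdiff_ssubset (Finset.filter_subset _ _) hne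
      obtain ⟨D₁, κ₁, hD1, hc1, hk1, hs1, hb1⟩ := ih _ hlt
      have hmem : ∀ A, A ∈ up G S ↔ A ∈ G ∧ S ⊆ A := fun A => Finset.mem_filter
      have hnS : ∀ A ∈ D₁, ¬ S ⊆ A := by
        intro A hA h1
        have h2 := hD1 hA
        rw [Finset.mem_sdiff, hmem] at h2
        exact h2.2 ⟨h2.1, h1⟩
      let κ : Finset α → Finset α := fun A => if S ⊆ A then S else κ₁ A
      have hκ1 : ∀ A ∈ D₁, κ A = κ₁ A := fun A hA => if_neg (hnS A hA)
      have hκ2 : ∀ A ∈ up G S, κ A = S := fun A hA => if_pos ((hmem A).1 hA).2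
      have hκS : ∀ A ∈ D₁, κ₁ A ≠ S := fun A hA h1 => hnS A hA (h1 ▸ hk1 A hA)
      have hdisj : Disjoint D₁ (up G S) := by
        rw [Finset.disjoint_left]
        intro A hA hA'
        exact hnS A hA ((hmem A).1 hA').2
      have e1 : ∀ A ∈ D₁, ((D₁ ∪ up G S).filter fun B => κ B = κ₁ A) =
          D₁.filter fun B => κ₁ B = κ₁ A := by
        intro A h1
        ext B
        rw [Finset.mem_filter, Finset.mem_filter, Finset.mem_union]
        constructor
        · rintro ⟨h2 | h2, h3⟩
          · exact ⟨h2, (hκ1 B h2) ▸ h3⟩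
          · rw [hκ2 B h2] at h3
            exact absurd h3.symm (hκS A h1)
        · rintro ⟨h2, h3⟩
          exact ⟨Or.inl h2, (hκ1 B h2).trans h3⟩
      have e2 : ((D₁ ∪ up G S).filter fun B => κ B = S) = up G S := by
        ext B
        rw [Finset.mem_filter, Finset.mem_union]
        constructor
        · rintro ⟨h2 | h2, h3⟩
          · rw [hκ1 B h2] at h3
            exact absurd h3 (hκS B h2)
          · exact h2
        · intro h2
          exact ⟨Or.inr h2, hκ2 B h2⟩
      refine ⟨D₁ ∪ up G S, κ, ?_, ?_, ?_, ?_, ?_⟩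
      · exact Finset.union_subset (hD1.trans Finset.sdiff_subset) (Finset.filter_subset _ _)
      · rw [Finset.card_union_of_disjoint hdisj]
        have h1 := Finset.card_sdiff_add_card_eq_card
          (Finset.filter_subset (fun A => S ⊆ A) G)
        have h2 : (G.filter fun A => S ⊆ A) = up G S := rfl
        rw [h2] at h1
        omega
      · intro A hA
        rcases Finset.mem_union.1 hA with h1 | h1
        · rw [hκ1 A h1]
          exact hk1 A h1
        · rw [hκ2 A h1]
          exact ((hmem A).1 h1).2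
      · intro A hA
        rcases Finset.mem_union.1 hA with h1 | h1
        · rw [hκ1 A h1, e1 A h1]
          exact hs1 A h1
        · rw [hκ2 A h1, e2]
          exact hspr
      · intro A hA
        rcases Finset.mem_union.1 hA with h1 | h1
        · rw [hκ1 A h1, e1 A h1]
          exact hb1 A h1
        · rw [hκ2 A h1, e2]
          linarith

end Pool.Agent.EfcA.DcaM

namespace Pool.Agent.EfcA

theorem stmtDca : StmtDca := by
  intro α _ _ r H hr
  obtain ⟨D, κ, h1, h2, h3, h4, h5⟩ := DcaM.ind r H hr H
  exact ⟨D, κ, h1, by omega, h3, h4, h5⟩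

end Pool.Agent.EfcA
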