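import Pool.Agent.Lib.MP_efc1da_co.Spec

/-!
# Deleting vertices, almost all uniformities: definitions

`Unif`, `Inter`, `Cov`, `Spr` are in `Pool/Agent/Lib/MP_efc1da_co/Spec.lean`.
-/

set_option autoImplicit false

namespace Pool.Agent.EfcA

open Pool.Agent.Efc

noncomputable section

/-! ### Spread families -/

section spread

variable {α : Type} [DecidableEq α]

/-- The members of `F` containing `S`. -/
def up (F : Finset (Finset α)) (S : Finset α) : Finset (Finset α) := F.filter fun A => S ⊆ A

/-- The members of `F` disjoint from `S`. -/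
def av (F : Finset (Finset α)) (S : Finset α) : Finset (Finset α) := F.filter fun A => Disjoint A S

/-- `P` is `r`-spread over `S`. -/
def SprOver (r : ℝ) (P : Finset (Finset α)) (S : Finset α) : Prop :=
  ∀ Z : Finset α, Disjoint Z S → ((up P Z).card : ℝ) * r ^ Z.card ≤ P.card

/-- The degree bound `(B)`. -/
def Bd (C f : ℝ) (F : Finset (Finset α)) : Prop :=
  ∀ S : Finset α, S.Nonempty → ((up F S).card : ℝ) ≤ (C / S.card) ^ S.card * f

/-- The statement proved by downward induction on `R` (with `θ = R^(5/4)`). -/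
def Qs (f : ℝ) (F : Finset (Finset α)) (R θ : ℝ) : Prop :=
  ∀ (S : Finset α) (P : Finset (Finset α)), P.Nonempty → P ⊆ F → (∀ A ∈ P, S ⊆ A) →
    SprOver R P S → Real.exp (-θ) * f ≤ P.card → ((av F S).card : ℝ) ≤ Real.exp (-R) * f

end spread

/-! ### Colourings with `N` colours -/

section colour

variable {α : Type} [Fintype α] [DecidableEq α] {N : ℕ}

/-- The colour class `j`. -/
def Wn (c : α → Fin N) (j : Fin N) : Finset α := Finset.univ.filter fun x => c x = j

omit [Fintype α] in
/-- Recolour the set `T` with the colour `j`. -/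
def rcl (c : α → Fin N) (T : Finset α) (j : Fin N) : α → Fin N := fun x => if x ∈ T then j else c x

end colour

/-! ### The up-step -/

section upstep

/-- The points of the new family: the old points, `u` further copies of every old point, and blocks. -/
abbrev Pt (α : Type) (k u : ℕ) : Type := α ⊕ ((α × Fin u) ⊕ (Fin u × Fin (k + u + 1)))

variable {α : Type} [Fintype α] [DecidableEq α] (k u : ℕ)

/-- The old points of `A`. -/
def old (A : Finset α) : Finset (Pt α k u) := A.image Sum.inl

/-- The set `R_i` of the copies of the old point `i` (with `i` itself): `u + 1` points. -/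
def cop (i : α) : Finset (Pt α k u) :=
  insert (Sum.inl i) (Finset.univ.image fun j : Fin u => Sum.inr (Sum.inl (i, j)))

/-- The block `Y_l` (`l = 0, …, u - 1`): `k + u + 1 - s - l` points. -/
def blk (s : ℕ) (l : Fin u) : Finset (Pt α k u) :=
  (Finset.univ.filter fun j : Fin (k + u + 1) => (j : ℕ) + s + l < k + u + 1).image
    fun j => Sum.inr (Sum.inr (l, j))

/-- The members of the new family. -/
def Mem (F : Finset (Finset α)) (S : Finset α) (x : α) (B : Finset (Pt α k u)) : Prop :=
  (∃ A ∈ F, ∃ y : Fin u → Pt α k u, (∀ l, y l ∈ blk k u S.card l) ∧ (x ∈ A ∨ Disjoint A S) ∧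
    B = old k u A ∪ Finset.univ.image y) ∨
  (∃ A ∈ F, ∃ (r : α → Pt α k u) (y : Fin u → Pt α k u), (∀ i ∈ S.erase x, r i ∈ cop k u i) ∧
    (∀ l, y l ∈ blk k u S.card l) ∧ S ⊆ A ∧
    B = old k u (A \ S.erase x) ∪ (S.erase x).image r ∪ Finset.univ.image y) ∨
  (∃ A ∈ F, ∃ i ∈ S.erase x, x ∉ A ∧ i ∈ A ∧ B = old k u A ∪ cop k u i) ∨
  (∃ (l : Fin u) (z : α → Pt α k u) (y : Fin u → Pt α k u), (∀ i ∈ S.erase x, z i ∈ cop k u i) ∧
    (∀ j, y j ∈ blk k u S.card j) ∧
    B = blk k u S.card l ∪ (S.erase x).image z ∪ (Finset.univ.filter fun j => j < l).image y)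

open Classical in
/-- The new family. -/
def fam (F : Finset (Finset α)) (S : Finset α) (x : α) : Finset (Finset (Pt α k u)) :=
  Finset.univ.filter (Mem k u F S x)

end upstep

end

end Pool.Agent.EfcA
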