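import Pool.Agent.Lib.MP_efc1da_coA.Spec

/-!
# Deleting vertices, almost all uniformities: the final statement (FIN)
-/

set_option autoImplicit false

namespace Pool.Agent.EfcA.FinM

open Pool.Agent.Efc

/-- The set whose supremum is taken. -/
private def V (k a : ℕ) : Set ℕ :=
  {v : ℕ | ∃ n : ℕ, ∃ F : Finset (Finset (Fin n)),
      (∀ A ∈ F, A.card = k) ∧
      (∀ A ∈ F, ∀ A' ∈ F, ¬ Disjoint A A') ∧
      (∀ T : Finset (Fin n), T.card < k → ∃ A ∈ F, Disjoint A T) ∧
      (∃ B : Finset (Fin n), B.card = a ∧ (F.filter (fun A => Disjoint A B)).card = v) ∧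
      (∀ B : Finset (Fin n), B.card = a → v ≤ (F.filter (fun A => Disjoint A B)).card)}

private theorem card_le (hEL : ELStmt) {k n : ℕ} {F : Finset (Finset (Fin n))}
    (h1 : ∀ A ∈ F, A.card = k) (h2 : ∀ A ∈ F, ∀ A' ∈ F, ¬ Disjoint A A')
    (h3 : ∀ T : Finset (Fin n), T.card < k → ∃ A ∈ F, Disjoint A T) : F.card ≤ k ^ k := by
  have h := hEL (Fin n) k F h1 h2 h3 ∅
  rw [Finset.filter_true_of_mem fun A _ => Finset.empty_subset A, Finset.card_empty,
    Nat.sub_zero] at h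
  exact h

private theorem bdd (hEL : ELStmt) (k a : ℕ) : BddAbove (V k a) := by
  refine ⟨k ^ k, ?_⟩
  rintro v ⟨n, F, h1, h2, h3, ⟨B, -, hB⟩, -⟩
  rw [← hB]
  exact (Finset.card_le_card (Finset.filter_subset _ _)).trans (card_le hEL h1 h2 h3)

private theorem mem_zero {k n : ℕ} {F : Finset (Finset (Fin n))}
    (h1 : ∀ A ∈ F, A.card = k) (h2 : ∀ A ∈ F, ∀ A' ∈ F, ¬ Disjoint A A')
    (h3 : ∀ T : Finset (Fin n), T.card < k → ∃ A ∈ F, Disjoint A T) :
    F.card ∈ V k 0 := by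
  have h4 : F.filter (fun A => Disjoint A (∅ : Finset (Fin n))) = F :=
    Finset.filter_true_of_mem fun A _ => Finset.disjoint_empty_right A
  refine ⟨n, F, h1, h2, h3, ⟨∅, rfl, by rw [h4]⟩, fun B hB => ?_⟩
  rw [Finset.card_eq_zero.1 hB, h4]

/-- The facts on `f k = m k 0`. -/
private theorem facts (hEL : ELStmt) (hLow : LowStmt) (m : ℕ → ℕ → ℕ)
    (hm : ∀ k a, m k a = sSup (V k a)) :
    (∀ (k n : ℕ) (F : Finset (Finset (Fin n))), Unif k F → Efc.Inter F → Cov k F →
      F.card ≤ m k 0) ∧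
    (∀ k, 1 ≤ k → k.factorial ≤ m k 0) ∧
    (∀ k, 1 ≤ k → ∃ (n : ℕ) (F : Finset (Finset (Fin n))), Unif k F ∧ Efc.Inter F ∧ Cov k F ∧
      F.card = m k 0) := by
  have hub : ∀ (k n : ℕ) (F : Finset (Finset (Fin n))), Unif k F → Efc.Inter F → Cov k F →
      F.card ≤ m k 0 := by
    intro k n F h1 h2 h3
    rw [hm k 0]
    exact le_csSup (bdd hEL k 0) (mem_zero h1 h2 h3)
  refine ⟨hub, fun k hk => ?_, fun k hk => ?_⟩
  · obtain ⟨n, F, h1, h2, h3, h4⟩ := hLow k hk
    exact h4.trans (hub k n F h1 h2 h3)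
  · obtain ⟨n₀, F₀, h1, h2, h3, -⟩ := hLow k hk
    have hmem := Nat.sSup_mem ⟨_, mem_zero h1 h2 h3⟩ (bdd hEL k 0)
    rw [← hm k 0] at hmem
    obtain ⟨n, F, g1, g2, g3, ⟨B, hB, hB'⟩, -⟩ := hmem
    refine ⟨n, F, g1, g2, g3, ?_⟩
    rw [← hB', Finset.card_eq_zero.1 hB]
    congr 1
    exact (Finset.filter_true_of_mem fun A _ => Finset.disjoint_empty_right A).symm

/-- The conclusion for one `k`, from the degree bound for all families. -/
private theorem one (hEL : ELStmt) (m : ℕ → ℕ → ℕ) (hm : ∀ k a, m k a = sSup (V k a))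
    {k a : ℕ} {c : ℝ}
    (hG : ∀ (n : ℕ) (F : Finset (Finset (Fin n))), Unif k F → Efc.Inter F → Cov k F →
      ∃ B : Finset (Fin n), B.card ≤ a ∧
        ((av F B).card : ℝ) ≤ Real.exp (-(c * Real.sqrt a)) * (m k 0 : ℝ)) :
    (m k a : ℝ) ≤ Real.exp (-(c * Real.sqrt a)) * (m k 0 : ℝ) := by
  rcases (V k a).eq_empty_or_nonempty with hV | hV
  · rw [hm k a, hV, csSup_empty]
    simp only [Nat.bot_eq_zero, Nat.cast_zero]
    positivity
  · have hmem := Nat.sSup_mem hV (bdd hEL k a)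
    rw [← hm k a] at hmem
    obtain ⟨n, F, h1, h2, h3, ⟨B0, hB0, -⟩, hmin⟩ := hmem
    have han : a ≤ n := by
      rw [← hB0]
      simpa using Finset.card_le_univ B0
    obtain ⟨B, hB, hBv⟩ := hG n F h1 h2 h3
    refine le_trans ?_ hBv
    obtain ⟨B', hBB', hB'⟩ := Finset.exists_superset_card_eq hB (by rw [Fintype.card_fin]; exact han)
    have h5 : m k a ≤ (av F B).card := by
      refine (hmin B' hB').trans (Finset.card_le_card ?_)
      intro A hA
      rw [Finset.mem_filter] at hA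
      rw [av, Finset.mem_filter]
      exact ⟨hA.1, Finset.disjoint_of_subset_right hBB' hA.2⟩
    exact_mod_cast h5

/-- The function `a k = log (f k / k!)`. -/
private noncomputable def la (f : ℕ → ℕ) (k : ℕ) : ℝ := Real.log ((f k : ℝ) / k.factorial)

private theorem fpos {f : ℕ → ℕ} {k : ℕ} (hf : k.factorial ≤ f k) : (0 : ℝ) < f k := by
  exact_mod_cast (Nat.factorial_pos k).trans_le hf

private theorem la_mono {f : ℕ → ℕ} {k : ℕ} (hf : k.factorial ≤ f k)
    (h : (k + 1) * f k ≤ f (k + 1)) : la f k ≤ la f (k + 1) := by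
  unfold la
  have h0 : (0 : ℝ) < k.factorial := by positivity
  have h1 : (0 : ℝ) < (k + 1).factorial := by positivity
  refine Real.log_le_log (div_pos (fpos hf) h0) ?_
  rw [div_le_div_iff₀ h0 h1]
  have h2 : ((k + 1).factorial : ℝ) = (k + 1) * k.factorial := by
    exact_mod_cast Nat.factorial_succ k
  have h3 : ((k : ℝ) + 1) * f k ≤ f (k + 1) := by exact_mod_cast h
  rw [h2]
  calc (f k : ℝ) * ((k + 1) * k.factorial) = ((k : ℝ) + 1) * f k * k.factorial := by ring
    _ ≤ f (k + 1) * k.factorial := mul_le_mul_of_nonneg_right h3 h0.le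

private theorem la_le {f : ℕ → ℕ} {k : ℕ} (hf : k.factorial ≤ f k) (h : f k ≤ k ^ k) :
    la f k ≤ k := by
  unfold la
  have h0 : (0 : ℝ) < k.factorial := by positivity
  rw [Real.log_le_iff_le_exp (div_pos (fpos hf) h0)]
  have h1 : (f k : ℝ) ≤ (k : ℝ) ^ k := by exact_mod_cast h
  exact (div_le_div_of_nonneg_right h1 h0.le).trans
    (Real.pow_div_factorial_le_exp (k : ℝ) (Nat.cast_nonneg k) k)

/-- A good index. -/
private theorem good {f : ℕ → ℕ} {k u : ℕ} {lam : ℝ} (hf : k.factorial ≤ f k)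
    (hf' : (k + u).factorial ≤ f (k + u)) (h : la f (k + u) ≤ la f k + lam * u) :
    (f (k + u) : ℝ) * k.factorial ≤ Real.exp lam ^ u * f k * (k + u).factorial := by
  unfold la at h
  have h0 : (0 : ℝ) < k.factorial := by positivity
  have h1 : (0 : ℝ) < (k + u).factorial := by positivity
  have h2 : 0 < (f (k + u) : ℝ) / (k + u).factorial := div_pos (fpos hf') h1
  have h3 : 0 < (f k : ℝ) / k.factorial := div_pos (fpos hf) h0
  have h4 := Real.exp_le_exp.2 h
  rw [Real.exp_log h2, Real.exp_add, Real.exp_log h3, mul_comm lam, Real.exp_nat_mul] at h4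
  rw [div_mul_eq_mul_div, div_le_div_iff₀ h1 h0] at h4
  calc (f (k + u) : ℝ) * k.factorial ≤ f k * Real.exp lam ^ u * (k + u).factorial := h4
    _ = Real.exp lam ^ u * f k * (k + u).factorial := by ring

end Pool.Agent.EfcA.FinM

namespace Pool.Agent.EfcA

open Pool.Agent.Efc

theorem stmtFin : StmtGrd → StmtGrw → StmtGdb → StmtLws → Efc.ELStmt → Efc.LowStmt → StmtFin := by
  intro hGrd hGrw hGdb hLws hEL hLow m hm δ hδ
  have hm' : ∀ k a, m k a = sSup (FinM.V k a) := hm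
  obtain ⟨hub, hfac, hatt⟩ := FinM.facts hEL hLow m hm'
  set f : ℕ → ℕ := fun k => m k 0 with hfdef
  set δ' : ℝ := min δ 1 with hδ'
  have hδ0 : 0 < δ' := lt_min hδ one_pos
  have hδ1 : δ' ≤ 1 := min_le_right _ _
  have hδδ : δ' ≤ δ := min_le_left _ _
  set lam : ℝ := 2 / δ' with hlam
  have hlam2 : 2 ≤ lam := by
    rw [hlam, le_div_iff₀ hδ0]
    linarith
  have hK : 1 ≤ Real.exp lam := Real.one_le_exp (by linarith)
  obtain ⟨c, hc, hc'⟩ := hGrd (6 * Real.exp lam + 9) (by linarith)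
  refine ⟨c, hc, fun n s hs => ?_⟩
  have hle : ∀ k, 1 ≤ k → f k ≤ k ^ k := by
    intro k hk
    obtain ⟨n, F, h1, h2, h3, h4⟩ := hatt k hk
    have h5 := FinM.card_le hEL h1 h2 h3
    rw [h4] at h5
    exact h5
  have hgr := hGrw (FinM.la f) lam (by linarith) ?_ ?_ ?_ n s ?_
  · rcases s.eq_empty_or_nonempty with h0 | ⟨k, hk⟩
    · rw [h0, Finset.card_empty, Nat.cast_zero]
      positivity
    · have hn : (1 : ℝ) ≤ n := by
        have := hs k hk
        exact_mod_cast this.1.trans this.2.1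
      rw [hlam, div_mul_eq_mul_div, div_le_iff₀ hδ0] at hgr
      have h1 : δ' * n ≤ δ * n := mul_le_mul_of_nonneg_right hδδ (by linarith)
      nlinarith
  · unfold FinM.la
    refine Real.log_nonneg ?_
    have := hfac 1 le_rfl
    rw [Nat.factorial_one] at this ⊢
    rw [Nat.cast_one, div_one]
    exact_mod_cast this
  · intro k hk
    obtain ⟨n, F, h1, h2, h3, h4⟩ := hatt k hk
    obtain ⟨n', F', g1, g2, g3, g4⟩ := hLws (Fin n) k F h1 h2 h3
    refine FinM.la_mono (hfac k hk) ?_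
    have h5 := g4.trans (hub (k + 1) n' F' g1 g2 g3)
    rw [h4] at h5
    exact h5
  · intro k hk
    exact FinM.la_le (hfac k hk) (hle k hk)
  · intro k hk
    obtain ⟨hk1, hkn, a, ha⟩ := hs k hk
    refine ⟨hk1, hkn, ?_⟩
    by_contra hcon
    push Not at hcon
    refine absurd ha (not_lt.2 ?_)
    have hfk : (0 : ℝ) < m k 0 := FinM.fpos (f := f) (hfac k hk1)
    refine FinM.one hEL m hm' fun n' F h1 h2 h3 => ?_
    refine hc' (Fin n') F (m k 0) h2 hfk ?_ ?_ a
    · exact hGdb f k (Real.exp lam) hk1 hK (fun k' n F g1 g2 g3 => hub k' n F g1 g2 g3)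
        (hfac k hk1) (fun u => FinM.good (hfac k hk1) (hfac (k + u) (by omega)) (hcon u))
        n' F h1 h2 h3
    · exact_mod_cast hub k n' F h1 h2 h3

end Pool.Agent.EfcA
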