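import Pool.Agent.Lib.MP_efc1da_coA.Spec

/-!
# Deleting vertices, almost all uniformities: the degree bound for good `k` (GDB)
-/

set_option autoImplicit false

namespace Pool.Agent.EfcA.GdbM

private theorem asc_le {k u : ℕ} (h : 2 * (u + 1) ≤ k) :
    (k + 1).ascFactorial u ≤ 3 ^ u * k.descFactorial u := by
  rw [Nat.ascFactorial_eq_prod_range, Nat.descFactorial_eq_prod_range]
  calc ∏ i ∈ Finset.range u, (k + 1 + i) ≤ ∏ i ∈ Finset.range u, 3 * (k - i) := by
        refine Finset.prod_le_prod (fun _ _ => Nat.zero_le _) fun i hi => ?_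
        rw [Finset.mem_range] at hi
        omega
    _ = 3 ^ u * ∏ i ∈ Finset.range u, (k - i) := by
        rw [Finset.prod_mul_distrib, Finset.prod_const, Finset.card_range]

private theorem pow_fac (k : ℕ) : (k : ℝ) ^ k ≤ 3 ^ k * (k.factorial : ℝ) := by
  have h := Real.pow_div_factorial_le_exp (k : ℝ) (Nat.cast_nonneg k) k
  have h2 : Real.exp (k : ℝ) ≤ 3 ^ k := by
    rw [← Real.exp_one_pow]
    have := Real.exp_one_lt_d9
    exact pow_le_pow_left₀ (Real.exp_pos 1).le (by linarith) k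
  rw [div_le_iff₀ (by positivity)] at h
  exact h.trans (mul_le_mul_of_nonneg_right h2 (by positivity))

private theorem fin_aux {X s : ℕ} {C f : ℝ} (hs : 0 < s)
    (h : (X : ℝ) * (s : ℝ) ^ s ≤ C ^ s * f) : (X : ℝ) ≤ (C / s) ^ s * f := by
  have hs' : (0 : ℝ) < (s : ℝ) ^ s := by positivity
  rw [div_pow, div_mul_eq_mul_div, le_div_iff₀ hs']
  exact h

/-- The case of large sets. -/
private theorem case_large {X k s fk : ℕ} {K : ℝ} (hK : 1 ≤ K) (hX : X ≤ k ^ (k - s)) (hsk : s ≤ k)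
    (h2 : k < 2 * s) (hfac : k.factorial ≤ fk) :
    (X : ℝ) * (s : ℝ) ^ s ≤ (6 * K + 9) ^ s * fk := by
  have hX' : (X : ℝ) ≤ (k : ℝ) ^ (k - s) := by exact_mod_cast hX
  have hf' : (k.factorial : ℝ) ≤ fk := by exact_mod_cast hfac
  have hsk' : (s : ℝ) ≤ k := by exact_mod_cast hsk
  calc (X : ℝ) * (s : ℝ) ^ s ≤ (k : ℝ) ^ (k - s) * (k : ℝ) ^ s :=
        mul_le_mul hX' (pow_le_pow_left₀ (Nat.cast_nonneg s) hsk' s) (by positivity)
          (by positivity)
    _ = (k : ℝ) ^ k := by rw [← pow_add, Nat.sub_add_cancel hsk]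
    _ ≤ 3 ^ k * (k.factorial : ℝ) := pow_fac k
    _ ≤ 3 ^ (2 * s) * (k.factorial : ℝ) :=
        mul_le_mul_of_nonneg_right (pow_le_pow_right₀ (by norm_num) h2.le) (by positivity)
    _ = 9 ^ s * (k.factorial : ℝ) := by rw [pow_mul]; norm_num
    _ ≤ (6 * K + 9) ^ s * fk :=
        mul_le_mul (pow_le_pow_left₀ (by norm_num) (by linarith) s) hf' (by positivity)
          (by positivity)

/-- The case of small sets. -/
private theorem case_small {X k u fk fu : ℕ} {K : ℝ} (hK : 1 ≤ K) (h2 : 2 * (u + 1) ≤ k)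
    (hX : X * (u + 1) ^ u * k.descFactorial u ≤ fu)
    (hg : (fu : ℝ) * k.factorial ≤ K ^ u * fk * (k + u).factorial) :
    (X : ℝ) * ((u + 1 : ℕ) : ℝ) ^ (u + 1) ≤ (6 * K + 9) ^ (u + 1) * fk := by
  have hD : (0 : ℝ) < k.descFactorial u := by
    exact_mod_cast Nat.descFactorial_pos.2 (by omega)
  have hk : (0 : ℝ) < k.factorial := by positivity
  have hX' : (X : ℝ) * ((u + 1 : ℕ) : ℝ) ^ u * k.descFactorial u ≤ fu := by exact_mod_cast hX
  have ha : ((k + 1).ascFactorial u : ℝ) ≤ 3 ^ u * k.descFactorial u := by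
    exact_mod_cast asc_le h2
  have hf : ((k + u).factorial : ℝ) = k.factorial * (k + 1).ascFactorial u := by
    exact_mod_cast (Nat.factorial_mul_ascFactorial k u).symm
  have hKu : 0 ≤ K ^ u * (fk : ℝ) := by positivity
  have h1 : (X : ℝ) * ((u + 1 : ℕ) : ℝ) ^ u ≤ (3 * K) ^ u * fk := by
    have h3 : ((X : ℝ) * ((u + 1 : ℕ) : ℝ) ^ u) * (k.descFactorial u * k.factorial) ≤
        ((3 * K) ^ u * fk) * (k.descFactorial u * k.factorial) := by
      calc ((X : ℝ) * ((u + 1 : ℕ) : ℝ) ^ u) * (k.descFactorial u * k.factorial)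
          = ((X : ℝ) * ((u + 1 : ℕ) : ℝ) ^ u * k.descFactorial u) * k.factorial := by ring
        _ ≤ fu * k.factorial := mul_le_mul_of_nonneg_right hX' hk.le
        _ ≤ K ^ u * fk * (k + u).factorial := hg
        _ = K ^ u * fk * (k.factorial * (k + 1).ascFactorial u) := by rw [hf]
        _ ≤ K ^ u * fk * (k.factorial * (3 ^ u * k.descFactorial u)) :=
            mul_le_mul_of_nonneg_left (mul_le_mul_of_nonneg_left ha hk.le) hKu
        _ = ((3 * K) ^ u * fk) * (k.descFactorial u * k.factorial) := by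
            rw [mul_pow]; ring
    exact le_of_mul_le_mul_right h3 (mul_pos hD hk)
  have h4 : ((u + 1 : ℕ) : ℝ) ≤ 2 ^ (u + 1) := by
    exact_mod_cast (Nat.lt_two_pow_self (n := u + 1)).le
  have h5 : (0 : ℝ) ≤ (3 * K) ^ u * fk := by positivity
  calc (X : ℝ) * ((u + 1 : ℕ) : ℝ) ^ (u + 1)
      = ((X : ℝ) * ((u + 1 : ℕ) : ℝ) ^ u) * ((u + 1 : ℕ) : ℝ) := by rw [pow_succ]; ring
    _ ≤ ((3 * K) ^ u * fk) * 2 ^ (u + 1) := mul_le_mul h1 h4 (by positivity) h5
    _ ≤ ((3 * K) ^ u * fk) * 2 ^ (u + 1) * (3 * K) := by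
        refine le_mul_of_one_le_right (by positivity) (by linarith)
    _ = (6 * K) ^ (u + 1) * fk := by
        rw [show (6 : ℝ) * K = (3 * K) * 2 by ring, mul_pow (3 * K) 2, pow_succ (3 * K) u]; ring
    _ ≤ (6 * K + 9) ^ (u + 1) * fk :=
        mul_le_mul_of_nonneg_right (pow_le_pow_left₀ (by linarith) (by linarith) _)
          (Nat.cast_nonneg _)

end Pool.Agent.EfcA.GdbM

namespace Pool.Agent.EfcA

open Pool.Agent.Efc

theorem stmtGdb : StmtUpf → Efc.ELStmt → StmtGdb := by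
  intro hUpf hEL f k K hk hK hub hfac hgrow n F hU hI hC S hS
  have hs : 0 < S.card := Finset.card_pos.2 hS
  apply GdbM.fin_aux hs
  rcases (up F S).eq_empty_or_nonempty with h0 | hne
  · rw [h0, Finset.card_empty, Nat.cast_zero, zero_mul]
    positivity
  obtain ⟨A, hA⟩ := id hne
  rw [up, Finset.mem_filter] at hA
  have hsk : S.card ≤ k := by
    rw [← hU A hA.1]
    exact Finset.card_le_card hA.2
  rcases Nat.lt_or_ge k (2 * S.card) with h2 | h2
  · exact GdbM.case_large hK (hEL (Fin n) k F hU hI hC S) hsk h2 hfac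
  · obtain ⟨u, hu⟩ : ∃ u, S.card = u + 1 := ⟨S.card - 1, by omega⟩
    obtain ⟨n', F', hU', hI', hC', hle⟩ := hUpf (Fin n) k u F S hU hI hC hS hne
    have e1 : S.card - 1 = u := by omega
    have e2 : k + u + 1 - S.card = k := by omega
    rw [e1, e2] at hle
    rw [hu]
    exact GdbM.case_small hK (by omega) (hle.trans (hub _ _ F' hU' hI' hC')) (hgrow u)

end Pool.Agent.EfcA
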