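import Pool.Agent.Lib.MP_efc1da_coA.Spec

/-!
# Greedy deletion
-/

set_option autoImplicit false

namespace Pool.Agent.EfcA

open Pool.Agent.Efc

noncomputable section

namespace GrdM

variable {α : Type} [DecidableEq α]

private theorem av_insert (F : Finset (Finset α)) (B : Finset α) (v : α) :
    (av F (insert v B)).card + (up (av F B) {v}).card = (av F B).card := by
  have h1 : av F (insert v B) = (av F B).filter fun A => ¬ ({v} : Finset α) ⊆ A := by
    ext A
    unfold av
    simp only [Finset.mem_filter, Finset.disjoint_insert_right, Finset.singleton_subset_iff]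
    tauto
  rw [h1, add_comm]
  exact Finset.card_filter_add_card_filter_not _

private theorem av_empty (F : Finset (Finset α)) : av F ∅ = F := by
  unfold av
  exact Finset.filter_true_of_mem fun A _ => Finset.disjoint_empty_right A

/-- The level of a number `x` between `0` and `f`. -/
private theorem level {x f : ℝ} (hf : 0 < f) (hx : 0 < x) :
    x = Real.exp (-(Real.log (f / x))) * f := by
  rw [Real.exp_neg, Real.exp_log (div_pos hf hx)]
  field_simp

private theorem step {A₀ L L' a : ℝ} (hA : 1 ≤ A₀) (hL : 0 ≤ L)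
    (h : 1 + 2 * a / A₀ ≤ (1 + L) ^ 2) (hL' : L + 1 / (A₀ * (1 + L)) ≤ L') :
    1 + 2 * (a + 1) / A₀ ≤ (1 + L') ^ 2 := by
  have hA0 : 0 < A₀ := by linarith
  have h1 : 0 < 1 + L := by linarith
  have hd : 0 < 1 / (A₀ * (1 + L)) := by positivity
  have h2 : (1 + L) * (1 / (A₀ * (1 + L))) = 1 / A₀ := by
    field_simp
  have h3 : (1 + L + 1 / (A₀ * (1 + L))) ^ 2 ≤ (1 + L') ^ 2 :=
    pow_le_pow_left₀ (by linarith) (by linarith) 2
  have h4 : (1 + L) ^ 2 + 2 * (1 / A₀) ≤ (1 + L + 1 / (A₀ * (1 + L))) ^ 2 := by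
    have h5 : (1 + L + 1 / (A₀ * (1 + L))) ^ 2 =
        (1 + L) ^ 2 + 2 * ((1 + L) * (1 / (A₀ * (1 + L)))) + (1 / (A₀ * (1 + L))) ^ 2 := by ring
    rw [h5, h2]
    have := sq_nonneg (1 / (A₀ * (1 + L)))
    linarith
  have h6 : 2 * (a + 1) / A₀ = 2 * a / A₀ + 2 * (1 / A₀) := by ring
  rw [h6]
  linarith

end GrdM

open GrdM in
theorem stmtGrd : StmtPpv → StmtGrd := by
  intro hP C hC
  obtain ⟨A₀, hA₀, hP⟩ := hP C hC
  have hA0 : 0 < A₀ := by linarith
  have hq : 0 < 2 / A₀ := by positivity
  refine ⟨Real.sqrt (1 + 2 / A₀) - 1, ?_, ?_⟩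
  · have h1 : Real.sqrt 1 < Real.sqrt (1 + 2 / A₀) :=
      Real.sqrt_lt_sqrt zero_le_one (by linarith)
    rw [Real.sqrt_one] at h1
    linarith
  intro α _ _ F f hF hf hB hFf
  have main : ∀ a : ℕ, ∃ B : Finset α, B.card ≤ a ∧ (av F B = ∅ ∨
      ∃ L : ℝ, 0 ≤ L ∧ ((av F B).card : ℝ) = Real.exp (-L) * f ∧
        1 + 2 * (a : ℝ) / A₀ ≤ (1 + L) ^ 2) := by
    intro a
    induction a with
    | zero =>
      refine ⟨∅, le_rfl, ?_⟩
      rw [av_empty]
      rcases Finset.eq_empty_or_nonempty F with h | h
      · exact Or.inl h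
      · right
        have hpos : (0 : ℝ) < F.card := by exact_mod_cast Finset.card_pos.2 h
        have hL : 0 ≤ Real.log (f / F.card) := Real.log_nonneg (by rwa [one_le_div hpos])
        refine ⟨Real.log (f / F.card), hL, level hf hpos, ?_⟩
        rw [Nat.cast_zero, mul_zero, zero_div, add_zero]
        exact one_le_pow₀ (by linarith)
    | succ a ih =>
      obtain ⟨B, hBa, h⟩ := ih
      rcases h with h | ⟨L, hL, hcard, hLa⟩
      · exact ⟨B, hBa.trans (Nat.le_succ a), Or.inl h⟩
      · have hpos : (0 : ℝ) < (av F B).card := by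
          rw [hcard]
          positivity
        have hne : (av F B).Nonempty := Finset.card_pos.1 (by exact_mod_cast hpos)
        obtain ⟨v, hv⟩ := hP α F f hF hf hB (av F B) (Finset.filter_subset _ _) hne
          (Real.exp (-L)) (Real.exp_pos _) (Real.exp_le_one_iff.2 (by linarith)) hcard.symm.le
        have hlog : Real.log (1 / Real.exp (-L)) = L := by
          rw [one_div, ← Real.exp_neg, neg_neg, Real.log_exp]
        rw [hlog] at hv
        refine ⟨insert v B, (Finset.card_insert_le v B).trans (Nat.succ_le_succ hBa), ?_⟩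
        rcases Finset.eq_empty_or_nonempty (av F (insert v B)) with h | h
        · exact Or.inl h
        · right
          have hpos' : (0 : ℝ) < (av F (insert v B)).card := by exact_mod_cast Finset.card_pos.2 h
          have hsum : ((av F (insert v B)).card : ℝ) + (up (av F B) {v}).card =
              (av F B).card := by exact_mod_cast av_insert F B v
          have h1L : 0 < A₀ * (1 + L) := by positivity
          have h2 : ((av F B).card : ℝ) * (1 / (A₀ * (1 + L))) ≤ (up (av F B) {v}).card := by
            rw [mul_one_div, div_le_iff₀ h1L]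
            linarith
          have h3 : ((av F (insert v B)).card : ℝ) ≤
              Real.exp (-(L + 1 / (A₀ * (1 + L)))) * f := by
            have h4 : 1 - 1 / (A₀ * (1 + L)) ≤ Real.exp (-(1 / (A₀ * (1 + L)))) := by
              have := Real.add_one_le_exp (-(1 / (A₀ * (1 + L))))
              linarith
            calc ((av F (insert v B)).card : ℝ)
                ≤ (av F B).card * (1 - 1 / (A₀ * (1 + L))) := by linarith
              _ ≤ (av F B).card * Real.exp (-(1 / (A₀ * (1 + L)))) :=
                  mul_le_mul_of_nonneg_left h4 hpos.le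
              _ = Real.exp (-(L + 1 / (A₀ * (1 + L)))) * f := by
                  rw [hcard, neg_add, Real.exp_add]
                  ring
          have h5 : L + 1 / (A₀ * (1 + L)) ≤ Real.log (f / (av F (insert v B)).card) := by
            rw [Real.le_log_iff_exp_le (div_pos hf hpos'), le_div_iff₀ hpos']
            calc Real.exp (L + 1 / (A₀ * (1 + L))) * (av F (insert v B)).card
                ≤ Real.exp (L + 1 / (A₀ * (1 + L))) *
                    (Real.exp (-(L + 1 / (A₀ * (1 + L)))) * f) :=
                  mul_le_mul_of_nonneg_left h3 (Real.exp_pos _).le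
              _ = f := by rw [← mul_assoc, ← Real.exp_add, add_neg_cancel, Real.exp_zero, one_mul]
          refine ⟨Real.log (f / (av F (insert v B)).card), ?_, level hf hpos', ?_⟩
          · have : 0 < 1 / (A₀ * (1 + L)) := by positivity
            linarith
          · rw [Nat.cast_succ]
            exact step hA₀ hL hLa h5
  intro a
  obtain ⟨B, hBa, h⟩ := main a
  refine ⟨B, hBa, ?_⟩
  rcases h with h | ⟨L, hL, hcard, hLa⟩
  · rw [h, Finset.card_empty, Nat.cast_zero]
    positivity
  · rw [hcard]
    refine mul_le_mul_of_nonneg_right (Real.exp_le_exp.2 ?_) hf.le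
    have hs : 0 ≤ Real.sqrt (1 + 2 / A₀) := Real.sqrt_nonneg _
    have hs2 : Real.sqrt (1 + 2 / A₀) ^ 2 = 1 + 2 / A₀ := Real.sq_sqrt (by linarith)
    set c := Real.sqrt (1 + 2 / A₀) - 1 with hc
    have hc0 : 0 ≤ c := by
      have h1 : Real.sqrt 1 ≤ Real.sqrt (1 + 2 / A₀) := Real.sqrt_le_sqrt (by linarith)
      rw [Real.sqrt_one] at h1
      linarith
    have hcc : c ^ 2 + 2 * c = 2 / A₀ := by
      have : Real.sqrt (1 + 2 / A₀) = c + 1 := by rw [hc]; ring
      rw [this] at hs2
      linarith
    have hsa : Real.sqrt a ^ 2 = a := Real.sq_sqrt (Nat.cast_nonneg a)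
    have hsa' : Real.sqrt a ≤ a := by
      rcases Nat.eq_zero_or_pos a with h0 | h0
      · rw [h0]
        simp
      · have h1 : (1 : ℝ) ≤ a := by exact_mod_cast h0
        have h2 : 1 ≤ Real.sqrt a := by
          rw [Real.one_le_sqrt]
          exact h1
        nlinarith
    have h1 : (c * Real.sqrt a + 1) ^ 2 ≤ (1 + L) ^ 2 := by
      refine le_trans ?_ hLa
      have h2 : (c * Real.sqrt a + 1) ^ 2 = c ^ 2 * a + 2 * c * Real.sqrt a + 1 := by
        have h3 : (c * Real.sqrt a + 1) ^ 2 =
            c ^ 2 * Real.sqrt a ^ 2 + 2 * c * Real.sqrt a + 1 := by ring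
        rw [h3, hsa]
      rw [h2]
      have h4 : 2 * (a : ℝ) / A₀ = (c ^ 2 + 2 * c) * a := by
        rw [hcc]
        ring
      rw [h4]
      have h5 : 2 * c * Real.sqrt a ≤ 2 * c * a :=
        mul_le_mul_of_nonneg_left hsa' (by linarith)
      linarith
    have h6 : c * Real.sqrt a + 1 ≤ 1 + L :=
      le_of_abs_le (abs_le_of_sq_le_sq h1 (by linarith))
    linarith

end

end Pool.Agent.EfcA
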