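import Pool.Agent.Lib.MP_efc1da_coA.Ppv

/-!
# Deletion of `a` vertices: the linear exponent
-/

set_option autoImplicit false

namespace Pool.Agent.EfcA

open Pool.Agent.Efc PpvM

/-- GRL: the deletion of `a` suitable vertices leaves at most `exp(-c a) f` members.
PROOF. `R = a/(e² C)`. If `|F| ≥ exp(-R) f`, the maximiser `S` of `R^|S| |F(S)|` has at most `e² C R = a` elements, and
the family `F(S)` is `R`-spread over `S` with at least `exp(-R^(5/4)) f` members, so `|av F S| ≤ exp(-R) f`. For bounded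
`a ≥ 1` one popular vertex is enough. -/
def StmtGrl : Prop := ∀ C : ℝ, 1 ≤ C → ∃ c : ℝ, 0 < c ∧
  ∀ (α : Type) [Fintype α] [DecidableEq α] (F : Finset (Finset α)) (f : ℝ), Efc.Inter F → 0 < f →
    Bd C f F → (F.card : ℝ) ≤ f → ∀ a : ℕ, ∃ B : Finset α, B.card ≤ a ∧
      ((av F B).card : ℝ) ≤ Real.exp (-(c * a)) * f

namespace GrlM

theorem av_empty {α : Type} [DecidableEq α] (F : Finset (Finset α)) : av F ∅ = F := by
  unfold av
  exact Finset.filter_true_of_mem fun A _ => Finset.disjoint_empty_right A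

theorem av_single {α : Type} [DecidableEq α] (F : Finset (Finset α)) (v : α) :
    ((av F {v}).card : ℝ) + (up F {v}).card = F.card := by
  have h1 : av F {v} = F.filter fun A => ¬ ({v} : Finset α) ⊆ A := by
    ext A
    unfold av
    simp only [Finset.mem_filter, Finset.disjoint_singleton_right, Finset.singleton_subset_iff]
  rw [h1, add_comm]
  exact_mod_cast Finset.card_filter_add_card_filter_not (s := F) (fun A => ({v} : Finset α) ⊆ A)

end GrlM

theorem stmtGrl : StmtMxa → StmtSza → StmtInd → StmtPpv → StmtGrl := by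
  intro hMxa hSza hInd hPpv C hC
  obtain ⟨R₀, hR₀, hI⟩ := hInd C hC
  obtain ⟨A₀, hA₀, hP⟩ := hPpv C hC
  obtain ⟨b, hb⟩ : ∃ b : ℝ, b = Real.exp 2 * C := ⟨_, rfl⟩
  have hb1 : 1 ≤ b := by
    rw [hb]
    have : (1 : ℝ) ≤ Real.exp 2 := Real.one_le_exp (by norm_num)
    nlinarith
  have hb0 : 0 < b := by linarith
  obtain ⟨N, hN2, hN⟩ := large b hb1
  obtain ⟨R₁, hR₁⟩ : ∃ R₁ : ℝ, R₁ = max N R₀ := ⟨_, rfl⟩
  have hR₁N : N ≤ R₁ := by rw [hR₁]; exact le_max_left _ _
  have hR₁R : R₀ ≤ R₁ := by rw [hR₁]; exact le_max_right _ _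
  have hR₁2 : 2 ≤ R₁ := hN2.trans hR₁N
  have hR₁0 : 0 < R₁ := by linarith
  have hlog2 : 0 < Real.log 2 := Real.log_pos (by norm_num)
  obtain ⟨c₀, hc₀⟩ : ∃ c₀ : ℝ, c₀ = 1 / (A₀ * (1 + Real.log 2)) := ⟨_, rfl⟩
  have hc₀0 : 0 < c₀ := by
    rw [hc₀]
    positivity
  obtain ⟨c₁, hc₁⟩ : ∃ c₁ : ℝ, c₁ = min (Real.log 2) c₀ := ⟨_, rfl⟩
  have hc₁0 : 0 < c₁ := by rw [hc₁]; exact lt_min hlog2 hc₀0
  obtain ⟨c, hc⟩ : ∃ c : ℝ, c = min (1 / b) (c₁ / (b * R₁)) := ⟨_, rfl⟩
  have hc0 : 0 < c := by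
    rw [hc]
    exact lt_min (by positivity) (by positivity)
  refine ⟨c, hc0, ?_⟩
  intro α _ _ F f hF hf hB hFf a
  rcases F.eq_empty_or_nonempty with hFe | hFne
  · refine ⟨∅, by simp, ?_⟩
    rw [hFe]
    have : (av (∅ : Finset (Finset α)) ∅) = ∅ := by
      unfold av
      exact Finset.filter_empty _
    rw [this, Finset.card_empty, Nat.cast_zero]
    positivity
  rcases le_or_gt (b * R₁) (a : ℝ) with ha | ha
  · -- large `a`
    obtain ⟨R, hR⟩ : ∃ R : ℝ, R = a / b := ⟨_, rfl⟩
    have hbR : b * R = a := by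
      rw [hR]
      field_simp
    have hRR₁ : R₁ ≤ R := by
      rw [hR, le_div_iff₀ hb0]
      linarith
    have hR2 : 2 ≤ R := hR₁2.trans hRR₁
    have hR0 : 0 < R := by linarith
    have hcR : c * a ≤ R := by
      have : c ≤ 1 / b := by rw [hc]; exact min_le_left _ _
      calc c * a ≤ 1 / b * a := mul_le_mul_of_nonneg_right this (Nat.cast_nonneg a)
        _ = R := by rw [hR]; ring
    have hexp : Real.exp (-R) * f ≤ Real.exp (-(c * a)) * f :=
      mul_le_mul_of_nonneg_right (Real.exp_le_exp.2 (by linarith)) hf.le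
    rcases le_or_gt (F.card : ℝ) (Real.exp (-R) * f) with hs | hl
    · refine ⟨∅, by simp, ?_⟩
      rw [GrlM.av_empty]
      exact hs.trans hexp
    obtain ⟨S, hSne, hSle, hSs⟩ := hMxa α R F hR0 hFne
    have hSa : (S.card : ℝ) ≤ b * R := by
      by_contra hcon
      push Not at hcon
      have h1 := hSza α F C f R S hC hf hR0 hB (by rw [← hb]; exact hcon)
      have h2 : Real.exp (-R) * f < Real.exp (-(2 * (S.card : ℝ))) * f :=
        lt_of_lt_of_le hl (hSle.trans h1)
      have h3 : Real.exp (-R) < Real.exp (-(2 * (S.card : ℝ))) := lt_of_mul_lt_mul_right h2 hf.le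
      have h4 := Real.exp_lt_exp.1 h3
      nlinarith
    have hpow : (R : ℝ) ^ S.card ≤ Real.exp (b * R * Real.log R) := by
      have e : (R : ℝ) ^ S.card = Real.exp (S.card * Real.log R) := by
        rw [Real.exp_nat_mul, Real.exp_log hR0]
      rw [e]
      refine Real.exp_le_exp.2 (mul_le_mul_of_nonneg_right hSa (Real.log_nonneg (by linarith)))
    have hPl : Real.exp (-(R ^ (5 / 4 : ℝ))) * f ≤ ((up F S).card : ℝ) := by
      have h1 : Real.exp (-R) * f ≤ Real.exp (b * R * Real.log R) * ((up F S).card : ℝ) :=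
        calc Real.exp (-R) * f ≤ (F.card : ℝ) := hl.le
          _ ≤ R ^ S.card * (up F S).card := hSle
          _ ≤ _ := mul_le_mul_of_nonneg_right hpow (Nat.cast_nonneg _)
      have h2 : Real.exp (-(R ^ (5 / 4 : ℝ))) ≤
          Real.exp (-(b * R * Real.log R)) * Real.exp (-R) := by
        rw [← Real.exp_add]
        refine Real.exp_le_exp.2 ?_
        have := hN R (hR₁N.trans hRR₁)
        linarith
      calc Real.exp (-(R ^ (5 / 4 : ℝ))) * f
          ≤ Real.exp (-(b * R * Real.log R)) * Real.exp (-R) * f :=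
            mul_le_mul_of_nonneg_right h2 hf.le
        _ = Real.exp (-(b * R * Real.log R)) * (Real.exp (-R) * f) := by ring
        _ ≤ Real.exp (-(b * R * Real.log R)) *
            (Real.exp (b * R * Real.log R) * ((up F S).card : ℝ)) :=
            mul_le_mul_of_nonneg_left h1 (Real.exp_nonneg _)
        _ = ((up F S).card : ℝ) := by
            rw [← mul_assoc, ← Real.exp_add, neg_add_cancel, Real.exp_zero, one_mul]
    have hQ := hI α F f hF hf hB R (hR₁R.trans hRR₁) S (up F S) hSne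
      (Finset.filter_subset _ _) (fun A hA => (Finset.mem_filter.1 hA).2) hSs hPl
    refine ⟨S, ?_, hQ.trans hexp⟩
    rw [hbR] at hSa
    exact_mod_cast hSa
  · -- bounded `a`
    rcases Nat.eq_zero_or_pos a with h0 | h0
    · refine ⟨∅, by simp, ?_⟩
      rw [GrlM.av_empty, h0, Nat.cast_zero, mul_zero, neg_zero, Real.exp_zero, one_mul]
      exact hFf
    have hca : c * a ≤ c₁ := by
      have h1 : c ≤ c₁ / (b * R₁) := by rw [hc]; exact min_le_right _ _
      have hbR₁ : 0 < b * R₁ := by positivity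
      calc c * a ≤ c₁ / (b * R₁) * a := mul_le_mul_of_nonneg_right h1 (Nat.cast_nonneg a)
        _ ≤ c₁ / (b * R₁) * (b * R₁) := mul_le_mul_of_nonneg_left ha.le (by positivity)
        _ = c₁ := by field_simp
    have hexp : Real.exp (-c₁) * f ≤ Real.exp (-(c * a)) * f :=
      mul_le_mul_of_nonneg_right (Real.exp_le_exp.2 (by linarith)) hf.le
    rcases le_or_gt (F.card : ℝ) (1 / 2 * f) with hs | hl
    · refine ⟨∅, by simp, ?_⟩
      rw [GrlM.av_empty]
      refine hs.trans (le_trans ?_ hexp)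
      refine mul_le_mul_of_nonneg_right ?_ hf.le
      have h1 : c₁ ≤ Real.log 2 := by rw [hc₁]; exact min_le_left _ _
      calc (1 / 2 : ℝ) = Real.exp (-(Real.log 2)) := by
            rw [Real.exp_neg, Real.exp_log (by norm_num)]
            norm_num
        _ ≤ Real.exp (-c₁) := Real.exp_le_exp.2 (by linarith)
    obtain ⟨v, hv⟩ := hP α F f hF hf hB F (Finset.Subset.refl _) hFne (1 / 2) (by norm_num)
      (by norm_num) hl.le
    rw [show Real.log (1 / (1 / 2 : ℝ)) = Real.log 2 by norm_num] at hv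
    refine ⟨{v}, by rw [Finset.card_singleton]; exact h0, le_trans ?_ hexp⟩
    have hsum := GrlM.av_single F v
    have hA : 0 < A₀ * (1 + Real.log 2) := by positivity
    have h2 : (F.card : ℝ) * c₀ ≤ (up F {v}).card := by
      rw [hc₀, mul_one_div, div_le_iff₀ hA]
      linarith
    have hF0 : (0 : ℝ) < F.card := by exact_mod_cast hFne.card_pos
    have h3 : 1 - c₀ ≤ Real.exp (-c₀) := by
      have := Real.add_one_le_exp (-c₀)
      linarith
    have h4 : c₁ ≤ c₀ := by rw [hc₁]; exact min_le_right _ _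
    calc ((av F {v}).card : ℝ) ≤ F.card * (1 - c₀) := by linarith
      _ ≤ F.card * Real.exp (-c₀) := mul_le_mul_of_nonneg_left h3 hF0.le
      _ ≤ f * Real.exp (-c₀) := mul_le_mul_of_nonneg_right hFf (Real.exp_pos _).le
      _ ≤ Real.exp (-c₁) * f := by
          rw [mul_comm]
          exact mul_le_mul_of_nonneg_right (Real.exp_le_exp.2 (by linarith)) hf.le

end Pool.Agent.EfcA
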