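import Pool.Agent.Lib.MP_efc1da_coA.Spec

/-!
# Deleting vertices, almost all uniformities: most indices are good
-/

set_option autoImplicit false

namespace Pool.Agent.EfcA

namespace GrwM

/-- The running supremum of a sequence which is bounded above on `l ≥ 1`. -/
theorem exists_sup (b : ℕ → ℝ) (h : ∀ l, 1 ≤ l → b l ≤ 0) :
    ∃ M : ℕ → ℝ, (∀ k l, 1 ≤ k → k ≤ l → b l ≤ M k) ∧
      (∀ k, 1 ≤ k → ∀ c : ℝ, (∀ l, k ≤ l → b l ≤ c) → M k ≤ c) := by
  refine ⟨fun k => sSup (b '' Set.Ici k), ?_, ?_⟩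
  · intro k l hk hl
    refine le_csSup ?_ ⟨l, hl, rfl⟩
    refine ⟨0, ?_⟩
    rintro x ⟨j, hj, rfl⟩
    exact h j (le_trans hk hj)
  · intro k _ c hc
    refine csSup_le ⟨b k, ⟨k, Set.mem_Ici.2 le_rfl, rfl⟩⟩ ?_
    rintro x ⟨j, hj, rfl⟩
    exact hc j hj

end GrwM

open GrwM in
theorem stmtGrw : StmtGrw := by
  intro a lam hlam ha1 hmono hak n s hs
  obtain ⟨b, hb⟩ : ∃ b : ℕ → ℝ, ∀ k, b k = a k - lam * k := ⟨fun k => a k - lam * k, fun _ => rfl⟩
  have hb0 : ∀ l : ℕ, 1 ≤ l → b l ≤ -((lam - 1) * l) := by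
    intro l hl
    rw [hb]
    have := hak l hl
    nlinarith
  have hb1 : ∀ l : ℕ, 1 ≤ l → b l ≤ 0 := by
    intro l hl
    refine le_trans (hb0 l hl) ?_
    have h1 : (0 : ℝ) ≤ (lam - 1) * l := mul_nonneg (by linarith) (Nat.cast_nonneg l)
    linarith
  obtain ⟨M, hM1, hM2⟩ := exists_sup b hb1
  have step : ∀ k, 1 ≤ k → M k ≤ M (k + 1) + (if k ∈ s then 0 else lam) := by
    intro k hk
    refine hM2 k hk _ ?_
    intro l hl
    rcases Nat.eq_or_lt_of_le hl with rfl | hl'
    · by_cases hks : k ∈ s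
      · rw [if_pos hks]
        obtain ⟨-, -, u, hu⟩ := hs k hks
        have hu1 : 1 ≤ u := by
          rcases Nat.eq_zero_or_pos u with rfl | h
          · exfalso
            simp at hu
          · exact h
        have h2 : b (k + u) ≤ M (k + 1) := hM1 (k + 1) (k + u) (by omega) (by omega)
        have h3 : b k < b (k + u) := by
          rw [hb, hb]
          push_cast
          linarith
        linarith
      · rw [if_neg hks]
        have h2 : b (k + 1) ≤ M (k + 1) := hM1 (k + 1) (k + 1) (by omega) le_rfl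
        have h3 : b k ≤ b (k + 1) + lam := by
          rw [hb, hb]
          have := hmono k hk
          push_cast
          linarith
        linarith
    · have h2 : b l ≤ M (k + 1) := hM1 (k + 1) l (by omega) hl'
      have h3 : (0 : ℝ) ≤ (if k ∈ s then 0 else lam) := by
        split_ifs
        · exact le_rfl
        · linarith
      linarith
  have tele : ∀ m : ℕ, M 1 ≤ M (m + 1) + ∑ k ∈ Finset.Icc 1 m, (if k ∈ s then 0 else lam) := by
    intro m
    induction m with
    | zero => simp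
    | succ m ih =>
      rw [Finset.sum_Icc_succ_top (by omega)]
      have := step (m + 1) (by omega)
      linarith
  have hsub : s ⊆ Finset.Icc 1 n := by
    intro k hk
    obtain ⟨h1, h2, -⟩ := hs k hk
    exact Finset.mem_Icc.2 ⟨h1, h2⟩
  have hsum : ∑ k ∈ Finset.Icc 1 n, (if k ∈ s then (0 : ℝ) else lam) =
      lam * n - lam * s.card := by
    have e1 : ∀ k ∈ Finset.Icc 1 n, (if k ∈ s then (0 : ℝ) else lam) =
        lam - (if k ∈ s then lam else 0) := by
      intro k _
      split_ifs <;> ring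
    rw [Finset.sum_congr rfl e1, Finset.sum_sub_distrib, Finset.sum_ite_mem,
      Finset.inter_eq_right.2 hsub, Finset.sum_const, Finset.sum_const, Nat.card_Icc,
      nsmul_eq_mul, nsmul_eq_mul, Nat.add_sub_cancel]
    ring
  have h1 := tele n
  rw [hsum] at h1
  have h2 : -lam ≤ M 1 := by
    have h3 : b 1 ≤ M 1 := hM1 1 1 le_rfl le_rfl
    rw [hb] at h3
    push_cast at h3
    linarith
  have h4 : M (n + 1) ≤ -((lam - 1) * (n + 1)) := by
    refine hM2 (n + 1) (by omega) _ ?_
    intro l hl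
    refine le_trans (hb0 l (by omega)) ?_
    have h5 : ((n : ℝ) + 1) ≤ l := by exact_mod_cast hl
    have h6 : (lam - 1) * ((n : ℝ) + 1) ≤ (lam - 1) * l :=
      mul_le_mul_of_nonneg_left h5 (by linarith)
    linarith
  nlinarith

end Pool.Agent.EfcA
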