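import Pool.Agent.Lib.MP_efc1da_coA.Spec

/-!
# HTA: few members of a spread family meet a small set
-/

set_option autoImplicit false

namespace Pool.Agent.EfcA

open Pool.Agent.Efc

theorem stmtHta : StmtHta := by
  intro α _ _ P S T R hR hP hTS hT
  have h1 : (P.filter fun A => ¬ Disjoint A T) ⊆ T.biUnion fun v => up P {v} := by
    intro A hA
    rw [Finset.mem_filter] at hA
    obtain ⟨hA1, hA2⟩ := hA
    rw [Finset.not_disjoint_iff] at hA2
    obtain ⟨v, hv1, hv2⟩ := hA2
    rw [Finset.mem_biUnion]
    refine ⟨v, hv2, ?_⟩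
    unfold up
    rw [Finset.mem_filter]
    exact ⟨hA1, Finset.singleton_subset_iff.mpr hv1⟩
  have h2 : ((P.filter fun A => ¬ Disjoint A T).card : ℝ) ≤ ∑ v ∈ T, ((up P {v}).card : ℝ) := by
    have := (Finset.card_le_card h1).trans Finset.card_biUnion_le
    exact_mod_cast this
  have h3 : ∀ v ∈ T, ((up P {v}).card : ℝ) ≤ P.card / R := by
    intro v hv
    have hd : Disjoint ({v} : Finset α) S := by
      rw [Finset.disjoint_singleton_left]
      exact Finset.disjoint_left.mp hTS hv
    have := hP {v} hd
    rw [Finset.card_singleton, pow_one] at this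
    rwa [le_div_iff₀ hR]
  have h4 : ∑ v ∈ T, ((up P {v}).card : ℝ) ≤ T.card * (P.card / R) := by
    have := Finset.sum_le_sum h3
    rwa [Finset.sum_const, nsmul_eq_mul] at this
  have h5 : (T.card : ℝ) * (P.card / R) ≤ P.card / 2 := by
    have hp : (0 : ℝ) ≤ P.card := Nat.cast_nonneg _
    rw [mul_div_assoc', div_le_div_iff₀ hR (by norm_num)]
    nlinarith
  have h6 : (P.filter fun A => Disjoint A T).card + (P.filter fun A => ¬ Disjoint A T).card =
      P.card := Finset.card_filter_add_card_filter_not _
  have h7 : ((P.filter fun A => Disjoint A T).card : ℝ) +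
      ((P.filter fun A => ¬ Disjoint A T).card : ℝ) = P.card := by exact_mod_cast h6
  linarith

end Pool.Agent.EfcA
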