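import Pool.Agent.Lib.MP_efc1da_coA.Spec

/-!
# Deleting vertices, almost all uniformities: the induction (`StmtInd`)
-/

set_option autoImplicit false

namespace Pool.Agent.EfcA

open Pool.Agent.Efc

noncomputable section

namespace IndM

private theorem base {α : Type} [Fintype α] [DecidableEq α] (F : Finset (Finset α)) (f R θ : ℝ)
    (hF : Efc.Inter F) (hf : 0 < f) (hR : (Fintype.card α : ℝ) < R) : Qs f F R θ := by
  intro S P hP hPF hSP hspr _
  have hR0 : 0 < R := lt_of_le_of_lt (Nat.cast_nonneg _) hR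
  have hempty : av F S = ∅ := by
    by_contra hne
    obtain ⟨A', hA'⟩ := Finset.nonempty_iff_ne_empty.2 hne
    rw [av, Finset.mem_filter] at hA'
    have hsub : P ⊆ A'.biUnion fun v => up P {v} := by
      intro A hA
      have hnd := hF A (hPF hA) A' hA'.1
      rw [Finset.not_disjoint_iff] at hnd
      obtain ⟨v, hvA, hvA'⟩ := hnd
      rw [Finset.mem_biUnion]
      exact ⟨v, hvA', by rw [up, Finset.mem_filter]; exact ⟨hA, by simpa using hvA⟩⟩
    have h1 : (P.card : ℝ) ≤ ∑ v ∈ A', ((up P {v}).card : ℝ) := by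
      have := (Finset.card_le_card hsub).trans Finset.card_biUnion_le
      exact_mod_cast this
    have h2 : ∀ v ∈ A', ((up P {v}).card : ℝ) ≤ P.card / R := by
      intro v hv
      rw [le_div_iff₀ hR0]
      have hd : Disjoint ({v} : Finset α) S := by
        rw [Finset.disjoint_singleton_left]
        intro hvS
        exact Finset.disjoint_left.1 hA'.2 hv hvS
      have := hspr {v} hd
      simpa using this
    have h3 : (P.card : ℝ) ≤ A'.card * (P.card / R) := by
      refine h1.trans ((Finset.sum_le_sum h2).trans ?_)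
      rw [Finset.sum_const, nsmul_eq_mul]
    have h4 : (A'.card : ℝ) < R :=
      lt_of_le_of_lt (by exact_mod_cast Finset.card_le_univ A') hR
    have h5 : (0 : ℝ) < P.card := by exact_mod_cast hP.card_pos
    have h6 : (A'.card : ℝ) * (P.card / R) < P.card := by
      rw [mul_div_assoc', div_lt_iff₀ hR0, mul_comm]
      exact mul_lt_mul_of_pos_left h4 h5
    linarith
  rw [hempty, Finset.card_empty, Nat.cast_zero]
  positivity

end IndM

theorem stmtInd : StmtNm7 → StmtStp → StmtInd := by
  intro hN hS C hC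
  obtain ⟨R₀, hR₀, h⟩ := hN C hC
  refine ⟨R₀, hR₀, ?_⟩
  intro α _ _ F f hF hf hB
  have key : ∀ j : ℕ, ∀ R : ℝ, R₀ ≤ R → (Fintype.card α : ℝ) < R * 2 ^ j →
      Qs f F R (R ^ (5 / 4 : ℝ)) := by
    intro j
    induction j with
    | zero =>
      intro R _ hR
      rw [pow_zero, mul_one] at hR
      exact IndM.base F f R _ hF hf hR
    | succ j ih =>
      intro R hR hRj
      obtain ⟨Rs, θs, r, Rss, l₀, l₁, m, M, hRs, hθs, hr, hRss, hl₀, hl₁, hm, hr1, hRs1, hRs2,
        hl₀1, hl₁1, hM1, h8, hd, he, hf', hg, hh, hi⟩ := h R hR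
      have hQ : Qs f F Rs θs := by
        rw [hθs]
        refine ih Rs (hR.trans ?_) ?_
        · linarith [hR₀.trans hR]
        · refine hRj.trans_le ?_
          rw [pow_succ]
          have h2 : (0 : ℝ) ≤ 2 ^ j := by positivity
          nlinarith
      rw [← hRs]
      exact hS α F C f R Rs θs r Rss l₀ l₁ m M hC hf hB (hR₀.trans hR) hr hl₀ hl₁ hm hr1 hRs1
        hl₀1 hl₁1 hM1 h8 hd he hf' hg hh hi hQ
  intro R hR
  obtain ⟨j, hj⟩ := pow_unbounded_of_one_lt (Fintype.card α : ℝ) (one_lt_two : (1 : ℝ) < 2)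
  refine key j R hR (hj.trans_le ?_)
  have h1 : (1 : ℝ) ≤ R := hR₀.trans hR
  have h2 : (0 : ℝ) ≤ 2 ^ j := by positivity
  nlinarith

end

end Pool.Agent.EfcA
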