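import Pool.Agent.Lib.MP_efc1da_coA.Defs
import Mathlib.Analysis.SpecialFunctions.Pow.Real

/-!
# Deleting vertices, almost all uniformities: statements and proofs of the modules

GOAL (`StmtFin`): for every `δ > 0` there is `c > 0` such that for all but at most `δ n` of the `k ≤ n`:
`m(k,a) ≤ exp(-c √a) m(k,0)` for all `a`. Complete proof: note 3417 (helper1).

Every module: file `Pool/Agent/Lib/MP_efc1da_coA/<Name>.lean`, importing `Pool.Agent.Lib.MP_efc1da_coA.Spec` (and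
the files named in the task), private names in `namespace Pool.Agent.EfcA.<Name>M`, final theorem
`Pool.Agent.EfcA.stmt<Name> : … → Stmt<Name>`; the other statements it uses are hypotheses, in the order of
the docstring. The statements have no instances besides `Fintype α`, `DecidableEq α`; use `classical` in
proofs if necessary.
-/

set_option autoImplicit false

namespace Pool.Agent.EfcA

open Pool.Agent.Efc

noncomputable section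

/-! ## Part S: the spread lemma with `M + 2` colours -/

open Classical in
/-- FRN (200 lines, adapt `Pool/Agent/Lib/MP_efc1da_co/Frag.lean`: replace `Fin 4` by `Fin N`, `Wc` by `Wn`,
`recol` by `rcl`, `4` by `N`). One counting round. -/
def StmtFrn : Prop :=
  ∀ (α ι : Type) [Fintype α] [DecidableEq α] [DecidableEq ι] (N : ℕ) (J : Finset (Fin N))
    (j : Fin N) (I : Finset ι) (S : ι → Finset α) (ρ : ℝ) (K u : ℕ)
    (I' : (α → Fin N) → Finset ι) (R : (α → Fin N) → ι → Finset α),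
    j ∈ J → 0 < ρ → 1 ≤ u → Spr ρ I S →
    (∀ c, I' c ⊆ I) →
    (∀ c T, (∀ x ∈ T, c x ∉ J) → I' (rcl c T j) = I' c ∧ R (rcl c T j) = R c) →
    (∀ c, ∀ i ∈ I' c, ∀ x ∈ R c i, c x = j ∨ c x ∉ J) →
    (∀ c, ∀ i ∈ I' c, (R c i).card ≤ K) →
    (∀ c, ∀ i ∈ I' c, R c i ⊆ S i) →
    ((((Finset.univ : Finset (α → Fin N)) ×ˢ I).filter
        (fun p => p.2 ∈ I' p.1 ∧ FragMin (I' p.1) (R p.1) (Wn p.1 j) p.2 u)).card : ℝ) * ρ ^ u ≤
      (N : ℝ) ^ Fintype.card α * (K.choose u) * ((N - J.card : ℕ) : ℝ) ^ u * I.card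

/-- NMN (100 lines, compare `Pool/Agent/Lib/MP_efc1da_co/Num1.lean`). The two numerical sums.
PROOF. Let `N = M + 2 ≥ 3`. Second sum: `≤ (1 + N/ρ)^t - 1 ≤ exp(t N/ρ) - 1 ≤ exp(1/100) - 1 ≤ 0.0102`. First sum: for
`u > t`: `u ≥ t + 1 > ρ/(100 N)`; `u! ≥ (u/3)^u`, so `C(l,u) ≤ l^u/u! ≤ (3 l/u)^u` and
`C(l,u) (N/ρ)^u ≤ (3 l N/(u ρ))^u ≤ (300 l N²/ρ²)^u ≤ (1/200)^u`, sum over `u ≥ 1` at most `1/199`. -/
def StmtNmn : Prop :=
  ∀ (l M t : ℕ) (ρ : ℝ), 1 ≤ l → 1 ≤ M → 0 < ρ → 60000 * (l : ℝ) * ((M : ℝ) + 2) ^ 2 ≤ ρ ^ 2 →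
    t = ⌊ρ / (100 * ((M : ℝ) + 2))⌋₊ →
    (∑ u ∈ Finset.Ioc t l, (l.choose u : ℝ) * (((M : ℝ) + 1) / ρ) ^ u) +
      (∑ u ∈ Finset.Icc 1 t, (t.choose u : ℝ) * ((M : ℝ) / ρ) ^ u) ≤ 1 / 32

/-- SPN (190 lines, uses `StmtFrn`, `StmtNmn`; adapt `Pool/Agent/Lib/MP_efc1da_co/Spread.lean`). The spread lemma with
`M + 2` colours: the colourings for which no `S i` is contained in `W_0 ∪ W_1` are at most one
in 32. Round 1: `J = {0}`, `(N - 1)^u = (M + 1)^u`; round 2: `J = {0, 1}`, `(N - 2)^u = M^u`, `N = M + 2`. -/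
def StmtSpn : Prop :=
  ∀ (α ι : Type) [Fintype α] [DecidableEq α] [DecidableEq ι] (I : Finset ι) (S : ι → Finset α)
    (ρ : ℝ) (l M : ℕ), 1 ≤ l → 1 ≤ M → 0 < ρ → 60000 * (l : ℝ) * ((M : ℝ) + 2) ^ 2 ≤ ρ ^ 2 →
    I.Nonempty → Spr ρ I S → (∀ i ∈ I, (S i).card ≤ l) →
    32 * (((Finset.univ : Finset (α → Fin (M + 2))).filter
      (fun c => ∀ i ∈ I, ¬ S i ⊆ Wn c 0 ∪ Wn c 1)).card : ℝ) ≤ ((M : ℝ) + 2) ^ Fintype.card α

/-- The weight `h(c)` of a colouring: the sum of `w^(-|K_j|)` over the `j` with `K_j` disjoint from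
`W_0 ∪ W_1`, `w = M/(M+2)`. -/
def hsum {α κ : Type} [Fintype α] [DecidableEq α] (M : ℕ) (J : Finset κ) (K : κ → Finset α)
    (c : α → Fin (M + 2)) : ℝ :=
  ∑ j ∈ J, if Disjoint (K j) (Wn c 0 ∪ Wn c 1) then (((M : ℝ) + 2) / M) ^ (K j).card else 0

/-- SQN (120 lines). First and second moment of `h`.
PROOF. The number of colourings with `K` disjoint from `W_0 ∪ W_1` (that is, `c x ∉ {0, 1}` for `x ∈ K`) is
`M^|K| (M+2)^(n-|K|)` (`Fintype.card_piFinset`, as in `Frag_pi`). So `∑_c h(c) = |J| (M+2)^n`. And `h(c)^2` is the double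
sum; `K_i` and `K_j` both disjoint iff `K_i ∪ K_j` is; with `q = (M+2)/M`, `|K_i| + |K_j| = |K_i ∪ K_j| + |K_i ∩ K_j|`:
`∑_c h(c)^2 = (M+2)^n ∑_(i,j) q^|K_i ∩ K_j|`. Now `q = 1 + 2/M`,
`q^|X| = ∑_(Z ⊆ X) (2/M)^|Z|` (`Finset.sum_pow_mul_eq_add_pow` or `Finset.prod_one_add`), so for fixed `i`:
`∑_j q^|K_i ∩ K_j| = ∑_(Z ⊆ K_i) (2/M)^|Z| #{j : Z ⊆ K_j} ≤ |J| ∑_(Z ⊆ K_i) (2/(M ρ'))^|Z| = |J| (1 + 2/(M ρ'))^|K_i|
≤ |J| exp(2 l₁/(M ρ')) ≤ |J| exp 1` (for `Z = ∅` the inequality `Spr` is trivial). -/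
def StmtSqn : Prop :=
  ∀ (α κ : Type) [Fintype α] [DecidableEq α] [DecidableEq κ] (J : Finset κ) (K : κ → Finset α)
    (ρ' : ℝ) (l₁ M : ℕ), 1 ≤ M → 0 < ρ' → 2 * (l₁ : ℝ) ≤ M * ρ' → Spr ρ' J K →
    (∀ j ∈ J, (K j).card ≤ l₁) →
    (∑ c : α → Fin (M + 2), hsum M J K c = J.card * ((M : ℝ) + 2) ^ Fintype.card α) ∧
    (∑ c : α → Fin (M + 2), hsum M J K c ^ 2 ≤
      Real.exp 1 * (J.card : ℝ) ^ 2 * ((M : ℝ) + 2) ^ Fintype.card α)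

/-- CRX (80 lines, uses `StmtSpn`, `StmtSqn`). The quantitative cross lemma.
PROOF. Suppose every `i ∈ I` has fewer than `β = (1/2) (M/(M+2))^l₁ |J|` indices `j` with `K_j` disjoint from `S_i`. Let `F` be the
set of the failing colourings (`StmtSpn`). If `c ∉ F`, some `S_i ⊆ W_0 ∪ W_1`, so `h(c) ≤ ((M+2)/M)^l₁ β ≤ |J|/2`. For `c ∈ F`:
`h(c) ≤ (h(c)²/8 + 8 |J|²)/(2 |J|)`, that is `2 |J| h ≤ h²/8 + 8 |J|²`. So with `T = (M+2)^n`: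
`|J| T = ∑ h ≤ T |J|/2 + (1/(2|J|)) (e |J|² T/8 + 8 |J|² T/32) = T |J| (1/2 + e/16 + 1/8) < T |J|` (`e < 2.72`). -/
def StmtCrx : Prop :=
  ∀ (α ι κ : Type) [Fintype α] [DecidableEq α] [DecidableEq ι] [DecidableEq κ] (I : Finset ι)
    (S : ι → Finset α) (J : Finset κ) (K : κ → Finset α) (ρ ρ' : ℝ) (l l₁ M : ℕ), 1 ≤ l → 1 ≤ M →
    0 < ρ → 60000 * (l : ℝ) * ((M : ℝ) + 2) ^ 2 ≤ ρ ^ 2 → 0 < ρ' → 2 * (l₁ : ℝ) ≤ M * ρ' →
    I.Nonempty → Spr ρ I S → (∀ i ∈ I, (S i).card ≤ l) →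
    J.Nonempty → Spr ρ' J K → (∀ j ∈ J, (K j).card ≤ l₁) →
    ∃ i ∈ I, (1 / 2 : ℝ) * ((M : ℝ) / (M + 2)) ^ l₁ * J.card ≤
      (J.filter fun j => Disjoint (K j) (S i)).card

/-! ## Part D: decomposition -/

/-- MXA (40 lines). A maximiser of `r^|S| |H(S)|`.
PROOF. `Finset.exists_max_image` over `Finset.univ`; compare with `∅`; spread: compare `S` with `S ∪ Z`,
`up (up H S) Z = up H (S ∪ Z)`, `|S ∪ Z| = |S| + |Z|`. -/
def StmtMxa : Prop :=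
  ∀ (α : Type) [Fintype α] [DecidableEq α] (r : ℝ) (H : Finset (Finset α)), 0 < r → H.Nonempty →
    ∃ S : Finset α, (up H S).Nonempty ∧ (H.card : ℝ) ≤ r ^ S.card * (up H S).card ∧
      SprOver r (up H S) S

/-- DCA (150 lines, adapt `Pool/Agent/Lib/MP_efc1da_co/Dec.lean`; the difference is the last line: a lower bound
for the piece itself). Decomposition in spread pieces. PROOF. Take `S` maximising `r^|S| |G(S)|` for the part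
`G ⊆ H` which is not yet decomposed, as long as `4 |G| > |H|`; the piece is `G(S)`, and
`|H| < 4 |G| ≤ 4 r^|S| |G(S)|`. Later kernels are different from `S`. -/
def StmtDca : Prop :=
  ∀ (α : Type) [Fintype α] [DecidableEq α] (r : ℝ) (H : Finset (Finset α)), 0 < r →
    ∃ (D : Finset (Finset α)) (κ : Finset α → Finset α),
      D ⊆ H ∧ 3 * H.card ≤ 4 * D.card ∧ (∀ A ∈ D, κ A ⊆ A) ∧
      (∀ A ∈ D, SprOver r (D.filter fun B => κ B = κ A) (κ A)) ∧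
      (∀ A ∈ D, (H.card : ℝ) ≤ 4 * (r ^ (κ A).card * (D.filter fun B => κ B = κ A).card))

/-- SZA (60 lines). The size of a kernel. PROOF. If `s = |S| > e² C r`, then `s ≥ 1`, `C r/s < exp(-2)`, and
`r^s |F(S)| ≤ (C r/s)^s f ≤ exp(-2 s) f`. Second part: `s ≤ e² C r` is the negation of `hs`; for natural numbers
use `Nat.le_floor`. -/
def StmtSza : Prop :=
  ∀ (α : Type) [Fintype α] [DecidableEq α] (F : Finset (Finset α)) (C f r : ℝ) (S : Finset α),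
    1 ≤ C → 0 < f → 0 < r → Bd C f F → Real.exp 2 * C * r < S.card →
    r ^ S.card * (up F S).card ≤ Real.exp (-(2 * (S.card : ℝ))) * f

/-- HTA (50 lines). Few members of a spread family meet a small set. PROOF. The members of `P` meeting `T` are in
the union of the `up P {v}`, `v ∈ T` (`{v}` is disjoint from `S`); `|up P {v}| ≤ |P|/R`. -/
def StmtHta : Prop :=
  ∀ (α : Type) [Fintype α] [DecidableEq α] (P : Finset (Finset α)) (S T : Finset α) (R : ℝ),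
    0 < R → SprOver R P S → Disjoint T S → 2 * (T.card : ℝ) ≤ R →
    (P.card : ℝ) ≤ 2 * (P.filter fun A => Disjoint A T).card

/-! ## Part I: the induction -/

/-- NM7 (150 lines). The constants. `R* = R^(5/4)`, `θ* = (R*)^(5/4)`, `r = R/(2 C e²)`, `l₀ = ⌊e² C R*⌋`,
`R** = 2 e² C R*`, `l₁ = ⌊e² C R**⌋`, `m = ⌊R/2⌋`; choose `M = ⌈4 l₁/r⌉` (note `M r/2 ≥ 2 l₁`).
PROOF. Everything holds for `R` large. (a), (b), (c) clear. (d): taking logarithms,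
`log 8 + l₀ log R* + R* ≤ (R*)^(5/4)`, since `l₀ ≤ e² C R*` and `e² C log R* + 3 ≤ (R*)^(1/4)` for `R*` large. (e)
`log 4 + m log r + R ≤ 2 R**`: `m log r ≤ R log R`, `R** ≥ R^(5/4)`. (f) `2 l₀ ≤ R**`. (g) `M ≤ 4 l₁/r + 1 ≤ c R^(1/4) + 1`, so
`60000 l₀ (M+2)² ≤ c' R^(5/4 + 1/2) ≤ R²/16`. (h) by the choice of `M` (`l₁ ≥ 1`). (i)
`((M+2)/M)^l₁ = (1 + 2/M)^l₁ ≤ exp(2 l₁/M) ≤ exp(r/2) ≤ exp R`, so it is enough that
`log(16/3) + m log r + 2 R ≤ R*`. -/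
def StmtNm7 : Prop := ∀ C : ℝ, 1 ≤ C → ∃ R₀ : ℝ, 1 ≤ R₀ ∧ ∀ R : ℝ, R₀ ≤ R →
  ∃ (Rs θs r Rss : ℝ) (l₀ l₁ m M : ℕ), Rs = R ^ (5 / 4 : ℝ) ∧ θs = Rs ^ (5 / 4 : ℝ) ∧
    r = R / (2 * C * Real.exp 2) ∧ Rss = 2 * (Real.exp 2 * C * Rs) ∧
    l₀ = ⌊Real.exp 2 * C * Rs⌋₊ ∧ l₁ = ⌊Real.exp 2 * C * Rss⌋₊ ∧ m = ⌊R / 2⌋₊ ∧
    1 ≤ r ∧ 1 ≤ Rs ∧ 2 * R ≤ Rs ∧ 1 ≤ l₀ ∧ 1 ≤ l₁ ∧ 1 ≤ M ∧
    8 < Real.exp Rs ∧
    8 * Rs ^ l₀ * Real.exp (-θs) ≤ Real.exp (-Rs) ∧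
    4 * Real.exp (-(2 * Rss)) * r ^ m ≤ Real.exp (-R) ∧
    2 * (l₀ : ℝ) ≤ Rss ∧
    60000 * (l₀ : ℝ) * ((M : ℝ) + 2) ^ 2 ≤ (R / 4) ^ 2 ∧
    2 * (l₁ : ℝ) ≤ M * (r / 2) ∧
    (16 / 3) * Real.exp (-Rs) * r ^ m < ((M : ℝ) / (M + 2)) ^ l₁ * Real.exp (-R)

/-- PR1 (100 lines, uses `StmtMxa`, `StmtSza`, `StmtHta`). First part of the induction step: the families `Q` and `P₁`.
PROOF. `H = av F S`. `S₁`, `P₁ = up H S₁` from `StmtMxa` for `H` with `r`. Members of `P₁` are disjoint from `S` and contain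
`S₁`, so `S₁` is disjoint from `S`. If `|S₁| > R/2 = e² C r`: `StmtSza` gives
`|H| ≤ r^|S₁| |up F S₁| ≤ exp(-2|S₁|) f ≤ exp(-R) f`, a contradiction. So `|S₁| ≤ m` and `|H| ≤ r^m |P₁|` (`r ≥ 1`).
`Q = P.filter (Disjoint · S₁)`: `StmtHta` (`2 |S₁| ≤ R`). -/
def StmtPr1 : Prop :=
  ∀ (α : Type) [Fintype α] [DecidableEq α] (F : Finset (Finset α)) (C f R r : ℝ) (m : ℕ)
    (S : Finset α) (P : Finset (Finset α)), 1 ≤ C → 0 < f → Bd C f F →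
    r = R / (2 * C * Real.exp 2) → m = ⌊R / 2⌋₊ → 1 ≤ r → 0 < R →
    P.Nonempty → P ⊆ F → (∀ A ∈ P, S ⊆ A) → SprOver R P S →
    Real.exp (-R) * f < ((av F S).card : ℝ) →
    ∃ (S₁ : Finset α) (P₁ : Finset (Finset α)), Disjoint S₁ S ∧ P₁ ⊆ F ∧ P₁.Nonempty ∧
      (∀ A ∈ P₁, S₁ ⊆ A ∧ Disjoint A S) ∧ SprOver r P₁ S₁ ∧
      Real.exp (-R) * f < r ^ m * (P₁.card : ℝ) ∧
      (P.card : ℝ) ≤ 2 * (P.filter fun A => Disjoint A S₁).card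

/-- PR2 (100 lines, uses `StmtDca`, `StmtSza`). Second part: the kernels of a subfamily `Q` of `F` with
`exp(-Rs) f ≤ 2 |Q|`. PROOF. `StmtDca` for `Q` with `Rs`. For `A ∈ D`, `K = κ A`, `E` = the piece:
`exp(-Rs) f ≤ 2 |Q| ≤ 8 Rs^|K| |E| ≤ 8 Rs^|K| |up F K|`. If `|K| > e² C Rs`, `StmtSza` gives
`exp(-Rs) f ≤ 8 exp(-2|K|) f ≤ 8 exp(-2 Rs) f` (`|K| > e² C Rs ≥ Rs`), against `8 < exp Rs`. So `|K| ≤ l₀`,
`|E| ≥ exp(-Rs) f/(8 Rs^l₀) ≥ exp(-θs) f`, and `Qs f F Rs θs` for `K`, `E`. -/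
def StmtPr2 : Prop :=
  ∀ (α : Type) [Fintype α] [DecidableEq α] (F : Finset (Finset α)) (C f Rs θs : ℝ) (l₀ : ℕ)
    (Q : Finset (Finset α)), 1 ≤ C → 0 < f → Bd C f F → 1 ≤ Rs → 8 < Real.exp Rs →
    l₀ = ⌊Real.exp 2 * C * Rs⌋₊ → 8 * Rs ^ l₀ * Real.exp (-θs) ≤ Real.exp (-Rs) →
    Qs f F Rs θs → Q ⊆ F → Q.Nonempty → Real.exp (-Rs) * f ≤ 2 * (Q.card : ℝ) →
    ∃ (D : Finset (Finset α)) (κ : Finset α → Finset α), D ⊆ Q ∧ D.Nonempty ∧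
      3 * Q.card ≤ 4 * D.card ∧ (∀ A ∈ D, κ A ⊆ A) ∧ (∀ A ∈ D, (κ A).card ≤ l₀) ∧
      ∀ A ∈ D, ((av F (κ A)).card : ℝ) ≤ Real.exp (-Rs) * f

/-- PR3 (120 lines, uses `StmtDca`, `StmtSza`, `StmtHta`). Third part: the kernels of `P₁`.
PROOF. `StmtDca` for `P₁` with `Rss`. If `|K'| > e² C Rss` for a kernel `K'`: `|P₁| ≤ 4 Rss^|K'| |up F K'| ≤ 4 exp(-2|K'|) f
≤ 4 exp(-2 Rss) f` (`|K'| ≥ Rss`), so `exp(-R) f < r^m |P₁| ≤ 4 exp(-2 Rss) r^m f`, a contradiction. Last line: let `K` have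
`|K| ≤ l₀`. For every kernel `K'` disjoint from `K` at least half of the members of the piece of `K'` are
disjoint from `K` (`StmtHta`, `2 |K| ≤ Rss`), and they are in `av F K`; sum over the kernels `K'` disjoint
from `K` (`Finset.card_eq_sum_card_image` or `Finset.card_eq_sum_card_fiberwise`). -/
def StmtPr3 : Prop :=
  ∀ (α : Type) [Fintype α] [DecidableEq α] (F : Finset (Finset α)) (C f R Rss r : ℝ)
    (l₀ l₁ m : ℕ) (P₁ : Finset (Finset α)), 1 ≤ C → 0 < f → Bd C f F → 1 ≤ Rss → 1 ≤ r →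
    l₁ = ⌊Real.exp 2 * C * Rss⌋₊ → 4 * Real.exp (-(2 * Rss)) * r ^ m ≤ Real.exp (-R) →
    2 * (l₀ : ℝ) ≤ Rss → P₁ ⊆ F → P₁.Nonempty → Real.exp (-R) * f < r ^ m * (P₁.card : ℝ) →
    ∃ (D : Finset (Finset α)) (κ : Finset α → Finset α), D ⊆ P₁ ∧ D.Nonempty ∧
      3 * P₁.card ≤ 4 * D.card ∧ (∀ A ∈ D, κ A ⊆ A) ∧ (∀ A ∈ D, (κ A).card ≤ l₁) ∧
      ∀ K : Finset α, K.card ≤ l₀ →
        ((D.filter fun A => Disjoint (κ A) K).card : ℝ) ≤ 2 * (av F K).card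

/-- STP (150 lines, uses `StmtCrx`, `StmtPr1`, `StmtPr2`, `StmtPr3`). The induction step.
PROOF. Let `S`, `P` be as in `Qs f F R Rs` and suppose `exp(-R) f < |av F S|`. `S₁`, `P₁` from `StmtPr1`; `Q = P.filter (Disjoint · S₁)`:
`exp(-Rs) f ≤ |P| ≤ 2 |Q|`. `D₀`, `κ₀` from `StmtPr2`; `D₁`, `κ₁` from `StmtPr3` (`Rss ≥ 1` as `Rss ≥ 2 l₀ ≥ 2`). `StmtCrx` with
`I = D₀`, `S_A = κ₀ A \ S`, `ρ = R/4`, `l = l₀`; `J = D₁`, `K_A = κ₁ A \ S₁`, `ρ' = r/2`. Spread: let `T` be nonempty. If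
`T ∩ S ≠ ∅` no `S_A` contains `T`. Otherwise `#{A ∈ D₀ : T ⊆ κ₀ A \ S} ≤ |up P T| ≤ |P| R^(-|T|) ≤ (8/3) |D₀| R^(-|T|)`, and
`(8/3) (1/4)^|T| ≤ 1`. In the same way `#{A ∈ D₁ : T ⊆ κ₁ A \ S₁} ≤ |P₁| r^(-|T|) ≤ (4/3) |D₁| r^(-|T|)`,
`(4/3) (1/2)^|T| ≤ 1`. So there is `A ∈ D₀` with `(1/2) w^l₁ |D₁| ≤ #{B ∈ D₁ : κ₁ B \ S₁, κ₀ A \ S disjoint}`. For such `B`, `κ₁ B`
and `κ₀ A` are disjoint (`κ₁ B ⊆ B` is disjoint from `S`, `κ₀ A ⊆ A` is disjoint from `S₁`). So by `StmtPr3` and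
`StmtPr2` it is `≤ 2 |av F (κ₀ A)| ≤ 2 exp(-Rs) f`. And `|D₁| ≥ (3/4) |P₁| > (3/4) exp(-R) f/r^m`: a contradiction
with the last hypothesis. -/
def StmtStp : Prop :=
  ∀ (α : Type) [Fintype α] [DecidableEq α] (F : Finset (Finset α))
    (C f R Rs θs r Rss : ℝ) (l₀ l₁ m M : ℕ), 1 ≤ C → 0 < f → Bd C f F → 1 ≤ R →
    r = R / (2 * C * Real.exp 2) →
    l₀ = ⌊Real.exp 2 * C * Rs⌋₊ → l₁ = ⌊Real.exp 2 * C * Rss⌋₊ → m = ⌊R / 2⌋₊ →
    1 ≤ r → 1 ≤ Rs → 1 ≤ l₀ → 1 ≤ l₁ → 1 ≤ M → 8 < Real.exp Rs →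
    8 * Rs ^ l₀ * Real.exp (-θs) ≤ Real.exp (-Rs) →
    4 * Real.exp (-(2 * Rss)) * r ^ m ≤ Real.exp (-R) →
    2 * (l₀ : ℝ) ≤ Rss →
    60000 * (l₀ : ℝ) * ((M : ℝ) + 2) ^ 2 ≤ (R / 4) ^ 2 →
    2 * (l₁ : ℝ) ≤ M * (r / 2) →
    (16 / 3) * Real.exp (-Rs) * r ^ m < ((M : ℝ) / (M + 2)) ^ l₁ * Real.exp (-R) →
    Qs f F Rs θs → Qs f F R Rs

/-- IND (80 lines, uses `StmtNm7`, `StmtStp`). The induction.
PROOF. Base: if `R > |A|` for all `A ∈ F` (for instance `R > card α`), then `av F S = ∅` for `S`, `P` as in `Qs`: let `A' ∈ av F S`;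
the members of `P` meeting `A'` are in the union of the `up P {v}`, `v ∈ A'` (`{v}` is disjoint from `S`), so there
are at most `|A'| |P|/R < |P|` of them; a member of `P` not meeting `A'` contradicts `Efc.Inter F`. Step: by
induction on `j`: for all `R ≥ R₀` with `R 2^j > card α`: `Qs f F R (R^(5/4))`; `R^(5/4) ≥ 2 R` (in `StmtNm7`) and
`StmtStp` with `θs = Rs^(5/4)`. -/
def StmtInd : Prop := ∀ C : ℝ, 1 ≤ C → ∃ R₀ : ℝ, 1 ≤ R₀ ∧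
  ∀ (α : Type) [Fintype α] [DecidableEq α] (F : Finset (Finset α)) (f : ℝ), Efc.Inter F → 0 < f →
    Bd C f F → ∀ R : ℝ, R₀ ≤ R → Qs f F R (R ^ (5 / 4 : ℝ))

/-- PPV (120 lines, uses `StmtMxa`, `StmtSza`, `StmtInd`). A popular vertex.
PROOF. Let `R₁ ≥ R₀`, `R₁ ≥ 2`, be such that `e² C R log R + R ≤ R^(5/4)` for `R ≥ R₁`, and `R = R₁ + log(2/ε)`. `S` from `StmtMxa` for `F'`
with `R`: `ε f ≤ |F'| ≤ R^|S| |up F' S| ≤ R^|S| |up F S|`. If `|S| > e² C R`, `StmtSza` gives `ε ≤ exp(-2|S|) ≤ exp(-2R) < ε`: a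
contradiction. `P = up F' S`: `|P| ≥ R^(-|S|) ε f ≥ exp(-e² C R log R) exp(-R) f ≥ exp(-R^(5/4)) f` (`ε ≥ exp(-R)`). `StmtInd`:
`|av F' S| ≤ |av F S| ≤ exp(-R) f ≤ (ε/2) f ≤ |F'|/2`. So at least half of `F'` meets `S` (so `S ≠ ∅`), and some `v ∈ S` is in at
least `|F'|/(2|S|) ≥ |F'|/(2 e² C R)` members; `R ≤ (R₁ + 1) (1 + log(1/ε))`. -/
def StmtPpv : Prop := ∀ C : ℝ, 1 ≤ C → ∃ A₀ : ℝ, 1 ≤ A₀ ∧
  ∀ (α : Type) [Fintype α] [DecidableEq α] (F : Finset (Finset α)) (f : ℝ), Efc.Inter F → 0 < f →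
    Bd C f F → ∀ F' : Finset (Finset α), F' ⊆ F → F'.Nonempty → ∀ ε : ℝ, 0 < ε → ε ≤ 1 →
    ε * f ≤ F'.card →
    ∃ v : α, (F'.card : ℝ) ≤ A₀ * (1 + Real.log (1 / ε)) * (up F' {v}).card

/-- GRD (120 lines, uses `StmtPpv`). Greedy deletion. PROOF. `A₀` from `StmtPpv`. Claim: for all `a` there is `B`, `|B| ≤ a`,
with `F_a = av F B` empty or `|F_a| = exp(-L) f` with `(1 + L)² ≥ 1 + 2a/A₀`, `L ≥ 0`. Step: `v` from `StmtPpv` for `F_a`,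
`ε = exp(-L)`: `|F_(a+1)| ≤ |F_a| (1 - 1/(A₀ (1+L))) ≤ |F_a| exp(-1/(A₀(1+L)))` (`av F (insert v B) = F_a \ up F_a {v}`), so
`L' ≥ L + 1/(A₀(1+L))` and `(1+L')² ≥ (1+L)² + 2/A₀`. Then `L ≥ √(1 + 2a/A₀) - 1 ≥ c √a` with
`c = √(1 + 2/A₀) - 1` (for `a ≥ 1`; `(c √a + 1)² = c² a + 2 c √a + 1 ≤ (c² + 2c) a + 1 = 1 + 2a/A₀`). -/
def StmtGrd : Prop := ∀ C : ℝ, 1 ≤ C → ∃ c : ℝ, 0 < c ∧
  ∀ (α : Type) [Fintype α] [DecidableEq α] (F : Finset (Finset α)) (f : ℝ), Efc.Inter F → 0 < f →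
    Bd C f F → (F.card : ℝ) ≤ f → ∀ a : ℕ, ∃ B : Finset α, B.card ≤ a ∧
      ((av F B).card : ℝ) ≤ Real.exp (-(c * Real.sqrt a)) * f

/-! ## Part U: the up-step -/

/-- UPU (120 lines). The members of the new family have `k + u` points. PROOF. `|cop i| = u + 1`,
`|blk s l| = k + u + 1 - s - l`, `|old A| = |A|`. The points `y l` are different (different blocks), the points
`r i` too; old points, copies and blocks are disjoint, except that `cop i ∩ old A = {inl i}` if `i ∈ A`, and in the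
second kind `r i = inl i` is possible, `i ∉ A \ S.erase x`. Kinds: `k + u`; `(k - (s-1)) + (s-1) + u`; `k + u`;
`(k + u + 1 - s - l) + (s - 1) + l`. -/
def StmtUpu : Prop :=
  ∀ (α : Type) [Fintype α] [DecidableEq α] (k u : ℕ) (F : Finset (Finset α)) (S : Finset α)
    (x : α), Unif k F → x ∈ S → S.card ≤ k → Unif (k + u) (fam k u F S x)

/-- UPI (120 lines). The new family is intersecting. PROOF. Members of the kinds 1, 3 contain `old A`: `Efc.Inter F`. 2-2: `inl x`.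
2-1: `inl x` if `x ∈ A`; if `A` is disjoint from `S`, a common point of `A` and `A'` is not in `S`. 2-3: `r i ∈ cop i`. 4-1, 4-2:
`y' l ∈ blk l`. 4-3: `z i ∈ cop i`. 4-4: `l' < l`: `y l' ∈ blk l'`; `l = l'`: `blk l` is nonempty
(`k + u + 1 - s - l ≥ 2`). -/
def StmtUpi : Prop :=
  ∀ (α : Type) [Fintype α] [DecidableEq α] (k u : ℕ) (F : Finset (Finset α)) (S : Finset α)
    (x : α), Efc.Inter F → x ∈ S → S.card ≤ k → Efc.Inter (fam k u F S x)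

/-- UPC (200 lines). The covering number of the new family is `k + u`.
PROOF. Suppose `D` meets all members and `|D| < k + u`. Let `S' = S.erase x`, `s = |S|`, and
`D* = {v : if v ∈ S' then (cop v ∩ D) nonempty else inl v ∈ D}`. Counting: the sets `cop v ∩ D` (`v ∈ S'`), `{inl v} ∩ D` (`v ∉ S'`),
`blk s l ∩ D` are pairwise disjoint subsets of `D`, so `|D| ≥ |D*| + ∑_l |blk s l ∩ D|`, and
`|D| ≥ |D*| + u + ∑_l |blk s l ∩ D|` if `cop i ⊆ D` for some `i ∈ S'`.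
CASE I: no block `blk s l` is contained in `D`. Choose `y l ∈ blk s l \ D`. For `A ∈ F` with `x ∈ A` or `A` disjoint from `S`: `D` meets
`old A ∪ image y`, so `old A`, so `D*` meets `A` (`inl v ∈ cop v`). For the other `A ∈ F` there is `i ∈ A ∩ S'`, and `D` meets
`old A ∪ cop i`, so `D*` meets `A`. So `D*` meets all members of `F`, `|D*| ≥ k` (`Cov k F`). If `cop i ⊆ D` for some `i ∈ S'`: `|D| ≥ k + u`.
Otherwise choose `z i ∈ cop i \ D`: for every `l` the member `blk s l ∪ image z ∪ {y j : j < l}` is met by `D`, so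
`blk s l ∩ D ≠ ∅`: `|D| ≥ k + u`.
CASE II: `blk s l ⊆ D`, `l` minimal. As before `D*` meets all `A ∈ F` with `x ∉ A`, `A` not disjoint from `S`. Let `A₁ ∈ up F S`. Then
`insert x (D*.erase x) ∪ (A₁ \ S)` meets all members of `F`, so it has at least `k` points and
`|D*.erase x| ≥ k - 1 - (k - s) = s - 1`. If `cop i ⊆ D` for some `i ∈ S'`: `|D| ≥ (k+u+1-s-l) + (s-1) + u ≥ k + u` (`l < u`).
Otherwise for `l' < l` as in case I `blk s l' ∩ D ≠ ∅` (`y j` exists for `j < l'` by minimality; for the other `j` take any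
point of the block, which is nonempty): `|D| ≥ (k+u+1-s-l) + l + (s-1) = k + u`. -/
def StmtUpc : Prop :=
  ∀ (α : Type) [Fintype α] [DecidableEq α] (k u : ℕ) (F : Finset (Finset α)) (S : Finset α)
    (x : α), Unif k F → Efc.Inter F → Cov k F → x ∈ S → (up F S).Nonempty →
    Cov (k + u) (fam k u F S x)

/-- UPN (120 lines). The number of members. PROOF. The members of the second kind: the map
`(A, r, y) ↦ old (A \ S') ∪ image r ∪ image y` on `up F S × ∏_(i ∈ S') cop i × ∏_l blk s l` (`Finset.pi` or `Fintype.piFinset` with the value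
`{inl i}` for `i ∉ S'`) is injective: `B ∩ cop i = {r i}`, `B ∩ blk l = {y l}`, and
`A = S' ∪ {v ∉ S' : inl v ∈ B}`. `∏_l (k + u + 1 - s - l) = (k + u + 1 - s).descFactorial u`
(`Nat.descFactorial_eq_prod_range`). -/
def StmtUpn : Prop :=
  ∀ (α : Type) [Fintype α] [DecidableEq α] (k u : ℕ) (F : Finset (Finset α)) (S : Finset α)
    (x : α), x ∈ S → S.card ≤ k →
    (up F S).card * (u + 1) ^ (S.card - 1) * (k + u + 1 - S.card).descFactorial u ≤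
      (fam k u F S x).card

/-- UPF (60 lines, uses `StmtUpu`, `StmtUpi`, `StmtUpc`, `StmtUpn`). The up-step for families on `Fin n`. PROOF. Transfer
to `Fin n'` as at the end of `Pool/Agent/Lib/MP_efc1da_co/Low.lean`. `S ⊆ A ∈ F` gives `|S| ≤ k`. -/
def StmtUpf : Prop :=
  ∀ (α : Type) [Fintype α] [DecidableEq α] (k u : ℕ) (F : Finset (Finset α)) (S : Finset α),
    Unif k F → Efc.Inter F → Cov k F → S.Nonempty → (up F S).Nonempty →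
    ∃ (n : ℕ) (F' : Finset (Finset (Fin n))), Unif (k + u) F' ∧ Efc.Inter F' ∧ Cov (k + u) F' ∧
      (up F S).card * (u + 1) ^ (S.card - 1) * (k + u + 1 - S.card).descFactorial u ≤ F'.card

/-- LWS (100 lines, adapt the induction step of `Pool/Agent/Lib/MP_efc1da_co/Low.lean`). -/
def StmtLws : Prop :=
  ∀ (α : Type) [Fintype α] [DecidableEq α] (k : ℕ) (F : Finset (Finset α)), Unif k F → Efc.Inter F →
    Cov k F → ∃ (n : ℕ) (F' : Finset (Finset (Fin n))), Unif (k + 1) F' ∧ Efc.Inter F' ∧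
      Cov (k + 1) F' ∧ (k + 1) * F.card ≤ F'.card

/-! ## Part G: growth and conclusion -/

/-- GRW (120 lines). Most indices are good. PROOF. `b k = a k - lam k`, `b k ≤ -(lam - 1) k → -∞`. `Mx k = sup {b l : l ≥ k}` (`sSup` of the
image of `Set.Ici k`, bounded above by `b' = 0`-type bounds: `b l ≤ 0`). If `k` is bad (`b (k+u) > b k` for some `u`), then
`Mx k = Mx (k+1)`; if it is good, `Mx k = b k ≤ b (k+1) + lam ≤ Mx (k+1) + lam`. So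
`Mx 1 - Mx (n+1) ≤ lam · #good`. `Mx 1 ≥ b 1 ≥ -lam`, `Mx (n+1) ≤ -(lam-1)(n+1)`. So
`lam · #good ≥ (lam-1)(n+1) - lam`, that is `lam · #bad ≤ lam n - (lam-1)(n+1) + lam = n + 1`. -/
def StmtGrw : Prop :=
  ∀ (a : ℕ → ℝ) (lam : ℝ), 1 < lam → 0 ≤ a 1 → (∀ k, 1 ≤ k → a k ≤ a (k + 1)) →
    (∀ k, 1 ≤ k → a k ≤ k) → ∀ n : ℕ, ∀ s : Finset ℕ,
    (∀ k ∈ s, 1 ≤ k ∧ k ≤ n ∧ ∃ u : ℕ, a k + lam * u < a (k + u)) → lam * (s.card : ℝ) ≤ n + 1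

/-- GDB (150 lines, uses `StmtUpf`, `Pool.Agent.Efc.ELStmt`). The degree bound for good `k`.
PROOF. Let `S` be nonempty, `s = |S|`. If `up F S` is empty: clear. Otherwise `s ≤ k`. (1) `2 s ≤ k`: `StmtUpf` with `u = s - 1`:
`|up F S| s^(s-1) k.descFactorial (s-1) ≤ f (k+s-1) ≤ K^(s-1) f k (k+s-1)!/k!`. And
`(k+s-1)!/k! ≤ 3^(s-1) k.descFactorial (s-1)` (factors `k + j ≤ 3 (k - j + 1)` for `1 ≤ j ≤ s - 1`). So
`|up F S| ≤ (3K/s)^(s-1) f k ≤ (6K/s)^s f k` since `s ≤ 2^s ≤ 3 K 2^s`. (2) `2 s > k`: `|up F S| ≤ k^(k-s)` (`ELStmt`),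
`f k ≥ k! ≥ (k/3)^k` (hypothesis `hfac`), so `|up F S| ≤ 3^k k^(-s) f k ≤ 9^s s^(-s) f k`, as `3^k ≤ 9^s` and `s ≤ k`. -/
def StmtGdb : Prop :=
  ∀ (f : ℕ → ℕ) (k : ℕ) (K : ℝ), 1 ≤ k → 1 ≤ K →
    (∀ (k' n : ℕ) (F : Finset (Finset (Fin n))), Unif k' F → Efc.Inter F → Cov k' F →
      F.card ≤ f k') →
    k.factorial ≤ f k →
    (∀ u : ℕ, (f (k + u) : ℝ) * k.factorial ≤ K ^ u * f k * (k + u).factorial) →
    ∀ (n : ℕ) (F : Finset (Finset (Fin n))), Unif k F → Efc.Inter F → Cov k F →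
      Bd (6 * K + 9) (f k) F

/-- FIN (150 lines, uses `StmtGrd`, `StmtGrw`, `StmtGdb`, `StmtLws`, `Pool.Agent.Efc.ELStmt`,
`Pool.Agent.Efc.LowStmt`). The final statement.
PROOF. Compare `Pool/Agent/Lib/MP_efc1da_co/Main.lean` (copy its private lemmas). `f k = m k 0`; `f k` is attained and is an upper bound for
`|F|`, `k! ≤ f k ≤ k^k`. May assume `δ ≤ 1`; `lam = 2/δ`, `K = exp lam`, `C = 6 K + 9`, `c` from `StmtGrd`. `a k = log (f k/k!)`: `a 1 ≥ 0` (`f 1 ≥ 1`),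
`a k ≤ a (k+1)` (`StmtLws`), `a k ≤ log (k^k/k!) ≤ k` (`Real.pow_div_factorial_le_exp`). If `k ≥ 1` is not bad in the sense of
`StmtGrw`, `f (k+u) k! ≤ K^u f k (k+u)!`, so `StmtGdb` gives `Bd`, and `StmtGrd` gives `m k a ≤ exp(-c √a) m k 0` for all `a`
(the set `B` is enlarged to `a` points as in `Main.lean`). So the set in the statement is contained in the set of
the bad `k`, and has at most `(n+1)/lam ≤ 2n/lam = δ n` elements (`n ≥ 1`). -/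
def StmtFin : Prop :=
  ∀ m : ℕ → ℕ → ℕ,
    (∀ k a : ℕ, m k a = sSup {v : ℕ | ∃ n : ℕ, ∃ F : Finset (Finset (Fin n)),
      (∀ A ∈ F, A.card = k) ∧
      (∀ A ∈ F, ∀ A' ∈ F, ¬ Disjoint A A') ∧
      (∀ T : Finset (Fin n), T.card < k → ∃ A ∈ F, Disjoint A T) ∧
      (∃ B : Finset (Fin n), B.card = a ∧ (F.filter (fun A => Disjoint A B)).card = v) ∧
      (∀ B : Finset (Fin n), B.card = a → v ≤ (F.filter (fun A => Disjoint A B)).card)}) →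
    ∀ δ : ℝ, 0 < δ → ∃ c : ℝ, 0 < c ∧ ∀ n : ℕ, ∀ s : Finset ℕ,
      (∀ k ∈ s, 1 ≤ k ∧ k ≤ n ∧
        ∃ a : ℕ, Real.exp (-(c * Real.sqrt a)) * (m k 0 : ℝ) < (m k a : ℝ)) →
      (s.card : ℝ) ≤ δ * n

end

end Pool.Agent.EfcA
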