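import Mathlib
import Pool.Agent.Lib.MP_efc1da_coA.Spec

/-!
# Module Lws: the simple up-step, one more point
-/

set_option autoImplicit false

namespace Pool.Agent.EfcA.LwsM

open Pool.Agent.Efc

/-- Transfer of a family to `Fin n`. -/
theorem trans {β : Type} [Fintype β] (K : ℕ) (G : Finset (Finset β)) (hU : Unif K G)
    (hI : Efc.Inter G) (hC : Cov K G) :
    ∃ (n : ℕ) (F' : Finset (Finset (Fin n))), Unif K F' ∧ Efc.Inter F' ∧ Cov K F' ∧
      F'.card = G.card := by
  classical
  let e : β ≃ Fin (Fintype.card β) := Fintype.equivFin β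
  refine ⟨Fintype.card β, G.map (Finset.mapEmbedding e.toEmbedding).toEmbedding, ?_, ?_, ?_, ?_⟩
  · intro B hB
    obtain ⟨A, hA, rfl⟩ := Finset.mem_map.1 hB
    change (A.map e.toEmbedding).card = K
    rw [Finset.card_map]
    exact hU A hA
  · intro B hB B' hB' hd
    obtain ⟨A, hA, rfl⟩ := Finset.mem_map.1 hB
    obtain ⟨A', hA', rfl⟩ := Finset.mem_map.1 hB'
    apply hI A hA A' hA'
    exact (Finset.disjoint_map e.toEmbedding).1 hd
  · intro T hT
    have h1 : (T.map e.symm.toEmbedding).card < K := by rwa [Finset.card_map]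
    obtain ⟨A, hA, hAT⟩ := hC _ h1
    refine ⟨A.map e.toEmbedding, Finset.mem_map.2 ⟨A, hA, rfl⟩, ?_⟩
    rw [Finset.disjoint_left] at hAT ⊢
    intro y hy hyT
    obtain ⟨a, ha, rfl⟩ := Finset.mem_map.1 hy
    refine hAT ha (Finset.mem_map.2 ⟨_, hyT, ?_⟩)
    change e.symm (e a) = a
    exact e.symm_apply_apply a
  · rw [Finset.card_map]

/-- The step on a sum type. -/
theorem step {α : Type} [Fintype α] (k : ℕ) (F : Finset (Finset α)) (hU : Unif k F)
    (hI : Efc.Inter F) (hC : Cov k F) :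
    ∃ G : Finset (Finset (α ⊕ Fin (k + 1))), Unif (k + 1) G ∧ Efc.Inter G ∧ Cov (k + 1) G ∧
      (k + 1) * F.card ≤ G.card := by
  classical
  let β : Type := α ⊕ Fin (k + 1)
  let f : Finset α × Fin (k + 1) → Finset β := fun p =>
    (p.1.map Function.Embedding.inl) ∪ {Sum.inr p.2}
  let Y : Finset β := Finset.univ.map Function.Embedding.inr
  have hfmemL : ∀ p (a : α), (Sum.inl a : β) ∈ f p ↔ a ∈ p.1 := by
    intro p a
    simp [f, β]
  have hfmemR : ∀ p (y : Fin (k + 1)), (Sum.inr y : β) ∈ f p ↔ y = p.2 := by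
    intro p y
    simp [f, β]
  have hYL : ∀ a : α, (Sum.inl a : β) ∉ Y := by
    intro a
    simp [Y, β]
  have hYR : ∀ y : Fin (k + 1), (Sum.inr y : β) ∈ Y := by
    intro y
    simp [Y, β]
  have hYc : Y.card = k + 1 := by
    rw [Finset.card_map, Finset.card_univ, Fintype.card_fin]
  have hfinj : Function.Injective f := by
    rintro ⟨A, y⟩ ⟨A', y'⟩ h
    have h1 : A = A' := by
      ext a
      rw [← hfmemL (A, y) a, ← hfmemL (A', y') a, h]
    have h2 : y = y' := by
      rw [← hfmemR (A', y') y, ← h, hfmemR (A, y) y]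
    rw [h1, h2]
  have hfc : ∀ p, (f p).card = p.1.card + 1 := by
    intro p
    have h1 : Disjoint (p.1.map Function.Embedding.inl : Finset β)
        ({Sum.inr p.2} : Finset β) := by
      rw [Finset.disjoint_singleton_right, Finset.mem_map]
      rintro ⟨a, -, ha⟩
      exact Sum.inl_ne_inr ha
    change ((p.1.map Function.Embedding.inl : Finset β) ∪ {Sum.inr p.2}).card = _
    rw [Finset.card_union_of_disjoint h1, Finset.card_map, Finset.card_singleton]
  let G : Finset (Finset β) := (F ×ˢ (Finset.univ : Finset (Fin (k + 1)))).image f ∪ {Y}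
  have hG : ∀ B, B ∈ G ↔ (∃ A ∈ F, ∃ y, f (A, y) = B) ∨ B = Y := by
    intro B
    change B ∈ (F ×ˢ (Finset.univ : Finset (Fin (k + 1)))).image f ∪ {Y} ↔ _
    rw [Finset.mem_union, Finset.mem_singleton, Finset.mem_image]
    constructor
    · rintro (⟨⟨A, y⟩, h, rfl⟩ | h)
      · exact Or.inl ⟨A, (Finset.mem_product.1 h).1, y, rfl⟩
      · exact Or.inr h
    · rintro (⟨A, hA, y, rfl⟩ | h)
      · exact Or.inl ⟨(A, y), Finset.mem_product.2 ⟨hA, Finset.mem_univ _⟩, rfl⟩
      · exact Or.inr h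
  refine ⟨G, ?_, ?_, ?_, ?_⟩
  · intro B hB
    rcases (hG B).1 hB with ⟨A, hA, y, rfl⟩ | rfl
    · rw [hfc, hU A hA]
    · exact hYc
  · intro B hB B' hB' hd
    rw [Finset.disjoint_left] at hd
    rcases (hG B).1 hB with ⟨A, hA, y, rfl⟩ | rfl
    · rcases (hG B').1 hB' with ⟨A', hA', y', rfl⟩ | rfl
      · apply hI A hA A' hA'
        rw [Finset.disjoint_left]
        intro a ha ha'
        exact hd ((hfmemL (A, y) a).2 ha) ((hfmemL (A', y') a).2 ha')
      · exact hd ((hfmemR (A, y) y).2 rfl) (hYR y)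
    · rcases (hG B').1 hB' with ⟨A', hA', y', rfl⟩ | rfl
      · exact hd (hYR y') ((hfmemR (A', y') y').2 rfl)
      · exact hd (hYR 0) (hYR 0)
  · intro T hT
    let T₁ : Finset α := Finset.univ.filter fun a => (Sum.inl a : β) ∈ T
    let T₂ : Finset (Fin (k + 1)) := Finset.univ.filter fun y => (Sum.inr y : β) ∈ T
    have hT1 : ∀ a, a ∈ T₁ ↔ (Sum.inl a : β) ∈ T := by
      intro a
      simp [T₁]
    have hT2 : ∀ y, y ∈ T₂ ↔ (Sum.inr y : β) ∈ T := by
      intro y
      simp [T₂]
    have hc : T₁.card + T₂.card ≤ T.card := by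
      have h1 : (T₁.map Function.Embedding.inl : Finset β) ∪
          (T₂.map Function.Embedding.inr : Finset β) ⊆ T := by
        intro b hb
        rcases Finset.mem_union.1 hb with h | h
        · obtain ⟨a, ha, rfl⟩ := Finset.mem_map.1 h
          exact (hT1 a).1 ha
        · obtain ⟨y, hy, rfl⟩ := Finset.mem_map.1 h
          exact (hT2 y).1 hy
      have h2 : Disjoint (T₁.map Function.Embedding.inl : Finset β)
          (T₂.map Function.Embedding.inr : Finset β) := by
        rw [Finset.disjoint_left]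
        intro b hb hb'
        obtain ⟨a, ha, rfl⟩ := Finset.mem_map.1 hb
        obtain ⟨y, hy, hy'⟩ := Finset.mem_map.1 hb'
        exact Sum.inr_ne_inl hy'
      have h3 := Finset.card_le_card h1
      rwa [Finset.card_union_of_disjoint h2, Finset.card_map, Finset.card_map] at h3
    by_cases h0 : T₂ = ∅
    · refine ⟨Y, (hG Y).2 (Or.inr rfl), ?_⟩
      rw [Finset.disjoint_left]
      rintro (a | y) hb hb'
      · exact hYL a hb
      · have h1 : y ∈ T₂ := (hT2 y).2 hb'
        rw [h0] at h1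
        exact absurd h1 (Finset.notMem_empty _)
    · have h1 : 0 < T₂.card := Finset.card_pos.2 (Finset.nonempty_iff_ne_empty.2 h0)
      have h1' : T₁.card < k := by omega
      obtain ⟨A, hA, hAT⟩ := hC T₁ h1'
      have h2 : ∃ y : Fin (k + 1), y ∉ T₂ := by
        by_contra h
        push Not at h
        have h3 : T₂ = Finset.univ := Finset.eq_univ_of_forall h
        have h4 : T₂.card = k + 1 := by rw [h3, Finset.card_univ, Fintype.card_fin]
        omega
      obtain ⟨y, hy⟩ := h2
      refine ⟨f (A, y), (hG _).2 (Or.inl ⟨A, hA, y, rfl⟩), ?_⟩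
      rw [Finset.disjoint_left]
      rintro (a | y') hb hb'
      · rw [Finset.disjoint_left] at hAT
        exact hAT ((hfmemL _ _).1 hb) ((hT1 a).2 hb')
      · have h3 : y' = y := (hfmemR _ _).1 hb
        subst h3
        exact hy ((hT2 y').2 hb')
  · have h1 : ((F ×ˢ (Finset.univ : Finset (Fin (k + 1)))).image f).card =
        F.card * (k + 1) := by
      rw [Finset.card_image_of_injective _ hfinj, Finset.card_product, Finset.card_univ,
        Fintype.card_fin]
    have h2 : ((F ×ˢ (Finset.univ : Finset (Fin (k + 1)))).image f).card ≤ G.card :=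
      Finset.card_le_card Finset.subset_union_left
    rw [h1] at h2
    calc (k + 1) * F.card = F.card * (k + 1) := Nat.mul_comm _ _
      _ ≤ G.card := h2

end Pool.Agent.EfcA.LwsM

namespace Pool.Agent.EfcA

open Pool.Agent.Efc

theorem stmtLws : StmtLws := by
  intro α _ _ k F hU hI hC
  obtain ⟨G, hGU, hGI, hGC, hGc⟩ := LwsM.step k F hU hI hC
  obtain ⟨n, F', h1, h2, h3, h4⟩ := LwsM.trans (k + 1) G hGU hGI hGC
  exact ⟨n, F', h1, h2, h3, by rw [h4]; exact hGc⟩

end Pool.Agent.EfcA
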