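import Pool.Agent.Lib.MP_efc1da_coA.Spec

/-!
# MXA: a maximiser of `r^|S| |H(S)|`
-/

set_option autoImplicit false

namespace Pool.Agent.EfcA

open Pool.Agent.Efc

theorem stmtMxa : StmtMxa := by
  intro α _ _ r H hr hH
  obtain ⟨S, -, hS⟩ := Finset.exists_max_image (Finset.univ : Finset (Finset α))
    (fun S => r ^ S.card * ((up H S).card : ℝ)) ⟨∅, Finset.mem_univ _⟩
  have h0 : (H.card : ℝ) ≤ r ^ S.card * ((up H S).card : ℝ) := by
    have h1 := hS ∅ (Finset.mem_univ _)
    have h2 : up H (∅ : Finset α) = H :=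
      Finset.filter_true_of_mem fun A _ => Finset.empty_subset A
    simp only [Finset.card_empty, pow_zero, one_mul] at h1
    rwa [h2] at h1
  have hpos : (0 : ℝ) < (H.card : ℝ) := by exact_mod_cast hH.card_pos
  have hne : (up H S).Nonempty := by
    rw [Finset.nonempty_iff_ne_empty]
    intro h1
    rw [h1, Finset.card_empty, Nat.cast_zero, mul_zero] at h0
    exact absurd h0 (not_le.2 hpos)
  refine ⟨S, hne, h0, fun Z hZ => ?_⟩
  have e1 : up (up H S) Z = up H (S ∪ Z) := by
    ext B
    unfold up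
    rw [Finset.mem_filter, Finset.mem_filter, Finset.mem_filter, Finset.union_subset_iff, and_assoc]
  have h2 := hS (S ∪ Z) (Finset.mem_univ _)
  rw [Finset.card_union_of_disjoint hZ.symm, pow_add, mul_assoc] at h2
  have h3 := le_of_mul_le_mul_left h2 (pow_pos hr S.card)
  rw [e1, mul_comm]
  exact h3

end Pool.Agent.EfcA
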