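import Pool.Agent.Lib.MP_efc1da_coA.Spec

/-!
# NM7: the constants
-/

set_option autoImplicit false

namespace Pool.Agent.EfcA

open Pool.Agent.Efc

namespace Nm7M

private theorem polys (K y : ℝ) (hK : 1 ≤ K) (hy : 346560000 * K ^ 7 + 100 ≤ y) :
    100 ≤ y ∧ 2 * K ≤ y ^ 16 ∧ 2 * y ^ 16 ≤ y ^ 20 ∧ 8 + 20 * K * y ^ 21 + y ^ 20 ≤ y ^ 25 ∧
    4 + 8 * y ^ 17 + y ^ 16 ≤ 4 * K * y ^ 20 ∧ 5 + 8 * y ^ 17 + 2 * y ^ 16 ≤ y ^ 20 ∧
    60000 * (K * y ^ 20) * (19 * K ^ 3 * y ^ 4) ^ 2 ≤ (y ^ 16 / 4) ^ 2 := by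
  have hK7 : K ≤ K ^ 7 := by
    have : K ^ 1 ≤ K ^ 7 := pow_le_pow_right₀ hK (by norm_num)
    linarith [pow_one K]
  have hK71 : 1 ≤ K ^ 7 := one_le_pow₀ hK
  have h100 : 100 ≤ y := by linarith
  have hy0 : 0 < y := by linarith
  have hy1 : 1 ≤ y := by linarith
  have hyK : 346560000 * K ^ 7 ≤ y := by linarith
  have h16 : y ≤ y ^ 16 := by
    have : y ^ 1 ≤ y ^ 16 := pow_le_pow_right₀ hy1 (by norm_num)
    linarith [pow_one y]
  have h4 : y ≤ y ^ 4 := by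
    have : y ^ 1 ≤ y ^ 4 := pow_le_pow_right₀ hy1 (by norm_num)
    linarith [pow_one y]
  have hp16 : 1 ≤ y ^ 16 := one_le_pow₀ hy1
  have hp17 : y ^ 17 = y * y ^ 16 := by ring
  have h17 : 100 * y ^ 16 ≤ y ^ 17 := by
    rw [hp17]; exact mul_le_mul_of_nonneg_right h100 (by positivity)
  have hp20 : y ^ 20 = y ^ 3 * y ^ 17 := by ring
  have h3 : (100 : ℝ) ^ 3 ≤ y ^ 3 := pow_le_pow_left₀ (by norm_num) h100 3
  have h20 : 100 ^ 3 * y ^ 17 ≤ y ^ 20 := by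
    rw [hp20]; exact mul_le_mul_of_nonneg_right h3 (by positivity)
  have h21 : y ^ 20 ≤ y ^ 21 := pow_le_pow_right₀ hy1 (by norm_num)
  have hp25 : y ^ 25 = y ^ 4 * y ^ 21 := by ring
  have h25 : (20 * K + 9) * y ^ 21 ≤ y ^ 25 := by
    rw [hp25]
    apply mul_le_mul_of_nonneg_right _ (by positivity)
    linarith
  refine ⟨h100, by linarith, by norm_num at h20; linarith, ?_, ?_, by norm_num at h20; linarith,
    ?_⟩
  · norm_num at h20
    have : (20 * K + 9) * y ^ 21 = 20 * K * y ^ 21 + 9 * y ^ 21 := by ring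
    linarith
  · have h1 : 1 * y ^ 20 ≤ K * y ^ 20 := mul_le_mul_of_nonneg_right hK (by positivity)
    norm_num at h20
    linarith
  · have h1 : 60000 * (K * y ^ 20) * (19 * K ^ 3 * y ^ 4) ^ 2 =
        (346560000 * K ^ 7) * y ^ 28 / 16 := by ring
    have h2 : (y ^ 16 / 4) ^ 2 = y ^ 4 * y ^ 28 / 16 := by ring
    rw [h1, h2]
    apply div_le_div_of_nonneg_right _ (by norm_num)
    exact mul_le_mul_of_nonneg_right (by linarith) (by positivity)

private theorem rpowA (y : ℝ) (hy : 0 < y) : (y ^ 16) ^ (5 / 4 : ℝ) = y ^ 20 := by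
  rw [← Real.rpow_natCast y 16, ← Real.rpow_mul hy.le, ← Real.rpow_natCast y 20]
  norm_num

private theorem rpowB (y : ℝ) (hy : 0 < y) : (y ^ 20) ^ (5 / 4 : ℝ) = y ^ 25 := by
  rw [← Real.rpow_natCast y 20, ← Real.rpow_mul hy.le, ← Real.rpow_natCast y 25]
  norm_num

private theorem powExp (y b : ℝ) (n k : ℕ) (hy : 0 ≤ y) (hn : (n : ℝ) ≤ b) :
    (y ^ k) ^ n ≤ Real.exp (k * y * b) := by
  have h1 : y ≤ Real.exp y := by linarith [Real.add_one_le_exp y]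
  have h2 : y ^ k ≤ Real.exp (k * y) := by
    rw [Real.exp_nat_mul]
    exact pow_le_pow_left₀ hy h1 k
  have h3 : (y ^ k) ^ n ≤ (Real.exp (k * y)) ^ n := pow_le_pow_left₀ (by positivity) h2 n
  have h4 : (Real.exp (k * y)) ^ n = Real.exp (n * (k * y)) := (Real.exp_nat_mul _ n).symm
  have h5 : Real.exp (n * (k * y)) ≤ Real.exp (k * y * b) := by
    apply Real.exp_le_exp.mpr
    have : (n : ℝ) * (k * y) ≤ b * (k * y) := mul_le_mul_of_nonneg_right hn (by positivity)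
    linarith
  linarith

end Nm7M

open Nm7M

theorem stmtNm7 : StmtNm7 := by
  intro C hC
  set E : ℝ := Real.exp 2 with hE
  have hE1 : 1 ≤ E := by rw [hE]; linarith [Real.add_one_le_exp (2 : ℝ)]
  set K : ℝ := E * C with hKd
  have hK : 1 ≤ K := by
    have : 1 * 1 ≤ E * C := mul_le_mul hE1 hC (by norm_num) (by linarith)
    linarith
  set Y : ℝ := 346560000 * K ^ 7 + 100 with hY
  have hK7 : 1 ≤ K ^ 7 := one_le_pow₀ hK
  have hY1 : 1 ≤ Y := by linarith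
  refine ⟨Y ^ 16, one_le_pow₀ hY1, ?_⟩
  intro R hR
  have hR1 : 1 ≤ R := (one_le_pow₀ hY1).trans hR
  have hR0 : 0 < R := by linarith
  obtain ⟨y, hy0, hyR⟩ : ∃ y : ℝ, 0 < y ∧ y ^ 16 = R := by
    refine ⟨R ^ (1 / 16 : ℝ), by positivity, ?_⟩
    rw [← Real.rpow_natCast, ← Real.rpow_mul hR0.le]
    norm_num
  have hYy : Y ≤ y := by
    by_contra hcon
    push Not at hcon
    have : y ^ 16 < Y ^ 16 := pow_lt_pow_left₀ hcon hy0.le (by norm_num)
    linarith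
  obtain ⟨p1, p2, p3, p4, p5, p6, p7⟩ := polys K y hK hYy
  have hRs : R ^ (5 / 4 : ℝ) = y ^ 20 := by rw [← hyR]; exact rpowA y hy0
  have hθ : (y ^ 20) ^ (5 / 4 : ℝ) = y ^ 25 := rpowB y hy0
  have hr : R / (2 * C * E) = y ^ 16 / (2 * K) := by
    rw [hyR, hKd]; congr 1; ring
  have hK0 : 0 < K := by linarith
  have hrpos : 0 < y ^ 16 / (2 * K) := by positivity
  have hr1 : 1 ≤ y ^ 16 / (2 * K) := by
    rw [le_div_iff₀ (by positivity)]; linarith
  have hrR : y ^ 16 / (2 * K) ≤ y ^ 16 := by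
    apply div_le_self (by positivity); linarith
  set r : ℝ := y ^ 16 / (2 * K) with hrd
  set l₀ : ℕ := ⌊E * C * y ^ 20⌋₊ with hl0
  set l₁ : ℕ := ⌊E * C * (2 * (E * C * y ^ 20))⌋₊ with hl1
  set m : ℕ := ⌊R / 2⌋₊ with hm
  have hy1 : 1 ≤ y := by linarith
  have hy20 : 1 ≤ y ^ 20 := one_le_pow₀ hy1
  have hl0u : (l₀ : ℝ) ≤ K * y ^ 20 := Nat.floor_le (by positivity)
  have hl1u : (l₁ : ℝ) ≤ K * (2 * (K * y ^ 20)) := Nat.floor_le (by positivity)
  have hmu : (m : ℝ) ≤ y ^ 16 / 2 := by rw [hyR]; exact Nat.floor_le (by positivity)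
  have hKy : 1 ≤ K * y ^ 20 := by
    have : 1 * 1 ≤ K * y ^ 20 := mul_le_mul hK hy20 (by norm_num) (by linarith)
    linarith
  have hKKy : 1 ≤ K * (2 * (K * y ^ 20)) := by
    have : 1 * 1 ≤ K * (2 * (K * y ^ 20)) :=
      mul_le_mul hK (by linarith) (by norm_num) (by linarith)
    linarith
  have hl0p : 1 ≤ l₀ := by
    rw [hl0]; apply Nat.le_floor; push_cast; exact hKy
  have hl1p : 1 ≤ l₁ := by
    rw [hl1]; apply Nat.le_floor; push_cast; exact hKKy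
  set M : ℕ := ⌈4 * (l₁ : ℝ) / r⌉₊ with hM
  have hl1R : (1 : ℝ) ≤ l₁ := by exact_mod_cast hl1p
  have hMpos : 0 < 4 * (l₁ : ℝ) / r := by positivity
  have hM1 : 1 ≤ M := Nat.one_le_ceil_iff.mpr hMpos
  have hML : 4 * (l₁ : ℝ) / r ≤ M := Nat.le_ceil _
  have hMU : (M : ℝ) < 4 * (l₁ : ℝ) / r + 1 := Nat.ceil_lt_add_one hMpos.le
  have hMr : 4 * (l₁ : ℝ) ≤ M * r := by rwa [div_le_iff₀ hrpos] at hML
  have hMU2 : 4 * (l₁ : ℝ) / r ≤ 16 * K ^ 3 * y ^ 4 := by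
    rw [div_le_iff₀ hrpos, hrd]
    have : 16 * K ^ 3 * y ^ 4 * (y ^ 16 / (2 * K)) = 8 * (K ^ 2 * y ^ 20) := by
      field_simp; ring
    rw [this]
    have h2 : K * (2 * (K * y ^ 20)) = 2 * (K ^ 2 * y ^ 20) := by ring
    linarith
  have hM2 : (M : ℝ) + 2 ≤ 19 * K ^ 3 * y ^ 4 := by
    have h1 : 1 ≤ K ^ 3 * y ^ 4 := by
      have : 1 * 1 ≤ K ^ 3 * y ^ 4 :=
        mul_le_mul (one_le_pow₀ hK) (one_le_pow₀ hy1) (by norm_num) (by positivity)
      linarith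
    have h2 : 19 * K ^ 3 * y ^ 4 = 16 * K ^ 3 * y ^ 4 + 3 * (K ^ 3 * y ^ 4) := by ring
    linarith
  -- powers
  have hq0 : (y ^ 20) ^ l₀ ≤ Real.exp (20 * K * y ^ 21) := by
    have := powExp y (K * y ^ 20) l₀ 20 hy0.le hl0u
    have h2 : ((20 : ℕ) : ℝ) * y * (K * y ^ 20) = 20 * K * y ^ 21 := by push_cast; ring
    rwa [h2] at this
  have hqm : r ^ m ≤ Real.exp (8 * y ^ 17) := by
    have h1 : r ^ m ≤ (y ^ 16) ^ m := pow_le_pow_left₀ hrpos.le hrR m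
    have h3 := powExp y (y ^ 16 / 2) m 16 hy0.le hmu
    have h2 : ((16 : ℕ) : ℝ) * y * (y ^ 16 / 2) = 8 * y ^ 17 := by push_cast; ring
    rw [h2] at h3
    linarith
  have e8 : (8 : ℝ) ≤ Real.exp 8 := by linarith [Real.add_one_le_exp (8 : ℝ)]
  have e4 : (4 : ℝ) ≤ Real.exp 4 := by linarith [Real.add_one_le_exp (4 : ℝ)]
  have e5 : (16 / 3 : ℝ) < Real.exp 5 := by linarith [Real.add_one_le_exp (5 : ℝ)]
  have hrm0 : 0 < r ^ m := by positivity
  refine ⟨y ^ 20, y ^ 25, r, 2 * (E * C * y ^ 20), l₀, l₁, m, M, hRs.symm, hθ.symm, hr.symm, rfl, rfl,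
    rfl, rfl, hr1, hy20, ?_, hl0p, hl1p, hM1, ?_, ?_, ?_, ?_, ?_, ?_, ?_⟩
  · rw [← hyR]; exact p3
  · have h1 : (8 : ℝ) ≤ y ^ 20 := by
      have : 1 ≤ y ^ 16 := one_le_pow₀ hy1
      have h17 : 1 ≤ y ^ 17 := one_le_pow₀ hy1
      linarith
    linarith [Real.add_one_le_exp (y ^ 20)]
  · calc 8 * (y ^ 20) ^ l₀ * Real.exp (-y ^ 25)
        ≤ Real.exp 8 * Real.exp (20 * K * y ^ 21) * Real.exp (-y ^ 25) := by
          apply mul_le_mul_of_nonneg_right _ (Real.exp_pos _).le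
          exact mul_le_mul e8 hq0 (by positivity) (Real.exp_pos _).le
      _ = Real.exp (8 + 20 * K * y ^ 21 + -y ^ 25) := by rw [Real.exp_add, Real.exp_add]
      _ ≤ Real.exp (-y ^ 20) := by
          apply Real.exp_le_exp.mpr
          linarith
  · calc 4 * Real.exp (-(2 * (2 * (E * C * y ^ 20)))) * r ^ m
        ≤ Real.exp 4 * Real.exp (-(2 * (2 * (E * C * y ^ 20)))) * Real.exp (8 * y ^ 17) := by
          apply mul_le_mul _ hqm hrm0.le (by positivity)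
          exact mul_le_mul_of_nonneg_right e4 (Real.exp_pos _).le
      _ = Real.exp (4 + -(2 * (2 * (E * C * y ^ 20))) + 8 * y ^ 17) := by
          rw [Real.exp_add, Real.exp_add]
      _ ≤ Real.exp (-R) := by
          apply Real.exp_le_exp.mpr
          rw [← hyR]
          have : 2 * (2 * (E * C * y ^ 20)) = 4 * K * y ^ 20 := by rw [hKd]; ring
          linarith
  · have : E * C * y ^ 20 = K * y ^ 20 := by rw [hKd]
    linarith
  · rw [← hyR]
    refine le_trans ?_ p7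
    have h1 : ((M : ℝ) + 2) ^ 2 ≤ (19 * K ^ 3 * y ^ 4) ^ 2 := pow_le_pow_left₀ (by positivity) hM2 2
    have h2 : 60000 * (l₀ : ℝ) ≤ 60000 * (K * y ^ 20) := by linarith
    exact mul_le_mul h2 h1 (by positivity) (by positivity)
  · linarith
  · have hM0 : (0 : ℝ) < M := by exact_mod_cast hM1
    have h1 : ((M : ℝ) + 2) / M ≤ Real.exp (2 / M) := by
      have h2 := Real.add_one_le_exp (2 / (M : ℝ))
      have h3 : ((M : ℝ) + 2) / M = 2 / M + 1 := by field_simp; ring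
      linarith
    have h4 : (((M : ℝ) + 2) / M) ^ l₁ ≤ Real.exp (2 / M) ^ l₁ :=
      pow_le_pow_left₀ (by positivity) h1 l₁
    have h5 : Real.exp (2 / (M : ℝ)) ^ l₁ = Real.exp (l₁ * (2 / M)) := (Real.exp_nat_mul _ l₁).symm
    have h6 : (l₁ : ℝ) * (2 / M) ≤ R := by
      have h7 : (l₁ : ℝ) * (2 / M) = 2 * l₁ / M := by ring
      rw [h7, div_le_iff₀ hM0]
      have h8 : M * r ≤ M * R := by
        apply mul_le_mul_of_nonneg_left _ hM0.le
        rw [← hyR]; exact hrR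
      have h9 : 0 ≤ R * M := by positivity
      linarith
    have h10 : (((M : ℝ) + 2) / M) ^ l₁ ≤ Real.exp R := by
      rw [h5] at h4
      exact h4.trans (Real.exp_le_exp.mpr h6)
    have h11 : Real.exp (-R) ≤ ((M : ℝ) / (M + 2)) ^ l₁ := by
      have h12 : ((M : ℝ) / (M + 2)) ^ l₁ = ((((M : ℝ) + 2) / M) ^ l₁)⁻¹ := by
        rw [← inv_pow, inv_div]
      rw [h12, Real.exp_neg]
      exact inv_anti₀ (by positivity) h10
    calc 16 / 3 * Real.exp (-y ^ 20) * r ^ m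
        ≤ 16 / 3 * Real.exp (-y ^ 20) * Real.exp (8 * y ^ 17) := by
          apply mul_le_mul_of_nonneg_left hqm (by positivity)
      _ < Real.exp 5 * Real.exp (-y ^ 20) * Real.exp (8 * y ^ 17) := by
          apply mul_lt_mul_of_pos_right _ (Real.exp_pos _)
          exact mul_lt_mul_of_pos_right e5 (Real.exp_pos _)
      _ = Real.exp (5 + -y ^ 20 + 8 * y ^ 17) := by rw [Real.exp_add, Real.exp_add]
      _ ≤ Real.exp (-R + -R) := by
          apply Real.exp_le_exp.mpr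
          rw [← hyR]
          linarith
      _ = Real.exp (-R) * Real.exp (-R) := by rw [Real.exp_add]
      _ ≤ ((M : ℝ) / (M + 2)) ^ l₁ * Real.exp (-R) :=
          mul_le_mul_of_nonneg_right h11 (Real.exp_pos _).le

end Pool.Agent.EfcA
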