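import Pool.Agent.Lib.MP_efc1da_coA.Spec

set_option autoImplicit false

namespace Pool.Agent.EfcA.NmnM

private theorem geom (k : ℕ) : ∑ u ∈ Finset.Ioc 0 k, ((1 : ℝ) / 200) ^ u =
    (1 - (1 / 200) ^ k) / 199 := by
  induction k with
  | zero => simp
  | succ k ih =>
    rw [← Finset.sum_Ioc_consecutive _ (Nat.zero_le k) (Nat.le_succ k), ih, Nat.Ioc_succ_singleton,
      Finset.sum_singleton, pow_succ]
    ring

private theorem term (l u : ℕ) (N ρ x : ℝ) (hN : 0 < N) (hρ : 0 < ρ) (hx : 0 ≤ x) (hxN : x ≤ N)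
    (hk : 60000 * (l : ℝ) * N ^ 2 ≤ ρ ^ 2) (hu : ρ / (100 * N) < u) :
    (l.choose u : ℝ) * (x / ρ) ^ u ≤ (1 / 200) ^ u := by
  have h1 : (l.choose u : ℝ) ≤ (l : ℝ) ^ u / (u.factorial : ℝ) := Nat.choose_le_pow_div u l
  have hf : (0 : ℝ) < (u.factorial : ℝ) := by exact_mod_cast u.factorial_pos
  have hu' : ρ < u * (100 * N) := by rwa [div_lt_iff₀ (by positivity)] at hu
  have h2 : (l : ℝ) * (x / ρ) ≤ u / 600 := by
    have h3 : (l : ℝ) * (x / ρ) ≤ l * (N / ρ) := by gcongr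
    refine h3.trans ?_
    rw [mul_div_assoc', div_le_iff₀ hρ]
    have h4 : 60000 * ((l : ℝ) * N) * N ≤ ρ * (u * (100 * N)) := by
      calc 60000 * ((l : ℝ) * N) * N = 60000 * (l : ℝ) * N ^ 2 := by ring
        _ ≤ ρ ^ 2 := hk
        _ = ρ * ρ := by ring
        _ ≤ ρ * (u * (100 * N)) := by gcongr
    have h5 : 60000 * ((l : ℝ) * N) * N ≤ (100 * (ρ * u)) * N := by
      refine h4.trans (le_of_eq ?_)
      ring
    have h6 := le_of_mul_le_mul_right h5 hN
    linarith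
  have h3 : (u : ℝ) ^ u / (u.factorial : ℝ) ≤ Real.exp u :=
    Real.pow_div_factorial_le_exp u (Nat.cast_nonneg u) u
  have h4 : Real.exp u = Real.exp 1 ^ u := by
    rw [← Real.exp_nat_mul, mul_one]
  have hxρ : 0 ≤ x / ρ := by positivity
  calc (l.choose u : ℝ) * (x / ρ) ^ u
      ≤ (l : ℝ) ^ u / (u.factorial : ℝ) * (x / ρ) ^ u := by gcongr
    _ = ((l : ℝ) * (x / ρ)) ^ u / (u.factorial : ℝ) := by rw [mul_pow]; ring
    _ ≤ (u / 600) ^ u / (u.factorial : ℝ) := by gcongr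
    _ = (1 / 600) ^ u * ((u : ℝ) ^ u / (u.factorial : ℝ)) := by rw [div_pow, div_pow]; ring
    _ ≤ (1 / 600) ^ u * Real.exp 1 ^ u := by
        rw [← h4]
        gcongr
    _ = (1 / 600 * Real.exp 1) ^ u := by rw [mul_pow]
    _ ≤ (1 / 200) ^ u := by
        have h5 := Real.exp_one_lt_d9
        gcongr
        linarith

end Pool.Agent.EfcA.NmnM

namespace Pool.Agent.EfcA

open NmnM

theorem stmtNmn : StmtNmn := by
  intro l M t ρ hl hM hρ hlρ ht
  have hM' : (1 : ℝ) ≤ M := by exact_mod_cast hM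
  have hN : (0 : ℝ) < (M : ℝ) + 2 := by linarith
  have h1 : (∑ u ∈ Finset.Ioc t l, (l.choose u : ℝ) * (((M : ℝ) + 1) / ρ) ^ u) ≤ 1 / 199 := by
    calc (∑ u ∈ Finset.Ioc t l, (l.choose u : ℝ) * (((M : ℝ) + 1) / ρ) ^ u)
        ≤ ∑ u ∈ Finset.Ioc t l, ((1 : ℝ) / 200) ^ u := by
          refine Finset.sum_le_sum fun u hu =>
            term l u ((M : ℝ) + 2) ρ ((M : ℝ) + 1) hN hρ (by linarith) (by linarith) hlρ ?_
          rw [Finset.mem_Ioc, ht] at hu
          exact (Nat.floor_lt (by positivity)).1 hu.1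
      _ ≤ ∑ u ∈ Finset.Ioc 0 l, ((1 : ℝ) / 200) ^ u := by
          refine Finset.sum_le_sum_of_subset_of_nonneg
            (Finset.Ioc_subset_Ioc_left (Nat.zero_le t)) fun _ _ _ => by positivity
      _ ≤ 1 / 199 := by
          rw [geom]
          have : (0 : ℝ) ≤ (1 / 200) ^ l := by positivity
          linarith
  have h2 : (∑ u ∈ Finset.Icc 1 t, (t.choose u : ℝ) * ((M : ℝ) / ρ) ^ u) ≤ 1 / 99 := by
    have h3 : ((M : ℝ) / ρ + 1) ^ t =
        1 + ∑ u ∈ Finset.Icc 1 t, (t.choose u : ℝ) * ((M : ℝ) / ρ) ^ u := by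
      rw [add_pow, Finset.range_eq_Ico, Finset.sum_eq_sum_Ico_succ_bot (Nat.succ_pos t)]
      have h4 : Finset.Ico (0 + 1) (t + 1) = Finset.Icc 1 t := by
        ext u
        simp only [Finset.mem_Ico, Finset.mem_Icc]
        omega
      rw [h4]
      simp only [pow_zero, one_pow, Nat.choose_zero_right, Nat.cast_one, mul_one]
      congr 1
      exact Finset.sum_congr rfl fun u _ => mul_comm _ _
    have h5 : ((M : ℝ) / ρ + 1) ^ t ≤ Real.exp (1 / 100) := by
      have h6 : (M : ℝ) / ρ + 1 ≤ Real.exp ((M : ℝ) / ρ) := Real.add_one_le_exp _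
      have h7 : (0 : ℝ) ≤ (M : ℝ) / ρ + 1 := by positivity
      calc ((M : ℝ) / ρ + 1) ^ t ≤ Real.exp ((M : ℝ) / ρ) ^ t := by gcongr
        _ = Real.exp (t * ((M : ℝ) / ρ)) := by rw [Real.exp_nat_mul]
        _ ≤ Real.exp (1 / 100) := by
            refine Real.exp_le_exp.2 ?_
            have h8 : (t : ℝ) ≤ ρ / (100 * ((M : ℝ) + 2)) := by
              rw [ht]
              exact Nat.floor_le (by positivity)
            have h9 : (t : ℝ) * (100 * ((M : ℝ) + 2)) ≤ ρ := by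
              rwa [le_div_iff₀ (by positivity)] at h8
            rw [mul_div_assoc', div_le_iff₀ hρ]
            have h10 : (0 : ℝ) ≤ t := Nat.cast_nonneg t
            nlinarith
    have h6 : Real.exp (1 / 100) ≤ 100 / 99 := by
      have h7 := Real.one_sub_le_exp_neg (1 / 100)
      rw [Real.exp_neg] at h7
      have h8 : (0 : ℝ) < Real.exp (1 / 100) := Real.exp_pos _
      rw [le_inv_comm₀ (by norm_num) h8] at h7
      refine h7.trans ?_
      norm_num
    linarith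
  refine (add_le_add h1 h2).trans ?_
  norm_num

end Pool.Agent.EfcA
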