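import Pool.Agent.Lib.MP_efc1da_coA.Spec
import Mathlib.Analysis.SpecialFunctions.Pow.Asymptotics

/-!
# A popular vertex (helper92)
-/

set_option autoImplicit false

namespace Pool.Agent.EfcA.PpvM

open Pool.Agent.Efc

/-- the size condition for R -/
theorem large (a : ℝ) (ha : 1 ≤ a) : ∃ N : ℝ, 2 ≤ N ∧ ∀ x : ℝ, N ≤ x →
    a * x * Real.log x + x ≤ x ^ (5 / 4 : ℝ) := by
  have ha0 : 0 < a := by linarith
  have h1 := (isLittleO_log_rpow_atTop (show (0 : ℝ) < 1 / 4 by norm_num)).bound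
    (show (0 : ℝ) < 1 / (2 * a) by positivity)
  obtain ⟨N, hN⟩ := Filter.eventually_atTop.1 h1
  refine ⟨max N 16, le_trans (by norm_num) (le_max_right _ _), fun x hx => ?_⟩
  have hxN : N ≤ x := le_trans (le_max_left _ _) hx
  have hx16 : (16 : ℝ) ≤ x := le_trans (le_max_right _ _) hx
  have hx0 : 0 < x := by linarith
  have h2 := hN x hxN
  rw [Real.norm_of_nonneg (Real.log_nonneg (by linarith)),
    Real.norm_of_nonneg (Real.rpow_nonneg hx0.le _)] at h2
  have h3 : x ^ (5 / 4 : ℝ) = x * x ^ (1 / 4 : ℝ) := by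
    rw [show (5 / 4 : ℝ) = 1 + 1 / 4 by norm_num, Real.rpow_add hx0, Real.rpow_one]
  have h4 : (2 : ℝ) ≤ x ^ (1 / 4 : ℝ) := by
    have e : (2 : ℝ) = (16 : ℝ) ^ (1 / 4 : ℝ) := by
      rw [show (16 : ℝ) = 2 ^ (4 : ℝ) by norm_num, ← Real.rpow_mul (by norm_num)]
      norm_num
    rw [e]
    exact Real.rpow_le_rpow (by norm_num) hx16 (by norm_num)
  rw [h3]
  set y := x ^ (1 / 4 : ℝ) with hy
  have h5 : a * Real.log x ≤ y / 2 := by
    calc a * Real.log x ≤ a * (1 / (2 * a) * y) := mul_le_mul_of_nonneg_left h2 ha0.le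
      _ = y / 2 := by field_simp
  nlinarith [mul_le_mul_of_nonneg_left h5 hx0.le, mul_le_mul_of_nonneg_left h4 hx0.le]

theorem up_mono {α : Type} [DecidableEq α] {F F' : Finset (Finset α)} (h : F' ⊆ F) (S : Finset α) :
    ((up F' S).card : ℝ) ≤ (up F S).card := by
  exact_mod_cast Finset.card_le_card (Finset.filter_subset_filter _ h)

theorem av_mono {α : Type} [DecidableEq α] {F F' : Finset (Finset α)} (h : F' ⊆ F) (S : Finset α) :
    ((av F' S).card : ℝ) ≤ (av F S).card := by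
  exact_mod_cast Finset.card_le_card (Finset.filter_subset_filter _ h)

/-- the members meeting S -/
theorem meet {α : Type} [DecidableEq α] (F : Finset (Finset α)) (S : Finset α) :
    (F.card : ℝ) ≤ (av F S).card + ∑ v ∈ S, ((up F {v}).card : ℝ) := by
  classical
  have h1 : F ⊆ av F S ∪ S.biUnion (fun v => up F {v}) := by
    intro A hA
    by_cases h : Disjoint A S
    · exact Finset.mem_union_left _ (Finset.mem_filter.2 ⟨hA, h⟩)
    · obtain ⟨v, hv1, hv2⟩ := Finset.not_disjoint_iff.1 h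
      refine Finset.mem_union_right _ (Finset.mem_biUnion.2 ⟨v, hv2, Finset.mem_filter.2 ⟨hA, ?_⟩⟩)
      exact Finset.singleton_subset_iff.2 hv1
  have h2 : F.card ≤ (av F S).card + ∑ v ∈ S, (up F {v}).card :=
    (Finset.card_le_card h1).trans ((Finset.card_union_le _ _).trans
      (Nat.add_le_add_left Finset.card_biUnion_le _))
  exact_mod_cast h2

end Pool.Agent.EfcA.PpvM

namespace Pool.Agent.EfcA

open Pool.Agent.Efc PpvM

theorem stmtPpv : StmtMxa → StmtSza → StmtInd → StmtPpv := by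
  intro hMxa hSza hInd C hC
  obtain ⟨R₀, hR₀, hI⟩ := hInd C hC
  obtain ⟨a, ha⟩ : ∃ a : ℝ, a = Real.exp 2 * C := ⟨_, rfl⟩
  have ha1 : 1 ≤ a := by
    rw [ha]
    have : (1 : ℝ) ≤ Real.exp 2 := Real.one_le_exp (by norm_num)
    nlinarith
  obtain ⟨N, hN2, hN⟩ := large a ha1
  obtain ⟨R₁, hR₁⟩ : ∃ R₁ : ℝ, R₁ = max N R₀ := ⟨_, rfl⟩
  have hR₁N : N ≤ R₁ := by rw [hR₁]; exact le_max_left _ _
  have hR₁R : R₀ ≤ R₁ := by rw [hR₁]; exact le_max_right _ _
  have hR₁2 : 2 ≤ R₁ := hN2.trans hR₁N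
  refine ⟨2 * a * (R₁ + 1), by nlinarith, ?_⟩
  intro α _ _ F f hF hf hB F' hF' hne ε hε hε1 hεf
  obtain ⟨L, hL⟩ : ∃ L : ℝ, L = Real.log (1 / ε) := ⟨_, rfl⟩
  have hL0 : 0 ≤ L := by
    rw [hL]
    exact Real.log_nonneg (by rw [le_div_iff₀ hε]; linarith)
  have hεL : Real.exp (-L) = ε := by
    rw [hL, one_div, Real.log_inv, neg_neg, Real.exp_log hε]
  obtain ⟨R, hR⟩ : ∃ R : ℝ, R = R₁ + (Real.log 2 + L) := ⟨_, rfl⟩
  have hlog2 : 0 < Real.log 2 := Real.log_pos (by norm_num)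
  have hlog21 : Real.log 2 ≤ 1 := by
    have := Real.log_two_lt_d9
    linarith
  have hRR₁ : R₁ ≤ R := by rw [hR]; linarith
  have hR2 : 2 ≤ R := hR₁2.trans hRR₁
  have hR0 : 0 < R := by linarith
  have hexpR : Real.exp (-R) ≤ ε / 2 := by
    calc Real.exp (-R) ≤ Real.exp (-(Real.log 2) + -L) := Real.exp_le_exp.2 (by rw [hR]; linarith)
      _ = ε / 2 := by
          rw [Real.exp_add, hεL, Real.exp_neg, Real.exp_log (by norm_num)]
          ring
  obtain ⟨S, hSne, hSle, hSs⟩ := hMxa α R F' hR0 hne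
  -- the kernel is small
  have hSa : (S.card : ℝ) ≤ a * R := by
    by_contra hcon
    push Not at hcon
    have h1 := hSza α F C f R S hC hf hR0 hB (by rw [← ha]; exact hcon)
    have h2 : ε * f ≤ Real.exp (-(2 * (S.card : ℝ))) * f :=
      calc ε * f ≤ (F'.card : ℝ) := hεf
        _ ≤ R ^ S.card * (up F' S).card := hSle
        _ ≤ R ^ S.card * (up F S).card :=
            mul_le_mul_of_nonneg_left (up_mono hF' S) (pow_nonneg hR0.le _)
        _ ≤ Real.exp (-(2 * (S.card : ℝ))) * f := h1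
    have h3 : ε ≤ Real.exp (-(2 * (S.card : ℝ))) := le_of_mul_le_mul_right h2 hf
    have h4 : Real.exp (-(2 * (S.card : ℝ))) ≤ Real.exp (-R) := by
      refine Real.exp_le_exp.2 ?_
      nlinarith
    linarith
  -- the spread family is large
  have hpow : (R : ℝ) ^ S.card ≤ Real.exp (a * R * Real.log R) := by
    have e : (R : ℝ) ^ S.card = Real.exp (S.card * Real.log R) := by
      rw [Real.exp_nat_mul, Real.exp_log hR0]
    rw [e]
    refine Real.exp_le_exp.2 (mul_le_mul_of_nonneg_right hSa (Real.log_nonneg (by linarith)))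
  have hP : Real.exp (-(R ^ (5 / 4 : ℝ))) * f ≤ ((up F' S).card : ℝ) := by
    have h1 : Real.exp (-R) * f ≤ Real.exp (a * R * Real.log R) * ((up F' S).card : ℝ) :=
      calc Real.exp (-R) * f ≤ ε * f := by
            refine mul_le_mul_of_nonneg_right (hexpR.trans (by linarith)) hf.le
        _ ≤ (F'.card : ℝ) := hεf
        _ ≤ R ^ S.card * (up F' S).card := hSle
        _ ≤ _ := mul_le_mul_of_nonneg_right hpow (Nat.cast_nonneg _)
    have h2 : Real.exp (-(R ^ (5 / 4 : ℝ))) ≤ Real.exp (-(a * R * Real.log R)) * Real.exp (-R) := by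
      rw [← Real.exp_add]
      refine Real.exp_le_exp.2 ?_
      have := hN R (hR₁N.trans hRR₁)
      linarith
    calc Real.exp (-(R ^ (5 / 4 : ℝ))) * f
        ≤ Real.exp (-(a * R * Real.log R)) * Real.exp (-R) * f := mul_le_mul_of_nonneg_right h2 hf.le
      _ = Real.exp (-(a * R * Real.log R)) * (Real.exp (-R) * f) := by ring
      _ ≤ Real.exp (-(a * R * Real.log R)) * (Real.exp (a * R * Real.log R) * ((up F' S).card : ℝ)) :=
          mul_le_mul_of_nonneg_left h1 (Real.exp_nonneg _)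
      _ = ((up F' S).card : ℝ) := by
          rw [← mul_assoc, ← Real.exp_add, neg_add_cancel, Real.exp_zero, one_mul]
  have hQ := hI α F f hF hf hB R (hR₁R.trans hRR₁) S (up F' S) hSne
    ((Finset.filter_subset _ _).trans hF') (fun A hA => (Finset.mem_filter.1 hA).2) hSs hP
  -- at least half of F' meets S
  have hav : ((av F' S).card : ℝ) ≤ (F'.card : ℝ) / 2 := by
    calc ((av F' S).card : ℝ) ≤ (av F S).card := av_mono hF' S
      _ ≤ Real.exp (-R) * f := hQ
      _ ≤ ε / 2 * f := mul_le_mul_of_nonneg_right hexpR hf.le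
      _ ≤ (F'.card : ℝ) / 2 := by linarith
  have hmeet := meet F' S
  have hF'0 : (0 : ℝ) < F'.card := by exact_mod_cast hne.card_pos
  by_contra hcon
  push Not at hcon
  have hA0 : 0 < 2 * a * (R₁ + 1) * (1 + L) := by positivity
  have h3 : 2 * a * (R₁ + 1) * (1 + L) * ∑ v ∈ S, ((up F' {v}).card : ℝ) ≤ S.card * (F'.card : ℝ) := by
    rw [Finset.mul_sum, ← nsmul_eq_mul]
    refine Finset.sum_le_card_nsmul _ _ _ fun v _ => ?_
    have := (hcon v).le
    rw [← hL] at this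
    exact this
  have h4 : 2 * a * (R₁ + 1) * (1 + L) * ((F'.card : ℝ) / 2) ≤
      2 * a * (R₁ + 1) * (1 + L) * ∑ v ∈ S, ((up F' {v}).card : ℝ) :=
    mul_le_mul_of_nonneg_left (by linarith) hA0.le
  have h5 : a * (R₁ + 1) * (1 + L) ≤ (S.card : ℝ) := by
    have h6 : a * (R₁ + 1) * (1 + L) * (F'.card : ℝ) ≤ S.card * (F'.card : ℝ) := by
      calc a * (R₁ + 1) * (1 + L) * (F'.card : ℝ)
          = 2 * a * (R₁ + 1) * (1 + L) * ((F'.card : ℝ) / 2) := by ring
        _ ≤ _ := h4.trans h3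
    exact le_of_mul_le_mul_right h6 hF'0
  have h7 : R < (R₁ + 1) * (1 + L) ∨ R = (R₁ + 1) * (1 + L) := by
    rcases lt_or_eq_of_le (show R ≤ (R₁ + 1) * (1 + L) by rw [hR]; nlinarith) with h | h
    · exact Or.inl h
    · exact Or.inr h
  -- strictness comes from log 2 < 1
  have hlt : R < (R₁ + 1) * (1 + L) := by
    have := Real.log_two_lt_d9
    rw [hR]
    nlinarith
  nlinarith [mul_lt_mul_of_pos_left hlt (show (0 : ℝ) < a by linarith)]

end Pool.Agent.EfcA
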