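import Pool.Agent.Lib.MP_efc1da_coA.Spec

/-!
# PR1: first part of the induction step
-/

set_option autoImplicit false

namespace Pool.Agent.EfcA

open Pool.Agent.Efc

namespace Pr1M

private theorem upAvSub {α : Type} [DecidableEq α] (F : Finset (Finset α)) (S T : Finset α) :
    up (av F S) T ⊆ up F T := by
  intro A hA
  unfold up av at *
  rw [Finset.mem_filter] at hA ⊢
  rw [Finset.mem_filter] at hA
  exact ⟨hA.1.1, hA.2⟩

end Pr1M

open Pr1M

theorem stmtPr1 : StmtMxa → StmtSza → StmtHta → StmtPr1 := by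
  intro hMxa hSza hHta α _ _ F C f R r m S P hC hf hB hr hm hr1 hR hPne hPF hPS hP hav
  have hr0 : 0 < r := by linarith
  have hRr : R = 2 * (Real.exp 2 * C * r) := by
    rw [hr]
    have he : Real.exp 2 ≠ 0 := (Real.exp_pos 2).ne'
    have hC0 : C ≠ 0 := by positivity
    field_simp
  have hH : (av F S).Nonempty := by
    rw [← Finset.card_pos]
    have h1 : 0 < Real.exp (-R) * f := by positivity
    have h2 : (0 : ℝ) < (av F S).card := lt_trans h1 hav
    exact_mod_cast h2
  obtain ⟨S₁, hS1, hS2, hS3⟩ := hMxa α r (av F S) hr0 hH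
  have hmem : ∀ A ∈ up (av F S) S₁, S₁ ⊆ A ∧ Disjoint A S := by
    intro A hA
    unfold up av at hA
    rw [Finset.mem_filter, Finset.mem_filter] at hA
    exact ⟨hA.2, hA.1.2⟩
  have hsub : up (av F S) S₁ ⊆ F := by
    intro A hA
    unfold up av at hA
    rw [Finset.mem_filter, Finset.mem_filter] at hA
    exact hA.1.1
  have hdis : Disjoint S₁ S := by
    obtain ⟨A, hA⟩ := hS1
    exact Finset.disjoint_of_subset_left (hmem A hA).1 (hmem A hA).2
  have hcard : (S₁.card : ℝ) ≤ R / 2 := by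
    by_contra hcon
    push Not at hcon
    have h1 : Real.exp 2 * C * r < S₁.card := by linarith
    have h2 := hSza α F C f r S₁ hC hf hr0 hB h1
    have h3 : ((up (av F S) S₁).card : ℝ) ≤ (up F S₁).card := by
      exact_mod_cast Finset.card_le_card (upAvSub F S S₁)
    have h4 : r ^ S₁.card * ((up (av F S) S₁).card : ℝ) ≤ r ^ S₁.card * (up F S₁).card :=
      mul_le_mul_of_nonneg_left h3 (by positivity)
    have h5 : Real.exp (-(2 * (S₁.card : ℝ))) ≤ Real.exp (-R) := by
      apply Real.exp_le_exp.mpr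
      linarith
    have h6 : Real.exp (-(2 * (S₁.card : ℝ))) * f ≤ Real.exp (-R) * f :=
      mul_le_mul_of_nonneg_right h5 hf.le
    linarith
  have hcm : S₁.card ≤ m := by
    rw [hm]
    exact Nat.le_floor hcard
  refine ⟨S₁, up (av F S) S₁, hdis, hsub, hS1, hmem, hS3, ?_, ?_⟩
  · have h1 : r ^ S₁.card ≤ r ^ m := pow_le_pow_right₀ hr1 hcm
    have h2 : r ^ S₁.card * ((up (av F S) S₁).card : ℝ) ≤ r ^ m * (up (av F S) S₁).card :=
      mul_le_mul_of_nonneg_right h1 (Nat.cast_nonneg _)
    linarith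
  · exact hHta α P S S₁ R hR hP hdis (by linarith)

end Pool.Agent.EfcA
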