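import Pool.Agent.Lib.MP_efc1da_coA.Spec

/-!
# Theorem A, second part of the induction step (`StmtPr2`)
-/

set_option autoImplicit false

namespace Pool.Agent.EfcA

open Pool.Agent.Efc

theorem stmtPr2 (hD : StmtDca) (hS : StmtSza) : StmtPr2 := by
  classical
  intro α _ _ F C f Rs θs l₀ Q hC hf hB hRs h8 hl₀ hθ hQs hQF hQ hQf
  have hRs0 : (0 : ℝ) < Rs := by linarith
  obtain ⟨D, κ, hDQ, hcard, hκ, hspr, hpiece⟩ := hD α Rs Q hRs0
  have hDne : D.Nonempty := by
    rw [Finset.nonempty_iff_ne_empty]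
    rintro rfl
    have h1 : 0 < Q.card := Finset.card_pos.2 hQ
    rw [Finset.card_empty] at hcard
    omega
  -- the piece is contained in the members of `F` containing the kernel
  have hE : ∀ A ∈ D, (D.filter fun B => κ B = κ A) ⊆ up F (κ A) := by
    intro A _ B hB'
    rw [Finset.mem_filter] at hB'
    rw [up, Finset.mem_filter]
    exact ⟨hQF (hDQ hB'.1), hB'.2 ▸ hκ B hB'.1⟩
  have hl : ∀ A ∈ D, (κ A).card ≤ l₀ := by
    intro A hA
    rw [hl₀]
    refine Nat.le_floor ?_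
    by_contra hcon
    push Not at hcon
    have h1 := hS α F C f Rs (κ A) hC hf hRs0 hB hcon
    have h2 := hpiece A hA
    have h3 : ((D.filter fun B => κ B = κ A).card : ℝ) ≤ (up F (κ A)).card := by
      exact_mod_cast Finset.card_le_card (hE A hA)
    have hp : (0 : ℝ) < Rs ^ (κ A).card := pow_pos hRs0 _
    have h4 : (Q.card : ℝ) ≤ 4 * (Real.exp (-(2 * ((κ A).card : ℝ))) * f) :=
      h2.trans (mul_le_mul_of_nonneg_left
        ((mul_le_mul_of_nonneg_left h3 hp.le).trans h1) (by norm_num))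
    have hexp2 : (1 : ℝ) ≤ Real.exp 2 := Real.one_le_exp (by norm_num)
    have hC2 : (1 : ℝ) ≤ Real.exp 2 * C := one_le_mul_of_one_le_of_one_le hexp2 hC
    have h5 : Rs ≤ (κ A).card := by
      have h51 : 1 * Rs ≤ Real.exp 2 * C * Rs := mul_le_mul_of_nonneg_right hC2 hRs0.le
      linarith
    have h6 : Real.exp (-(2 * ((κ A).card : ℝ))) ≤ Real.exp (-Rs) * Real.exp (-Rs) := by
      rw [← Real.exp_add]
      exact Real.exp_le_exp.2 (by linarith)
    have he : 0 < Real.exp (-Rs) := Real.exp_pos _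
    have h7 : Real.exp (-Rs) * 8 < 1 := by
      have h71 : Real.exp (-Rs) * Real.exp Rs = 1 := by
        rw [← Real.exp_add, neg_add_cancel, Real.exp_zero]
      have h72 : Real.exp (-Rs) * 8 < Real.exp (-Rs) * Real.exp Rs :=
        mul_lt_mul_of_pos_left h8 he
      linarith
    have h9 : Real.exp (-(2 * ((κ A).card : ℝ))) * f ≤ Real.exp (-Rs) * Real.exp (-Rs) * f :=
      mul_le_mul_of_nonneg_right h6 hf.le
    have h10 : 0 < Real.exp (-Rs) * f := mul_pos he hf
    have h11 : Real.exp (-Rs) * 8 * (Real.exp (-Rs) * f) < 1 * (Real.exp (-Rs) * f) :=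
      mul_lt_mul_of_pos_right h7 h10
    have h12 : Real.exp (-Rs) * f ≤ 8 * (Real.exp (-Rs) * Real.exp (-Rs) * f) := by linarith
    have h13 : 8 * (Real.exp (-Rs) * Real.exp (-Rs) * f) =
        Real.exp (-Rs) * 8 * (Real.exp (-Rs) * f) := by ring
    linarith
  refine ⟨D, κ, hDQ, hDne, hcard, hκ, hl, fun A hA => ?_⟩
  refine hQs (κ A) (D.filter fun B => κ B = κ A) ⟨A, Finset.mem_filter.2 ⟨hA, rfl⟩⟩
    ((Finset.filter_subset _ _).trans (hDQ.trans hQF)) ?_ (hspr A hA) ?_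
  · intro B hB'
    rw [Finset.mem_filter] at hB'
    exact hB'.2 ▸ hκ B hB'.1
  · have h2 := hpiece A hA
    have hp : Rs ^ (κ A).card ≤ Rs ^ l₀ := pow_le_pow_right₀ hRs (hl A hA)
    have hE0 : (0 : ℝ) ≤ (D.filter fun B => κ B = κ A).card := Nat.cast_nonneg _
    have h3 : Rs ^ (κ A).card * ((D.filter fun B => κ B = κ A).card : ℝ) ≤
        Rs ^ l₀ * ((D.filter fun B => κ B = κ A).card : ℝ) := mul_le_mul_of_nonneg_right hp hE0
    have h4 : 8 * Rs ^ l₀ * Real.exp (-θs) * f ≤ Real.exp (-Rs) * f :=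
      mul_le_mul_of_nonneg_right hθ hf.le
    have hpos : (0 : ℝ) < 8 * Rs ^ l₀ := by positivity
    have h5 : 8 * Rs ^ l₀ * (Real.exp (-θs) * f) ≤
        8 * Rs ^ l₀ * ((D.filter fun B => κ B = κ A).card : ℝ) := by linarith
    exact le_of_mul_le_mul_left h5 hpos

end Pool.Agent.EfcA
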