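import Pool.Agent.Lib.MP_efc1da_coA.Spec

/-!
# Theorem A, third part of the induction step (`StmtPr3`)
-/

set_option autoImplicit false

namespace Pool.Agent.EfcA

open Pool.Agent.Efc

theorem stmtPr3 (hD : StmtDca) (hS : StmtSza) (hH : StmtHta) : StmtPr3 := by
  classical
  intro α _ _ F C f R Rss r l₀ l₁ m P₁ hC hf hB hRss hr hl₁ hexp hl₀ hPF hP hPf
  have hRs0 : (0 : ℝ) < Rss := by linarith
  obtain ⟨D, κ, hDP, hcard, hκ, hspr, hpiece⟩ := hD α Rss P₁ hRs0
  have hDne : D.Nonempty := by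
    rw [Finset.nonempty_iff_ne_empty]
    rintro rfl
    have h1 : 0 < P₁.card := Finset.card_pos.2 hP
    rw [Finset.card_empty] at hcard
    omega
  -- the piece is contained in the members of `F` containing the kernel
  have hE : ∀ A ∈ D, (D.filter fun B => κ B = κ A) ⊆ up F (κ A) := by
    intro A _ B hB'
    rw [Finset.mem_filter] at hB'
    rw [up, Finset.mem_filter]
    exact ⟨hPF (hDP hB'.1), hB'.2 ▸ hκ B hB'.1⟩
  have hl : ∀ A ∈ D, (κ A).card ≤ l₁ := by
    intro A hA
    rw [hl₁]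
    refine Nat.le_floor ?_
    by_contra hcon
    push Not at hcon
    have h1 := hS α F C f Rss (κ A) hC hf hRs0 hB hcon
    have h2 := hpiece A hA
    have h3 : ((D.filter fun B => κ B = κ A).card : ℝ) ≤ (up F (κ A)).card := by
      exact_mod_cast Finset.card_le_card (hE A hA)
    have hp : (0 : ℝ) < Rss ^ (κ A).card := pow_pos hRs0 _
    have h4 : (P₁.card : ℝ) ≤ 4 * (Real.exp (-(2 * ((κ A).card : ℝ))) * f) :=
      h2.trans (mul_le_mul_of_nonneg_left
        ((mul_le_mul_of_nonneg_left h3 hp.le).trans h1) (by norm_num))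
    have hexp2 : (1 : ℝ) ≤ Real.exp 2 := Real.one_le_exp (by norm_num)
    have hC2 : (1 : ℝ) ≤ Real.exp 2 * C := one_le_mul_of_one_le_of_one_le hexp2 hC
    have h5 : Rss ≤ (κ A).card := by
      have h51 : 1 * Rss ≤ Real.exp 2 * C * Rss := mul_le_mul_of_nonneg_right hC2 hRs0.le
      linarith
    have h6 : Real.exp (-(2 * ((κ A).card : ℝ))) ≤ Real.exp (-(2 * Rss)) :=
      Real.exp_le_exp.2 (by linarith)
    have h7 : (P₁.card : ℝ) ≤ 4 * (Real.exp (-(2 * Rss)) * f) :=
      h4.trans (mul_le_mul_of_nonneg_left (mul_le_mul_of_nonneg_right h6 hf.le) (by norm_num))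
    have hrm : (0 : ℝ) < r ^ m := pow_pos (by linarith) _
    have h8 : r ^ m * (P₁.card : ℝ) ≤ r ^ m * (4 * (Real.exp (-(2 * Rss)) * f)) :=
      mul_le_mul_of_nonneg_left h7 hrm.le
    have h9 : 4 * Real.exp (-(2 * Rss)) * r ^ m * f ≤ Real.exp (-R) * f :=
      mul_le_mul_of_nonneg_right hexp hf.le
    have h10 : r ^ m * (4 * (Real.exp (-(2 * Rss)) * f)) =
        4 * Real.exp (-(2 * Rss)) * r ^ m * f := by ring
    linarith
  refine ⟨D, κ, hDP, hDne, hcard, hκ, hl, fun K hK => ?_⟩
  have hKR : 2 * (K.card : ℝ) ≤ Rss := by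
    have : (K.card : ℝ) ≤ l₀ := by exact_mod_cast hK
    linarith
  set D' : Finset (Finset α) := D.filter fun A => Disjoint (κ A) K with hD'
  set E : Finset (Finset α) := D'.filter fun A => Disjoint A K with hEdef
  have hEav : E ⊆ av F K := by
    intro A hA
    rw [hEdef, Finset.mem_filter, hD', Finset.mem_filter] at hA
    rw [av, Finset.mem_filter]
    exact ⟨hPF (hDP hA.1.1), hA.2⟩
  have hEcard : (E.card : ℝ) ≤ (av F K).card := by exact_mod_cast Finset.card_le_card hEav
  have h1 : D'.card = ∑ X ∈ D'.image κ, (D'.filter fun A => κ A = X).card :=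
    Finset.card_eq_sum_card_image κ D'
  have h2 : E.card = ∑ X ∈ D'.image κ, (E.filter fun A => κ A = X).card := by
    refine Finset.card_eq_sum_card_fiberwise ?_
    intro A hA
    have hA' : A ∈ E := hA
    exact Finset.mem_coe.2 (Finset.mem_image_of_mem κ (Finset.mem_filter.1 hA').1)
  have h3 : ∀ X ∈ D'.image κ, ((D'.filter fun A => κ A = X).card : ℝ) ≤
      2 * (E.filter fun A => κ A = X).card := by
    intro X hX
    obtain ⟨A, hA, rfl⟩ := Finset.mem_image.1 hX
    rw [hD', Finset.mem_filter] at hA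
    have e1 : (D'.filter fun B => κ B = κ A) = D.filter fun B => κ B = κ A := by
      ext B
      rw [hD', Finset.mem_filter, Finset.mem_filter, Finset.mem_filter]
      constructor
      · rintro ⟨⟨hB1, _⟩, hB3⟩
        exact ⟨hB1, hB3⟩
      · rintro ⟨hB1, hB3⟩
        refine ⟨⟨hB1, ?_⟩, hB3⟩
        rw [hB3]
        exact hA.2
    have e2 : (E.filter fun B => κ B = κ A) =
        (D.filter fun B => κ B = κ A).filter fun B => Disjoint B K := by
      rw [hEdef, ← e1]
      ext B
      constructor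
      · intro hB
        have hB1 := (Finset.mem_filter.1 hB).1
        exact Finset.mem_filter.2 ⟨Finset.mem_filter.2 ⟨(Finset.mem_filter.1 hB1).1,
          (Finset.mem_filter.1 hB).2⟩, (Finset.mem_filter.1 hB1).2⟩
      · intro hB
        have hB1 := (Finset.mem_filter.1 hB).1
        exact Finset.mem_filter.2 ⟨Finset.mem_filter.2 ⟨(Finset.mem_filter.1 hB1).1,
          (Finset.mem_filter.1 hB).2⟩, (Finset.mem_filter.1 hB1).2⟩
    rw [e1, e2]
    exact hH α (D.filter fun B => κ B = κ A) (κ A) K Rss hRs0 (hspr A hA.1) hA.2.symm hKR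
  have h4 : (D'.card : ℝ) ≤ 2 * E.card := by
    rw [h1, h2]
    push_cast
    rw [Finset.mul_sum]
    exact Finset.sum_le_sum h3
  linarith

end Pool.Agent.EfcA
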