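import Pool.Agent.Lib.MP_efc1da_coA.Spec

set_option autoImplicit false

open Pool.Agent.Efc

namespace Pool.Agent.EfcA.SqnM

private theorem dis_iff {α : Type} [Fintype α] [DecidableEq α] {M : ℕ} (T : Finset α)
    (c : α → Fin (M + 2)) :
    Disjoint T (Wn c 0 ∪ Wn c 1) ↔ ∀ x ∈ T, c x ≠ 0 ∧ c x ≠ 1 := by
  rw [Finset.disjoint_left]
  constructor
  · intro h x hx
    have h1 := h hx
    rw [Finset.mem_union, not_or] at h1
    constructor
    · intro h2
      exact h1.1 (Finset.mem_filter.2 ⟨Finset.mem_univ _, h2⟩)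
    · intro h2
      exact h1.2 (Finset.mem_filter.2 ⟨Finset.mem_univ _, h2⟩)
  · intro h x hx h1
    rcases Finset.mem_union.1 h1 with h2 | h2
    · exact (h x hx).1 (Finset.mem_filter.1 h2).2
    · exact (h x hx).2 (Finset.mem_filter.1 h2).2

/-- The number of colourings with `T` disjoint from two classes. -/
private theorem count {α : Type} [Fintype α] [DecidableEq α] {M : ℕ} (hM : 1 ≤ M) (T : Finset α) :
    ∑ c : α → Fin (M + 2), (if Disjoint T (Wn c 0 ∪ Wn c 1) then (((M : ℝ) + 2) / M) ^ T.card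
      else 0) = ((M : ℝ) + 2) ^ Fintype.card α := by
  classical
  have hM' : (0 : ℝ) < M := by exact_mod_cast hM
  rw [← Finset.sum_filter, Finset.sum_const, nsmul_eq_mul]
  have h1 : (Finset.univ.filter fun c : α → Fin (M + 2) => Disjoint T (Wn c 0 ∪ Wn c 1)) =
      Fintype.piFinset (fun x : α => if x ∈ T then (({0, 1} : Finset (Fin (M + 2)))ᶜ)
        else Finset.univ) := by
    ext c
    rw [Finset.mem_filter, Fintype.mem_piFinset, dis_iff]
    constructor
    · intro h x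
      by_cases hx : x ∈ T
      · rw [if_pos hx, Finset.mem_compl]
        simpa using h.2 x hx
      · rw [if_neg hx]
        exact Finset.mem_univ _
    · intro h
      refine ⟨Finset.mem_univ _, fun x hx => ?_⟩
      have h2 := h x
      rw [if_pos hx, Finset.mem_compl] at h2
      simpa using h2
  rw [h1, Fintype.card_piFinset]
  have h2 : ∀ x : α, ((if x ∈ T then (({0, 1} : Finset (Fin (M + 2)))ᶜ)
      else Finset.univ).card : ℝ) * (if x ∈ T then ((M : ℝ) + 2) / M else 1) = (M : ℝ) + 2 := by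
    intro x
    by_cases hx : x ∈ T
    · rw [if_pos hx, if_pos hx, Finset.card_compl, Fintype.card_fin,
        Finset.card_pair Fin.zero_ne_one]
      have : M + 2 - 2 = M := by omega
      rw [this]
      field_simp
    · rw [if_neg hx, if_neg hx, Finset.card_univ, Fintype.card_fin]
      push_cast
      ring
  have h3 : (((M : ℝ) + 2) / M) ^ T.card = ∏ x : α, (if x ∈ T then ((M : ℝ) + 2) / M else 1) := by
    rw [Finset.prod_ite_mem, Finset.univ_inter, Finset.prod_const]
  rw [h3]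
  push_cast
  rw [← Finset.prod_mul_distrib, Finset.prod_congr rfl fun x _ => h2 x, Finset.prod_const,
    Finset.card_univ]

private theorem pw {α : Type} [DecidableEq α] (z : ℝ) (A B : Finset α) :
    (1 + z) ^ (A ∩ B).card = ∑ Z ∈ A.powerset, if Z ⊆ B then z ^ Z.card else 0 := by
  have h1 : (1 + z) ^ (A ∩ B).card = ∑ Z ∈ (A ∩ B).powerset, z ^ Z.card := by
    have h := Finset.sum_pow_mul_eq_add_pow z 1 (A ∩ B)
    rw [add_comm 1 z, ← h]
    exact Finset.sum_congr rfl fun Z _ => by rw [one_pow, mul_one]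
  rw [h1, ← Finset.sum_filter]
  refine Finset.sum_congr ?_ fun _ _ => rfl
  ext Z
  rw [Finset.mem_powerset, Finset.mem_filter, Finset.mem_powerset, Finset.subset_inter_iff]

private theorem inner {α κ : Type} [DecidableEq α] [DecidableEq κ] (J : Finset κ)
    (K : κ → Finset α) (ρ' : ℝ) (l₁ M : ℕ) (hM : 1 ≤ M) (hρ : 0 < ρ')
    (hl : 2 * (l₁ : ℝ) ≤ M * ρ') (hS : Spr ρ' J K) (hK : ∀ j ∈ J, (K j).card ≤ l₁) (i : κ)
    (hi : i ∈ J) :
    ∑ j ∈ J, (((M : ℝ) + 2) / M) ^ (K i ∩ K j).card ≤ Real.exp 1 * J.card := by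
  have hM' : (0 : ℝ) < M := by exact_mod_cast hM
  have hq : ((M : ℝ) + 2) / M = 1 + 2 / M := by field_simp
  rw [hq]
  have h1 : ∀ j ∈ J, (1 + 2 / (M : ℝ)) ^ (K i ∩ K j).card =
      ∑ Z ∈ (K i).powerset, if Z ⊆ K j then (2 / (M : ℝ)) ^ Z.card else 0 :=
    fun j _ => pw _ _ _
  rw [Finset.sum_congr rfl h1, Finset.sum_comm]
  have h2 : ∀ Z ∈ (K i).powerset, ∑ j ∈ J, (if Z ⊆ K j then (2 / (M : ℝ)) ^ Z.card else 0) ≤
      (J.card : ℝ) * (2 / (M : ℝ) / ρ') ^ Z.card := by
    intro Z _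
    rw [← Finset.sum_filter, Finset.sum_const, nsmul_eq_mul]
    have h3 : ((J.filter fun j => Z ⊆ K j).card : ℝ) * ρ' ^ Z.card ≤ J.card := by
      rcases Z.eq_empty_or_nonempty with h0 | h0
      · rw [h0, Finset.card_empty, pow_zero, mul_one]
        exact_mod_cast Finset.card_filter_le _ _
      · exact hS Z h0
    have h4 : (0 : ℝ) < ρ' ^ Z.card := pow_pos hρ _
    rw [div_pow (2 / (M : ℝ)) ρ', ← mul_div_assoc (J.card : ℝ), le_div_iff₀ h4]
    have h5 : (0 : ℝ) ≤ (2 / (M : ℝ)) ^ Z.card := by positivity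
    calc ((J.filter fun j => Z ⊆ K j).card : ℝ) * (2 / (M : ℝ)) ^ Z.card * ρ' ^ Z.card
        = ((J.filter fun j => Z ⊆ K j).card : ℝ) * ρ' ^ Z.card * (2 / (M : ℝ)) ^ Z.card := by ring
      _ ≤ J.card * (2 / (M : ℝ)) ^ Z.card := by gcongr
  refine (Finset.sum_le_sum h2).trans ?_
  rw [← Finset.mul_sum]
  have h6 : ∑ Z ∈ (K i).powerset, (2 / (M : ℝ) / ρ') ^ Z.card = (2 / (M : ℝ) / ρ' + 1) ^
      (K i).card := by
    rw [← Finset.sum_pow_mul_eq_add_pow]
    exact Finset.sum_congr rfl fun Z _ => by rw [one_pow, mul_one]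
  rw [h6, mul_comm]
  refine mul_le_mul_of_nonneg_right ?_ (Nat.cast_nonneg _)
  have h7 : (0 : ℝ) ≤ 2 / (M : ℝ) / ρ' := by positivity
  calc (2 / (M : ℝ) / ρ' + 1) ^ (K i).card ≤ Real.exp (2 / (M : ℝ) / ρ') ^ (K i).card := by
        gcongr
        exact Real.add_one_le_exp _
    _ = Real.exp ((K i).card * (2 / (M : ℝ) / ρ')) := by rw [Real.exp_nat_mul]
    _ ≤ Real.exp 1 := by
      refine Real.exp_le_exp.2 ?_
      have h8 : ((K i).card : ℝ) ≤ l₁ := by exact_mod_cast hK i hi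
      calc ((K i).card : ℝ) * (2 / (M : ℝ) / ρ') ≤ l₁ * (2 / (M : ℝ) / ρ') := by gcongr
        _ = 2 * l₁ / (M * ρ') := by
          field_simp
        _ ≤ 1 := by
          rw [div_le_one (by positivity)]
          exact hl

end Pool.Agent.EfcA.SqnM

namespace Pool.Agent.EfcA

open SqnM

theorem stmtSqn : StmtSqn := by
  intro α κ _ _ _ J K ρ' l₁ M hM hρ hl hS hK
  have hM' : (0 : ℝ) < M := by exact_mod_cast hM
  refine ⟨?_, ?_⟩
  · unfold hsum
    rw [Finset.sum_comm, Finset.sum_congr rfl fun j _ => count hM (K j), Finset.sum_const,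
      nsmul_eq_mul]
  · have h1 : ∀ c : α → Fin (M + 2), hsum M J K c ^ 2 = ∑ i ∈ J, ∑ j ∈ J,
        (((M : ℝ) + 2) / M) ^ (K i ∩ K j).card *
          (if Disjoint (K i ∪ K j) (Wn c 0 ∪ Wn c 1) then
            (((M : ℝ) + 2) / M) ^ (K i ∪ K j).card else 0) := by
      intro c
      unfold hsum
      rw [sq, Finset.sum_mul_sum]
      refine Finset.sum_congr rfl fun i _ => Finset.sum_congr rfl fun j _ => ?_
      by_cases h2 : Disjoint (K i) (Wn c 0 ∪ Wn c 1)
      · by_cases h3 : Disjoint (K j) (Wn c 0 ∪ Wn c 1)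
        · rw [if_pos h2, if_pos h3, if_pos (Finset.disjoint_union_left.2 ⟨h2, h3⟩), ← pow_add,
            ← pow_add]
          congr 1
          have := Finset.card_union_add_card_inter (K i) (K j)
          omega
        · rw [if_neg h3, if_neg fun h => h3 (Finset.disjoint_union_left.1 h).2, mul_zero, mul_zero]
      · rw [if_neg h2, if_neg fun h => h2 (Finset.disjoint_union_left.1 h).1, zero_mul, mul_zero]
    rw [Finset.sum_congr rfl fun c _ => h1 c, Finset.sum_comm]
    have h4 : ∀ i ∈ J, ∑ c : α → Fin (M + 2), ∑ j ∈ J,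
        (((M : ℝ) + 2) / M) ^ (K i ∩ K j).card *
          (if Disjoint (K i ∪ K j) (Wn c 0 ∪ Wn c 1) then
            (((M : ℝ) + 2) / M) ^ (K i ∪ K j).card else 0) ≤
        Real.exp 1 * J.card * ((M : ℝ) + 2) ^ Fintype.card α := by
      intro i hi
      rw [Finset.sum_comm]
      have h5 : ∀ j ∈ J, ∑ c : α → Fin (M + 2),
          (((M : ℝ) + 2) / M) ^ (K i ∩ K j).card *
            (if Disjoint (K i ∪ K j) (Wn c 0 ∪ Wn c 1) then
              (((M : ℝ) + 2) / M) ^ (K i ∪ K j).card else 0) =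
          (((M : ℝ) + 2) / M) ^ (K i ∩ K j).card * ((M : ℝ) + 2) ^ Fintype.card α := by
        intro j _
        rw [← Finset.mul_sum, count hM]
      rw [Finset.sum_congr rfl h5, ← Finset.sum_mul]
      exact mul_le_mul_of_nonneg_right (inner J K ρ' l₁ M hM hρ hl hS hK i hi) (by positivity)
    refine (Finset.sum_le_sum h4).trans (le_of_eq ?_)
    rw [Finset.sum_const, nsmul_eq_mul]
    ring

end Pool.Agent.EfcA
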