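import Pool.Agent.Lib.MP_efc1da_coA.Spec

/-!
# Deleting vertices, almost all uniformities: the induction step
-/

set_option autoImplicit false

namespace Pool.Agent.EfcA

open Pool.Agent.Efc

noncomputable section

namespace StpM

/-- Spreadness of the kernels of a large subfamily. -/
private theorem spr_aux {α : Type} [DecidableEq α] (D P : Finset (Finset α))
    (κ : Finset α → Finset α) (S : Finset α) (R a : ℝ) (hR : 0 < R) (ha : 1 ≤ a) (hDP : D ⊆ P)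
    (hκ : ∀ A ∈ D, κ A ⊆ A) (hspr : SprOver R P S) (hcard : (P.card : ℝ) ≤ a * D.card) :
    Spr (R / a) D (fun A => κ A \ S) := by
  intro T hT
  have ha0 : 0 < a := by linarith
  by_cases hTS : Disjoint T S
  · have hsub : D.filter (fun A => T ⊆ κ A \ S) ⊆ up P T := by
      intro A hA
      rw [Finset.mem_filter] at hA
      rw [up, Finset.mem_filter]
      exact ⟨hDP hA.1, (hA.2.trans Finset.sdiff_subset).trans (hκ A hA.1)⟩
    have h1 : ((D.filter (fun A => T ⊆ κ A \ S)).card : ℝ) ≤ (up P T).card := by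
      exact_mod_cast Finset.card_le_card hsub
    have h2 := hspr T hTS
    have hRT : 0 < R ^ T.card := pow_pos hR _
    have haT : a ≤ a ^ T.card := by
      have h3 : a ^ 1 ≤ a ^ T.card := pow_le_pow_right₀ ha (Finset.card_pos.2 hT)
      rwa [pow_one] at h3
    have haT0 : 0 < a ^ T.card := pow_pos ha0 _
    rw [div_pow]
    calc ((D.filter (fun A => T ⊆ κ A \ S)).card : ℝ) * (R ^ T.card / a ^ T.card)
        ≤ ((up P T).card : ℝ) * (R ^ T.card / a ^ T.card) :=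
          mul_le_mul_of_nonneg_right h1 (by positivity)
      _ = ((up P T).card : ℝ) * R ^ T.card / a ^ T.card := by ring
      _ ≤ a * D.card / a ^ T.card := by
          apply div_le_div_of_nonneg_right (h2.trans hcard) haT0.le
      _ ≤ D.card := by
          rw [div_le_iff₀ haT0, mul_comm]
          exact mul_le_mul_of_nonneg_left haT (Nat.cast_nonneg _)
  · have h0 : D.filter (fun A => T ⊆ κ A \ S) = ∅ := by
      rw [Finset.filter_eq_empty_iff]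
      intro A _ hA
      apply hTS
      exact Finset.disjoint_of_subset_left hA Finset.sdiff_disjoint
    rw [h0, Finset.card_empty, Nat.cast_zero, zero_mul]
    exact Nat.cast_nonneg _

end StpM

open StpM in
theorem stmtStp : StmtCrx → StmtPr1 → StmtPr2 → StmtPr3 → StmtStp := by
  intro hCrx hPr1 hPr2 hPr3 α _ _ F C f R Rs θs r Rss l₀ l₁ m M hC hf hBd hR hr hl₀ hl₁ hm hr1 hRs
    h1l₀ h1l₁ h1M h8 hθ h4 h2l₀ h6 h2l₁ hlast hQs S P hPne hPF hPS hspr hPc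
  by_contra hcon
  push Not at hcon
  have hR0 : 0 < R := by linarith
  have hr0 : 0 < r := by linarith
  obtain ⟨S₁, P₁, hS₁, hP₁F, hP₁ne, hP₁, hspr₁, hlt, hPQ⟩ :=
    hPr1 α F C f R r m S P hC hf hBd hr hm hr1 hR0 hPne hPF hPS hspr hcon
  obtain ⟨Q, hQ⟩ : ∃ Q, Q = P.filter fun A => Disjoint A S₁ := ⟨_, rfl⟩
  rw [← hQ] at hPQ
  have hQP : Q ⊆ P := by
    rw [hQ]
    exact Finset.filter_subset _ _
  have hPpos : (0 : ℝ) < P.card := by exact_mod_cast Finset.card_pos.2 hPne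
  have hQne : Q.Nonempty := by
    rw [← Finset.card_pos]
    have h1 : (0 : ℝ) < Q.card := by linarith
    exact_mod_cast h1
  obtain ⟨D₀, κ₀, hD₀, hD₀ne, hD₀c, hκ₀, hκ₀c, hκ₀a⟩ :=
    hPr2 α F C f Rs θs l₀ Q hC hf hBd hRs h8 hl₀ hθ hQs (hQP.trans hPF) hQne (hPc.trans hPQ)
  have hl₀1 : (1 : ℝ) ≤ l₀ := by exact_mod_cast h1l₀
  obtain ⟨D₁, κ₁, hD₁, hD₁ne, hD₁c, hκ₁, hκ₁c, hκ₁a⟩ :=
    hPr3 α F C f R Rss r l₀ l₁ m P₁ hC hf hBd (by linarith) hr1 hl₁ h4 h2l₀ hP₁F hP₁ne hlt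
  have hD₀c' : 3 * (Q.card : ℝ) ≤ 4 * D₀.card := by exact_mod_cast hD₀c
  have hD₁c' : 3 * (P₁.card : ℝ) ≤ 4 * D₁.card := by exact_mod_cast hD₁c
  have hD₀0 : (0 : ℝ) ≤ D₀.card := Nat.cast_nonneg _
  have hD₁0 : (0 : ℝ) ≤ D₁.card := Nat.cast_nonneg _
  have hsp0 : Spr (R / 4) D₀ (fun A => κ₀ A \ S) :=
    spr_aux D₀ P κ₀ S R 4 hR0 (by norm_num) (hD₀.trans hQP) hκ₀ hspr (by linarith)
  have hsp1 : Spr (r / 2) D₁ (fun A => κ₁ A \ S₁) :=
    spr_aux D₁ P₁ κ₁ S₁ r 2 hr0 (by norm_num) hD₁ hκ₁ hspr₁ (by linarith)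
  obtain ⟨A, hA, hAc⟩ := hCrx α (Finset α) (Finset α) D₀ (fun A => κ₀ A \ S) D₁
    (fun A => κ₁ A \ S₁) (R / 4) (r / 2) l₀ l₁ M h1l₀ h1M (by positivity) h6 (by positivity) h2l₁
    hD₀ne hsp0 (fun A hA => (Finset.card_le_card Finset.sdiff_subset).trans (hκ₀c A hA)) hD₁ne hsp1
    (fun A hA => (Finset.card_le_card Finset.sdiff_subset).trans (hκ₁c A hA))
  have hAS₁ : Disjoint A S₁ := by
    have h1 := hD₀ hA
    rw [hQ, Finset.mem_filter] at h1
    exact h1.2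
  have hsub : (D₁.filter fun B => Disjoint (κ₁ B \ S₁) (κ₀ A \ S)) ⊆
      D₁.filter fun B => Disjoint (κ₁ B) (κ₀ A) := by
    intro B hB
    rw [Finset.mem_filter] at hB ⊢
    refine ⟨hB.1, ?_⟩
    rw [Finset.disjoint_left]
    intro x hx hx'
    have hBS : Disjoint B S := (hP₁ B (hD₁ hB.1)).2
    have hxS : x ∉ S := fun h => Finset.disjoint_left.1 hBS (hκ₁ B hB.1 hx) h
    have hxS₁ : x ∉ S₁ := fun h => Finset.disjoint_left.1 hAS₁ (hκ₀ A hA hx') h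
    exact Finset.disjoint_left.1 hB.2 (Finset.mem_sdiff.2 ⟨hx, hxS₁⟩)
      (Finset.mem_sdiff.2 ⟨hx', hxS⟩)
  have h1 : ((D₁.filter fun B => Disjoint (κ₁ B \ S₁) (κ₀ A \ S)).card : ℝ) ≤
      (D₁.filter fun B => Disjoint (κ₁ B) (κ₀ A)).card := by
    exact_mod_cast Finset.card_le_card hsub
  have h2 := hκ₁a (κ₀ A) (hκ₀c A hA)
  have h3 := hκ₀a A hA
  have hw : 0 < ((M : ℝ) / (M + 2)) ^ l₁ := by
    have hM : (0 : ℝ) < M := by exact_mod_cast h1M
    positivity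
  have hrm : 0 < r ^ m := pow_pos hr0 m
  have h5 : ((M : ℝ) / (M + 2)) ^ l₁ * D₁.card ≤ 4 * (Real.exp (-Rs) * f) := by
    have h6 := hAc.trans h1
    linarith
  have h7 : ((M : ℝ) / (M + 2)) ^ l₁ * (Real.exp (-R) * f) ≤
      ((M : ℝ) / (M + 2)) ^ l₁ * (r ^ m * (4 / 3 * D₁.card)) := by
    apply mul_le_mul_of_nonneg_left _ hw.le
    refine hlt.le.trans ?_
    apply mul_le_mul_of_nonneg_left _ hrm.le
    linarith
  have h9 : r ^ m * (4 / 3) * (((M : ℝ) / (M + 2)) ^ l₁ * D₁.card) ≤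
      r ^ m * (4 / 3) * (4 * (Real.exp (-Rs) * f)) :=
    mul_le_mul_of_nonneg_left h5 (by positivity)
  have h10 := mul_lt_mul_of_pos_right hlast hf
  have e1 : ((M : ℝ) / (M + 2)) ^ l₁ * (r ^ m * (4 / 3 * D₁.card)) =
      r ^ m * (4 / 3) * (((M : ℝ) / (M + 2)) ^ l₁ * D₁.card) := by ring
  have e2 : r ^ m * (4 / 3) * (4 * (Real.exp (-Rs) * f)) =
      (16 / 3) * Real.exp (-Rs) * r ^ m * f := by ring
  have e3 : ((M : ℝ) / (M + 2)) ^ l₁ * (Real.exp (-R) * f) =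
      ((M : ℝ) / (M + 2)) ^ l₁ * Real.exp (-R) * f := by ring
  rw [e1] at h7
  rw [e2] at h9
  rw [e3] at h7
  linarith

end

end Pool.Agent.EfcA
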