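import Pool.Agent.Lib.MP_efc1da_coA.Spec

/-!
# SZA: the size of a kernel
-/

set_option autoImplicit false

namespace Pool.Agent.EfcA

theorem stmtSza : StmtSza := by
  intro α _ _ F C f r S hC hf hr hB hS
  have hpos : (0 : ℝ) < Real.exp 2 * C * r := by positivity
  have hs : (0 : ℝ) < S.card := hpos.trans hS
  have hne : S.Nonempty := by
    rw [← Finset.card_pos]
    exact_mod_cast hs
  have h1 := hB S hne
  have h2 : C * r / S.card ≤ Real.exp (-2) := by
    rw [div_le_iff₀ hs, Real.exp_neg, ← div_eq_inv_mul, le_div_iff₀ (Real.exp_pos 2)]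
    linarith
  calc r ^ S.card * (up F S).card ≤ r ^ S.card * ((C / S.card) ^ S.card * f) :=
        mul_le_mul_of_nonneg_left h1 (by positivity)
    _ = (C * r / S.card) ^ S.card * f := by
        rw [← mul_assoc, ← mul_pow]
        congr 2
        ring
    _ ≤ Real.exp (-2) ^ S.card * f := by
        refine mul_le_mul_of_nonneg_right (pow_le_pow_left₀ (by positivity) h2 _) hf.le
    _ = Real.exp (-(2 * (S.card : ℝ))) * f := by
        rw [← Real.exp_nat_mul]
        congr 2
        ring

end Pool.Agent.EfcA
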