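import Pool.Agent.Lib.MP_efc1da_coA.Spec

/-!
# The covering number of the new family
-/

set_option autoImplicit false

namespace Pool.Agent.EfcA

open Pool.Agent.Efc

noncomputable section

namespace UpcM

variable {α : Type} {k u : ℕ}

/-- The group of a point: the old point of a copy, the number of a block. -/
private def grp (p : Pt α k u) : α ⊕ Fin u :=
  match p with
  | Sum.inl v => Sum.inl v
  | Sum.inr (Sum.inl (v, _)) => Sum.inl v
  | Sum.inr (Sum.inr (l, _)) => Sum.inr l

variable [DecidableEq α]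

private theorem grp_cop {i : α} {p : Pt α k u} (h : p ∈ cop k u i) : grp p = Sum.inl i := by
  unfold cop at h
  rcases Finset.mem_insert.1 h with rfl | h
  · rfl
  · obtain ⟨j, -, rfl⟩ := Finset.mem_image.1 h
    rfl

private theorem grp_blk {s : ℕ} {l : Fin u} {p : Pt α k u} (h : p ∈ blk k u s l) :
    grp p = Sum.inr l := by
  unfold blk at h
  obtain ⟨j, -, rfl⟩ := Finset.mem_image.1 h
  rfl

private theorem card_cop (i : α) : (cop k u i : Finset (Pt α k u)).card = u + 1 := by
  unfold cop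
  rw [Finset.card_insert_of_notMem, Finset.card_image_of_injective, Finset.card_univ,
    Fintype.card_fin]
  · intro j j' h
    have h1 : (i, j) = (i, j') := Sum.inl.inj (Sum.inr.inj h)
    exact (Prod.mk.inj h1).2
  · intro h
    obtain ⟨j, -, h⟩ := Finset.mem_image.1 h
    exact Sum.inr_ne_inl h

private theorem card_blk (s : ℕ) (l : Fin u) :
    k + u + 1 - s - l ≤ (blk k u s l : Finset (Pt α k u)).card := by
  unfold blk
  rw [Finset.card_image_of_injective]
  · have hle : k + u + 1 - s - l ≤ k + u + 1 := by omega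
    have h1 : ((Finset.univ : Finset (Fin (k + u + 1 - s - l))).map (Fin.castLEEmb hle)).card =
        k + u + 1 - s - l := by
      rw [Finset.card_map, Finset.card_univ, Fintype.card_fin]
    rw [← h1]
    refine Finset.card_le_card fun j hj => ?_
    obtain ⟨i, -, rfl⟩ := Finset.mem_map.1 hj
    refine Finset.mem_filter.2 ⟨Finset.mem_univ _, ?_⟩
    have := i.2
    change (i : ℕ) + s + (l : ℕ) < k + u + 1
    omega
  · intro j j' h
    have h1 : (l, j) = (l, j') := Sum.inr.inj (Sum.inr.inj h)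
    exact (Prod.mk.inj h1).2

/-- The number of points of `D` at the old point `v`. -/
private def ga (D : Finset (Pt α k u)) (v : α) : ℕ := (D.filter fun p => grp p = Sum.inl v).card

/-- The number of points of `D` in the block `l`. -/
private def gb (D : Finset (Pt α k u)) (l : Fin u) : ℕ :=
  (D.filter fun p => grp p = Sum.inr l).card

private theorem card_D [Fintype α] (D : Finset (Pt α k u)) :
    D.card = ∑ v, ga D v + ∑ l, gb D l := by
  have h := Finset.card_eq_sum_card_fiberwise (s := D) (t := (Finset.univ : Finset (α ⊕ Fin u)))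
    (f := grp) fun p _ => Finset.mem_coe.2 (Finset.mem_univ _)
  rw [h, Fintype.sum_sum_type]
  rfl

private theorem ga_pos {D : Finset (Pt α k u)} {v : α} {p : Pt α k u} (hp : p ∈ D)
    (h : grp p = Sum.inl v) : 1 ≤ ga D v :=
  Finset.card_pos.2 ⟨p, Finset.mem_filter.2 ⟨hp, h⟩⟩

private theorem gb_pos {D : Finset (Pt α k u)} {l : Fin u} {p : Pt α k u} (hp : p ∈ D)
    (h : grp p = Sum.inr l) : 1 ≤ gb D l :=
  Finset.card_pos.2 ⟨p, Finset.mem_filter.2 ⟨hp, h⟩⟩

private theorem ga_cop {D : Finset (Pt α k u)} {i : α} (h : cop k u i ⊆ D) : u + 1 ≤ ga D i := by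
  rw [← card_cop (k := k) (u := u) i]
  exact Finset.card_le_card fun p hp => Finset.mem_filter.2 ⟨h hp, grp_cop hp⟩

private theorem gb_blk {D : Finset (Pt α k u)} {s : ℕ} {l : Fin u} (h : blk k u s l ⊆ D) :
    k + u + 1 - s - l ≤ gb D l :=
  (card_blk s l).trans
    (Finset.card_le_card fun p hp => Finset.mem_filter.2 ⟨h hp, grp_blk hp⟩)

variable [Fintype α]

private theorem sum_ga {D : Finset (Pt α k u)} {E : Finset α} (h : ∀ v ∈ E, 1 ≤ ga D v) :
    E.card ≤ ∑ v, ga D v := by
  calc E.card = ∑ v ∈ E, 1 := by rw [Finset.sum_const, smul_eq_mul, mul_one]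
    _ ≤ ∑ v ∈ E, ga D v := Finset.sum_le_sum h
    _ ≤ ∑ v, ga D v := Finset.sum_le_sum_of_subset (Finset.subset_univ E)

private theorem sum_ga' {D : Finset (Pt α k u)} {E : Finset α} {i : α}
    (h : ∀ v ∈ E, 1 ≤ ga D v) (hi : cop k u i ⊆ D) : E.card + u ≤ ∑ v, ga D v := by
  have h1 : (insert i E).card + u ≤ ∑ v ∈ insert i E, ga D v := by
    have hE : ∀ v ∈ (insert i E).erase i, 1 ≤ ga D v := fun v hv => by
      rcases Finset.mem_insert.1 (Finset.mem_of_mem_erase hv) with rfl | hv'
      · exact absurd rfl (Finset.ne_of_mem_erase hv)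
      · exact h v hv'
    have h2 : ((insert i E).erase i).card ≤ ∑ v ∈ (insert i E).erase i, ga D v := by
      calc ((insert i E).erase i).card = ∑ v ∈ (insert i E).erase i, 1 := by
            rw [Finset.sum_const, smul_eq_mul, mul_one]
        _ ≤ _ := Finset.sum_le_sum hE
    have h3 := Finset.card_erase_add_one (Finset.mem_insert_self i E)
    have h4 := Finset.sum_erase_add (insert i E) (fun v => ga D v) (Finset.mem_insert_self i E)
    have h5 := ga_cop hi
    omega
  have h6 : E.card ≤ (insert i E).card := Finset.card_le_card (Finset.subset_insert i E)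
  have h7 : ∑ v ∈ insert i E, ga D v ≤ ∑ v, ga D v :=
    Finset.sum_le_sum_of_subset (Finset.subset_univ _)
  omega

/-- The trace of `D` on the old points. -/
private def str (D : Finset (Pt α k u)) (S : Finset α) (x : α) : Finset α :=
  Finset.univ.filter fun v => if v ∈ S.erase x then (cop k u v ∩ D).Nonempty else Sum.inl v ∈ D

private theorem mem_str_old {D : Finset (Pt α k u)} {S : Finset α} {x v : α}
    (h : Sum.inl v ∈ D) : v ∈ str D S x := by
  refine Finset.mem_filter.2 ⟨Finset.mem_univ _, ?_⟩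
  split_ifs with hv
  · exact ⟨Sum.inl v, Finset.mem_inter.2 ⟨Finset.mem_insert_self _ _, h⟩⟩
  · exact h

private theorem mem_str_cop {D : Finset (Pt α k u)} {S : Finset α} {x v : α} {p : Pt α k u}
    (hv : v ∈ S.erase x) (hp : p ∈ cop k u v) (h : p ∈ D) : v ∈ str D S x := by
  refine Finset.mem_filter.2 ⟨Finset.mem_univ _, ?_⟩
  rw [if_pos hv]
  exact ⟨p, Finset.mem_inter.2 ⟨hp, h⟩⟩

private theorem str_ga {D : Finset (Pt α k u)} {S : Finset α} {x v : α} (h : v ∈ str D S x) :
    1 ≤ ga D v := by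
  have h' := (Finset.mem_filter.1 h).2
  split_ifs at h' with hv
  · obtain ⟨p, hp⟩ := h'
    exact ga_pos (Finset.mem_inter.1 hp).2 (grp_cop (Finset.mem_inter.1 hp).1)
  · exact ga_pos h' rfl

section Main

variable {F : Finset (Finset α)} {S : Finset α} {x : α} {D : Finset (Pt α k u)}

/-- The kind 3. -/
private theorem meet3 (hD : ∀ B, Mem k u F S x B → ¬ Disjoint B D) {A : Finset α} (hA : A ∈ F)
    (hxA : x ∉ A) (hAS : ¬ Disjoint A S) : ∃ v ∈ A, v ∈ str D S x := by
  obtain ⟨i, hiA, hiS⟩ := Finset.not_disjoint_iff.1 hAS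
  have hi : i ∈ S.erase x := Finset.mem_erase.2 ⟨fun h => hxA (by rw [← h]; exact hiA), hiS⟩
  obtain ⟨p, hp, hpD⟩ := Finset.not_disjoint_iff.1
    (hD _ (Or.inr (Or.inr (Or.inl ⟨A, hA, i, hi, hxA, hiA, rfl⟩))))
  rcases Finset.mem_union.1 hp with hp | hp
  · obtain ⟨v, hv, rfl⟩ := Finset.mem_image.1 hp
    exact ⟨v, hv, mem_str_old hpD⟩
  · exact ⟨i, hiA, mem_str_cop hi hp hpD⟩

/-- The kind 1, if no block is contained in `D`. -/
private theorem meet1 (hD : ∀ B, Mem k u F S x B → ¬ Disjoint B D)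
    (hb : ∀ l, ¬ blk k u S.card l ⊆ D) {A : Finset α} (hA : A ∈ F)
    (hxA : x ∈ A ∨ Disjoint A S) : ∃ v ∈ A, v ∈ str D S x := by
  have hy : ∀ l, ∃ p, p ∈ blk k u S.card l ∧ p ∉ D := fun l => Finset.not_subset.1 (hb l)
  choose y hy1 hy2 using hy
  obtain ⟨p, hp, hpD⟩ := Finset.not_disjoint_iff.1
    (hD _ (Or.inl ⟨A, hA, y, hy1, hxA, rfl⟩))
  rcases Finset.mem_union.1 hp with hp | hp
  · obtain ⟨v, hv, rfl⟩ := Finset.mem_image.1 hp
    exact ⟨v, hv, mem_str_old hpD⟩
  · obtain ⟨l, -, rfl⟩ := Finset.mem_image.1 hp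
    exact absurd hpD (hy2 l)

/-- The kind 4. -/
private theorem meet4 (hD : ∀ B, Mem k u F S x B → ¬ Disjoint B D) (hS : S.card ≤ k) (l : Fin u)
    (hb : ∀ j, j < l → ¬ blk k u S.card j ⊆ D) (hc : ∀ i ∈ S.erase x, ¬ cop k u i ⊆ D) :
    1 ≤ gb D l := by
  classical
  have hy : ∀ j, ∃ p, p ∈ (blk k u S.card j : Finset (Pt α k u)) ∧ (j < l → p ∉ D) := by
    intro j
    by_cases hj : j < l
    · obtain ⟨p, hp, hpD⟩ := Finset.not_subset.1 (hb j hj)
      exact ⟨p, hp, fun _ => hpD⟩
    · have hpos : 0 < (blk k u S.card j : Finset (Pt α k u)).card := by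
        refine lt_of_lt_of_le ?_ (card_blk S.card j)
        have := j.2
        omega
      obtain ⟨p, hp⟩ := Finset.card_pos.1 hpos
      exact ⟨p, hp, fun h => absurd h hj⟩
  choose y hy1 hy2 using hy
  have hz : ∀ i, ∃ p : Pt α k u, i ∈ S.erase x → p ∈ cop k u i ∧ p ∉ D := by
    intro i
    by_cases hi : i ∈ S.erase x
    · obtain ⟨p, hp, hpD⟩ := Finset.not_subset.1 (hc i hi)
      exact ⟨p, fun _ => ⟨hp, hpD⟩⟩
    · exact ⟨Sum.inl i, fun h => absurd h hi⟩
  choose z hz using hz
  obtain ⟨p, hp, hpD⟩ := Finset.not_disjoint_iff.1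
    (hD _ (Or.inr (Or.inr (Or.inr ⟨l, z, y, fun i hi => (hz i hi).1, hy1, rfl⟩))))
  rcases Finset.mem_union.1 hp with hp | hp
  · rcases Finset.mem_union.1 hp with hp | hp
    · exact gb_pos hpD (grp_blk hp)
    · obtain ⟨i, hi, rfl⟩ := Finset.mem_image.1 hp
      exact absurd hpD (hz i hi).2
  · obtain ⟨j, hj, rfl⟩ := Finset.mem_image.1 hp
    exact absurd hpD (hy2 j (Finset.mem_filter.1 hj).2)

/-- The covering number. -/
private theorem main (hU : Unif k F) (hF : Efc.Inter F) (hC : Cov k F) (hx : x ∈ S)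
    (hS0 : (up F S).Nonempty) (hD : ∀ B, Mem k u F S x B → ¬ Disjoint B D) :
    k + u ≤ D.card := by
  classical
  obtain ⟨A₁, hA₁⟩ := hS0
  have hA₁F : A₁ ∈ F := (Finset.mem_filter.1 hA₁).1
  have hSA₁ : S ⊆ A₁ := (Finset.mem_filter.1 hA₁).2
  have hk : A₁.card = k := hU A₁ hA₁F
  have hS : S.card ≤ k := by rw [← hk]; exact Finset.card_le_card hSA₁
  have hs1 : 1 ≤ S.card := Finset.card_pos.2 ⟨x, hx⟩
  rw [card_D]
  by_cases hb : ∀ l, ¬ blk k u S.card l ⊆ D
  · have hk' : k ≤ (str D S x).card := by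
      by_contra hlt
      obtain ⟨A, hA, hdis⟩ := hC (str D S x) (not_le.1 hlt)
      have hmeet : ∃ v ∈ A, v ∈ str D S x := by
        by_cases h : x ∈ A ∨ Disjoint A S
        · exact meet1 hD hb hA h
        · rw [not_or] at h
          exact meet3 hD hA h.1 h.2
      obtain ⟨v, hv, hv'⟩ := hmeet
      exact Finset.disjoint_left.1 hdis hv hv'
    by_cases hc : ∀ i ∈ S.erase x, ¬ cop k u i ⊆ D
    · have h1 := sum_ga (D := D) fun v hv => str_ga (S := S) (x := x) hv
      have h2 : u ≤ ∑ l, gb D l := by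
        calc u = ∑ _l : Fin u, 1 := by simp
          _ ≤ _ := Finset.sum_le_sum fun l _ => meet4 hD hS l (fun j _ => hb j) hc
      omega
    · push Not at hc
      obtain ⟨i, -, hi⟩ := hc
      have h1 := sum_ga' (D := D) (fun v hv => str_ga (S := S) (x := x) hv) hi
      omega
  · push Not at hb
    have hex : ∃ n : ℕ, ∃ h : n < u, blk k u S.card ⟨n, h⟩ ⊆ D := by
      obtain ⟨l, hl⟩ := hb
      exact ⟨l, l.2, hl⟩
    obtain ⟨n, ⟨hn, hbn⟩, hmin⟩ : ∃ n : ℕ, (∃ h : n < u, blk k u S.card ⟨n, h⟩ ⊆ D) ∧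
        ∀ m, m < n → ¬ ∃ h : m < u, blk k u S.card ⟨m, h⟩ ⊆ D :=
      ⟨Nat.find hex, Nat.find_spec hex, fun m hm => Nat.find_min hex hm⟩
    have hsz : S.card - 1 ≤ ((str D S x).erase x).card := by
      set E := (str D S x).erase x with hE
      have h1 : k ≤ (insert x (E ∪ (A₁ \ S))).card := by
        by_contra hlt
        obtain ⟨A, hA, hdis⟩ := hC _ (not_le.1 hlt)
        have hxA : x ∉ A := fun h => Finset.disjoint_left.1 hdis h (Finset.mem_insert_self _ _)
        by_cases hAS : Disjoint A S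
        · obtain ⟨v, hv, hv'⟩ := Finset.not_disjoint_iff.1 (hF A hA A₁ hA₁F)
          exact Finset.disjoint_left.1 hdis hv (Finset.mem_insert_of_mem
            (Finset.mem_union_right _ (Finset.mem_sdiff.2 ⟨hv', Finset.disjoint_left.1 hAS hv⟩)))
        · obtain ⟨v, hv, hv'⟩ := meet3 hD hA hxA hAS
          exact Finset.disjoint_left.1 hdis hv (Finset.mem_insert_of_mem
            (Finset.mem_union_left _ (Finset.mem_erase.2 ⟨fun h => hxA (by rw [← h]; exact hv),
              hv'⟩)))
      have h2 := Finset.card_insert_le x (E ∪ (A₁ \ S))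
      have h3 := Finset.card_union_le E (A₁ \ S)
      have h4 : (A₁ \ S).card = k - S.card := by
        rw [Finset.card_sdiff_of_subset hSA₁, hk]
      omega
    have hE' : ∀ v ∈ (str D S x).erase x, 1 ≤ ga D v := fun v hv =>
      str_ga (Finset.mem_of_mem_erase hv)
    by_cases hc : ∀ i ∈ S.erase x, ¬ cop k u i ⊆ D
    · have h1 := sum_ga hE'
      have h2 : (k + u + 1 - S.card - n) + n ≤ ∑ l, gb D l := by
        have h3 : ∑ l : Fin u, (if (l : ℕ) < n then 1 else if (l : ℕ) = n then
            k + u + 1 - S.card - n else 0) ≤ ∑ l, gb D l := by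
          refine Finset.sum_le_sum fun l _ => ?_
          split_ifs with h4 h5
          · refine meet4 hD hS l (fun j hj hsub => ?_) hc
            exact hmin j (lt_trans (Fin.lt_def.1 hj) h4) ⟨j.2, hsub⟩
          · subst h5
            exact gb_blk hbn
          · exact Nat.zero_le _
        refine le_trans (le_of_eq ?_) h3
        have h4 : ∀ (g : ℕ → ℕ), ∑ l : Fin u, g l = ∑ l ∈ Finset.range u, g l := fun g =>
          Fin.sum_univ_eq_sum_range g u
        rw [h4 fun l => if l < n then 1 else if l = n then k + u + 1 - S.card - n else 0]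
        have h5 : (Finset.range u) = Finset.range n ∪ Finset.Ico n u := by
          ext i
          simp only [Finset.mem_range, Finset.mem_union, Finset.mem_Ico]
          omega
        rw [h5, Finset.sum_union, add_comm]
        · congr 1
          · rw [Finset.sum_congr rfl fun l hl => if_pos (Finset.mem_range.1 hl)]
            simp
          · rw [Finset.sum_eq_single_of_mem n (Finset.mem_Ico.2 ⟨le_rfl, hn⟩)]
            · rw [if_neg (lt_irrefl n), if_pos rfl]
            · intro b hb' hbn'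
              have := (Finset.mem_Ico.1 hb').1
              rw [if_neg (by omega), if_neg hbn']
        · rw [Finset.disjoint_left]
          intro a ha hb'
          have h6 := Finset.mem_range.1 ha
          have h7 := (Finset.mem_Ico.1 hb').1
          omega
      omega
    · push Not at hc
      obtain ⟨i, -, hi⟩ := hc
      have h1 := sum_ga' hE' hi
      have h2 : k + u + 1 - S.card - n ≤ ∑ l, gb D l :=
        (gb_blk hbn).trans (Finset.single_le_sum (f := fun l => gb D l) (fun _ _ => Nat.zero_le _)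
          (Finset.mem_univ _))
      omega

end Main

end UpcM

theorem stmtUpc : StmtUpc := by
  classical
  intro α _ _ k u F S x hU hF hC hx hS T hT
  by_contra hcon
  push Not at hcon
  refine absurd (UpcM.main (u := u) (D := T) hU hF hC hx hS fun B hB => ?_) (not_le.2 hT)
  refine hcon B ?_
  unfold fam
  exact Finset.mem_filter.2 ⟨Finset.mem_univ _, hB⟩

end

end Pool.Agent.EfcA
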