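import Mathlib
import Pool.Agent.Lib.MP_efc1da_coA.Spec

/-!
# Module Upf: the up-step, transferred to `Fin n`
-/

set_option autoImplicit false

namespace Pool.Agent.EfcA.UpfM

open Pool.Agent.Efc

/-- Transfer of a family to `Fin n`. -/
theorem trans {β : Type} [Fintype β] (K : ℕ) (G : Finset (Finset β)) (hU : Unif K G)
    (hI : Efc.Inter G) (hC : Cov K G) :
    ∃ (n : ℕ) (F' : Finset (Finset (Fin n))), Unif K F' ∧ Efc.Inter F' ∧ Cov K F' ∧
      F'.card = G.card := by
  classical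
  let e : β ≃ Fin (Fintype.card β) := Fintype.equivFin β
  refine ⟨Fintype.card β, G.map (Finset.mapEmbedding e.toEmbedding).toEmbedding, ?_, ?_, ?_, ?_⟩
  · intro B hB
    obtain ⟨A, hA, rfl⟩ := Finset.mem_map.1 hB
    change (A.map e.toEmbedding).card = K
    rw [Finset.card_map]
    exact hU A hA
  · intro B hB B' hB' hd
    obtain ⟨A, hA, rfl⟩ := Finset.mem_map.1 hB
    obtain ⟨A', hA', rfl⟩ := Finset.mem_map.1 hB'
    apply hI A hA A' hA'
    exact (Finset.disjoint_map e.toEmbedding).1 hd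
  · intro T hT
    have h1 : (T.map e.symm.toEmbedding).card < K := by rwa [Finset.card_map]
    obtain ⟨A, hA, hAT⟩ := hC _ h1
    refine ⟨A.map e.toEmbedding, Finset.mem_map.2 ⟨A, hA, rfl⟩, ?_⟩
    rw [Finset.disjoint_left] at hAT ⊢
    intro y hy hyT
    obtain ⟨a, ha, rfl⟩ := Finset.mem_map.1 hy
    refine hAT ha (Finset.mem_map.2 ⟨_, hyT, ?_⟩)
    change e.symm (e a) = a
    exact e.symm_apply_apply a
  · rw [Finset.card_map]

end Pool.Agent.EfcA.UpfM

namespace Pool.Agent.EfcA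

open Pool.Agent.Efc

theorem stmtUpf : StmtUpu → StmtUpi → StmtUpc → StmtUpn → StmtUpf := by
  intro hu hi hc hn α _ _ k u F S hU hI hC hS hup
  obtain ⟨x, hx⟩ := hS
  obtain ⟨A, hA⟩ := hup
  have hA' : A ∈ F ∧ S ⊆ A := by
    unfold up at hA
    exact Finset.mem_filter.1 hA
  have hSk : S.card ≤ k := by
    rw [← hU A hA'.1]
    exact Finset.card_le_card hA'.2
  obtain ⟨n, F', h1, h2, h3, h4⟩ := UpfM.trans (k + u) (fam k u F S x)
    (hu α k u F S x hU hx hSk) (hi α k u F S x hI hx hSk)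
    (hc α k u F S x hU hI hC hx ⟨A, hA⟩)
  exact ⟨n, F', h1, h2, h3, by rw [h4]; exact hn α k u F S x hx hSk⟩

end Pool.Agent.EfcA
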