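import Mathlib
import Pool.Agent.Lib.MP_efc1da_coA.Spec
import Pool.Agent.Lib.MP_efc1da_coA.Upf

/-!
# The up-step in one file: `stmtUpf2 : StmtUpf`
-/

set_option autoImplicit false

namespace Pool.Agent.EfcA.Upf2M

open Pool.Agent.Efc

/-- graph of `r` over `T`. -/
def upG {α : Type} [DecidableEq α] {u : ℕ} (T : Finset α) (r : α → Fin (u + 1)) :
    Finset (α × Fin (u + 1)) := T.image (fun v => (v, r v))

theorem mem_upG {α : Type} [DecidableEq α] {u : ℕ} (T : Finset α) (r : α → Fin (u + 1))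
    (v : α) (a : Fin (u + 1)) : (v, a) ∈ upG T r ↔ v ∈ T ∧ r v = a := by
  unfold upG
  rw [Finset.mem_image]
  constructor
  · rintro ⟨w, hw, h⟩
    rw [Prod.mk.injEq] at h
    obtain ⟨h1, h2⟩ := h
    subst h1
    exact ⟨hw, h2⟩
  · rintro ⟨h1, h2⟩
    exact ⟨v, h1, by rw [h2]⟩

theorem card_upG {α : Type} [DecidableEq α] {u : ℕ} (T : Finset α) (r : α → Fin (u + 1)) :
    (upG T r).card = T.card := by
  unfold upG
  apply Finset.card_image_of_injective
  intro v w h
  exact (Prod.mk.inj h).1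

/-- transversal of the new blocks. -/
def upY {u : ℕ} {c : Fin u → ℕ} (y : ∀ l, Fin (c l)) : Finset (Σ l : Fin u, Fin (c l)) :=
  Finset.univ.sigma (fun l => {y l})

theorem mem_upY {u : ℕ} {c : Fin u → ℕ} (y : ∀ l, Fin (c l)) (l : Fin u) (b : Fin (c l)) :
    (⟨l, b⟩ : Σ l : Fin u, Fin (c l)) ∈ upY y ↔ b = y l := by
  unfold upY
  rw [Finset.mem_sigma, Finset.mem_singleton]
  constructor
  · rintro ⟨-, h⟩
    exact h
  · intro h
    exact ⟨Finset.mem_univ _, h⟩

theorem card_upY {u : ℕ} {c : Fin u → ℕ} (y : ∀ l, Fin (c l)) : (upY y).card = u := by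
  unfold upY
  rw [Finset.card_sigma]
  simp

/-- block `l` together with the points of the transversal in the earlier blocks. -/
def upB {u : ℕ} {c : Fin u → ℕ} (l : Fin u) (y : ∀ l, Fin (c l)) :
    Finset (Σ l : Fin u, Fin (c l)) :=
  Finset.univ.sigma (fun j => if j = l then Finset.univ else if j < l then {y j} else ∅)

theorem mem_upB {u : ℕ} {c : Fin u → ℕ} (l : Fin u) (y : ∀ l, Fin (c l)) (j : Fin u)
    (b : Fin (c j)) :
    (⟨j, b⟩ : Σ l : Fin u, Fin (c l)) ∈ upB l y ↔ j = l ∨ (j < l ∧ b = y j) := by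
  unfold upB
  rw [Finset.mem_sigma]
  change (j ∈ Finset.univ ∧ b ∈ (if j = l then Finset.univ else if j < l then {y j} else ∅)) ↔ _
  by_cases h1 : j = l
  · rw [if_pos h1]
    simp [h1]
  · rw [if_neg h1]
    by_cases h2 : j < l
    · rw [if_pos h2, Finset.mem_singleton]
      simp [h1, h2]
    · rw [if_neg h2]
      simp [h1, h2]

theorem card_upB {u : ℕ} {c : Fin u → ℕ} (l : Fin u) (y : ∀ l, Fin (c l)) :
    (upB l y).card = c l + l := by
  unfold upB
  rw [Finset.card_sigma]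
  have h1 : ∀ j : Fin u, (if j = l then (Finset.univ : Finset (Fin (c j))) else
      if j < l then {y j} else ∅).card = (if j = l then c l else 0) + (if j < l then 1 else 0) := by
    intro j
    by_cases h1 : j = l
    · subst h1
      simp
    · by_cases h2 : j < l
      · simp [h1, h2]
      · simp [h1, h2]
  rw [Finset.sum_congr rfl (fun j _ => h1 j), Finset.sum_add_distrib]
  rw [Finset.sum_ite_eq' Finset.univ l (fun _ => c l), if_pos (Finset.mem_univ _)]
  congr 1
  rw [← Finset.card_filter]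
  have h2 : (Finset.univ.filter (fun j : Fin u => j < l)) = Finset.Iio l := by
    ext j
    simp
  rw [h2, Fin.card_Iio]

/-- replaced values: `r` on `S'`, `0` elsewhere. -/
def upR {α : Type} [DecidableEq α] {u : ℕ} (S' : Finset α) (r : α → Fin (u + 1)) :
    α → Fin (u + 1) := fun v => if v ∈ S' then r v else 0

/-- members of type (a), (b). -/
def upM {α : Type} [DecidableEq α] {u : ℕ} {c : Fin u → ℕ} (S' A : Finset α)
    (r : α → Fin (u + 1)) (y : ∀ l, Fin (c l)) :
    Finset ((α × Fin (u + 1)) ⊕ (Σ l : Fin u, Fin (c l))) :=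
  (upG A (upR S' r)).disjSum (upY y)

/-- members of type (c). -/
def upC {α : Type} [DecidableEq α] {u : ℕ} (c : Fin u → ℕ) (A : Finset α) (i : α) :
    Finset ((α × Fin (u + 1)) ⊕ (Σ l : Fin u, Fin (c l))) :=
  (upG (A.erase i) (fun _ => 0) ∪ ({i} ×ˢ Finset.univ)).disjSum ∅

/-- members of type (d). -/
def upD {α : Type} [DecidableEq α] {u : ℕ} {c : Fin u → ℕ} (S' : Finset α)
    (r : α → Fin (u + 1)) (l : Fin u) (y : ∀ l, Fin (c l)) :
    Finset ((α × Fin (u + 1)) ⊕ (Σ l : Fin u, Fin (c l))) :=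
  (upG S' r).disjSum (upB l y)

theorem card_upM {α : Type} [DecidableEq α] {u : ℕ} {c : Fin u → ℕ} (S' A : Finset α)
    (r : α → Fin (u + 1)) (y : ∀ l, Fin (c l)) : (upM S' A r y).card = A.card + u := by
  unfold upM
  rw [Finset.card_disjSum, card_upG, card_upY]

theorem card_upC {α : Type} [DecidableEq α] {u : ℕ} (c : Fin u → ℕ) (A : Finset α) (i : α)
    (hi : i ∈ A) : (upC c A i).card = A.card + u := by
  unfold upC
  rw [Finset.card_disjSum, Finset.card_empty, Nat.add_zero, Finset.card_union_of_disjoint]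
  · rw [card_upG, Finset.card_erase_of_mem hi, Finset.card_product, Finset.card_singleton,
      Finset.card_univ, Fintype.card_fin]
    have : 1 ≤ A.card := Finset.card_pos.2 ⟨i, hi⟩
    omega
  · rw [Finset.disjoint_left]
    rintro ⟨v, a⟩ h1 h2
    rw [mem_upG] at h1
    rw [Finset.mem_product, Finset.mem_singleton] at h2
    exact (Finset.mem_erase.1 h1.1).1 h2.1

theorem card_upD {α : Type} [DecidableEq α] {u : ℕ} {c : Fin u → ℕ} (S' : Finset α)
    (r : α → Fin (u + 1)) (l : Fin u) (y : ∀ l, Fin (c l)) :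
    (upD S' r l y).card = S'.card + (c l + l) := by
  unfold upD
  rw [Finset.card_disjSum, card_upG, card_upB]

theorem inl_mem_upM {α : Type} [DecidableEq α] {u : ℕ} {c : Fin u → ℕ} (S' A : Finset α)
    (r : α → Fin (u + 1)) (y : ∀ l, Fin (c l)) (v : α) (a : Fin (u + 1)) :
    Sum.inl (v, a) ∈ upM S' A r y ↔ v ∈ A ∧ upR S' r v = a := by
  unfold upM
  rw [Finset.inl_mem_disjSum, mem_upG]

theorem inr_mem_upM {α : Type} [DecidableEq α] {u : ℕ} {c : Fin u → ℕ} (S' A : Finset α)
    (r : α → Fin (u + 1)) (y : ∀ l, Fin (c l)) (l : Fin u) (b : Fin (c l)) :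
    Sum.inr ⟨l, b⟩ ∈ upM S' A r y ↔ b = y l := by
  unfold upM
  rw [Finset.inr_mem_disjSum, mem_upY]

theorem inl_mem_upC {α : Type} [DecidableEq α] {u : ℕ} (c : Fin u → ℕ) (A : Finset α) (i : α)
    (_hi : i ∈ A) (v : α) (a : Fin (u + 1)) :
    Sum.inl (v, a) ∈ upC c A i ↔ (v ∈ A ∧ a = 0) ∨ v = i := by
  unfold upC
  rw [Finset.inl_mem_disjSum, Finset.mem_union, mem_upG, Finset.mem_product,
    Finset.mem_singleton, Finset.mem_erase]
  constructor
  · rintro (⟨⟨h1, h2⟩, h3⟩ | ⟨h1, h2⟩)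
    · exact Or.inl ⟨h2, h3.symm⟩
    · exact Or.inr h1
  · rintro (⟨h1, h2⟩ | h1)
    · by_cases h3 : v = i
      · exact Or.inr ⟨h3, Finset.mem_univ _⟩
      · exact Or.inl ⟨⟨h3, h1⟩, h2.symm⟩
    · exact Or.inr ⟨h1, Finset.mem_univ _⟩

theorem inr_mem_upC {α : Type} [DecidableEq α] {u : ℕ} (c : Fin u → ℕ) (A : Finset α) (i : α)
    (p : Σ l : Fin u, Fin (c l)) : Sum.inr p ∉ upC c A i := by
  unfold upC
  rw [Finset.inr_mem_disjSum]
  exact Finset.notMem_empty _

theorem inl_mem_upD {α : Type} [DecidableEq α] {u : ℕ} {c : Fin u → ℕ} (S' : Finset α)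
    (r : α → Fin (u + 1)) (l : Fin u) (y : ∀ l, Fin (c l)) (v : α) (a : Fin (u + 1)) :
    Sum.inl (v, a) ∈ upD S' r l y ↔ v ∈ S' ∧ r v = a := by
  unfold upD
  rw [Finset.inl_mem_disjSum, mem_upG]

theorem inr_mem_upD {α : Type} [DecidableEq α] {u : ℕ} {c : Fin u → ℕ} (S' : Finset α)
    (r : α → Fin (u + 1)) (l : Fin u) (y : ∀ l, Fin (c l)) (j : Fin u) (b : Fin (c j)) :
    Sum.inr ⟨j, b⟩ ∈ upD S' r l y ↔ j = l ∨ (j < l ∧ b = y j) := by
  unfold upD
  rw [Finset.inr_mem_disjSum, mem_upB]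

/-- the members of the new family. -/
def upP {α : Type} [DecidableEq α] {u : ℕ} (c : Fin u → ℕ) (F : Finset (Finset α))
    (S : Finset α) (x : α) (B : Finset ((α × Fin (u + 1)) ⊕ (Σ l : Fin u, Fin (c l)))) : Prop :=
  (∃ A ∈ F, ∃ (r : α → Fin (u + 1)) (y : ∀ l, Fin (c l)),
      (S ⊆ A ∨ ((x ∈ A ∨ Disjoint A S) ∧ r = fun _ => 0)) ∧ B = upM (S.erase x) A r y) ∨
  (∃ A ∈ F, x ∉ A ∧ ∃ i ∈ A, i ∈ S.erase x ∧ B = upC c A i) ∨
  (∃ (l : Fin u) (r : α → Fin (u + 1)) (y : ∀ l, Fin (c l)), B = upD (S.erase x) r l y)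

theorem upR_of_not_mem {α : Type} [DecidableEq α] {u : ℕ} (S' : Finset α)
    (r : α → Fin (u + 1)) (v : α) (h : v ∉ S') : upR S' r v = 0 := if_neg h

theorem upR_of_mem {α : Type} [DecidableEq α] {u : ℕ} (S' : Finset α)
    (r : α → Fin (u + 1)) (v : α) (h : v ∈ S') : upR S' r v = r v := if_pos h

theorem upR_zero {α : Type} [DecidableEq α] {u : ℕ} (S' : Finset α)
    (v : α) : upR S' (fun _ => (0 : Fin (u + 1))) v = 0 := by
  unfold upR
  by_cases h : v ∈ S'
  · rw [if_pos h]
  · rw [if_neg h]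

theorem up_inter {α : Type} [DecidableEq α] {u : ℕ} (c : Fin u → ℕ) (F : Finset (Finset α))
    (S : Finset α) (x : α) (hx : x ∈ S) (hF : Efc.Inter F) :
    ∀ B B', upP c F S x B → upP c F S x B' → ¬ Disjoint B B' := by
  have comm : ∀ A ∈ F, ∀ A' ∈ F, ∃ v, v ∈ A ∧ v ∈ A' := by
    intro A hA A' hA'
    have := hF A hA A' hA'
    rw [Finset.not_disjoint_iff] at this
    exact this
  have hxS' : x ∉ S.erase x := Finset.notMem_erase x S
  have MM : ∀ A ∈ F, ∀ A' ∈ F, ∀ (r r' : α → Fin (u + 1)) (y y' : ∀ l, Fin (c l)),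
      (x ∈ A ∨ Disjoint A S) → (x ∈ A' ∨ Disjoint A' S) →
      ¬ Disjoint (upM (S.erase x) A r y) (upM (S.erase x) A' r' y') := by
    intro A hA A' hA' r r' y y' h h'
    rw [Finset.not_disjoint_iff]
    have key : ∃ v, v ∈ A ∧ v ∈ A' ∧ v ∉ S.erase x := by
      by_cases h1 : x ∈ A ∧ x ∈ A'
      · exact ⟨x, h1.1, h1.2, hxS'⟩
      · obtain ⟨v, hv, hv'⟩ := comm A hA A' hA'
        refine ⟨v, hv, hv', ?_⟩
        intro hvS
        have hvS' : v ∈ S := Finset.mem_of_mem_erase hvS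
        rcases h with h | h
        · rcases h' with h' | h'
          · exact h1 ⟨h, h'⟩
          · exact (Finset.disjoint_left.1 h' hv') hvS'
        · exact (Finset.disjoint_left.1 h hv) hvS'
    obtain ⟨v, hv, hv', hvS⟩ := key
    exact ⟨Sum.inl (v, 0), (inl_mem_upM _ _ _ _ _ _).2 ⟨hv, upR_of_not_mem _ _ _ hvS⟩,
      (inl_mem_upM _ _ _ _ _ _).2 ⟨hv', upR_of_not_mem _ _ _ hvS⟩⟩
  have MC : ∀ A ∈ F, ∀ A' ∈ F, ∀ (r : α → Fin (u + 1)) (y : ∀ l, Fin (c l)) (i : α),
      (S ⊆ A ∨ ((x ∈ A ∨ Disjoint A S) ∧ r = fun _ => 0)) → i ∈ A' → i ∈ S.erase x →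
      ¬ Disjoint (upM (S.erase x) A r y) (upC c A' i) := by
    intro A hA A' hA' r y i h hi hi'
    rw [Finset.not_disjoint_iff]
    rcases h with h | ⟨-, h⟩
    · exact ⟨Sum.inl (i, r i), (inl_mem_upM _ _ _ _ _ _).2
        ⟨h (Finset.mem_of_mem_erase hi'), upR_of_mem _ _ _ hi'⟩,
        (inl_mem_upC _ _ _ hi _ _).2 (Or.inr rfl)⟩
    · subst h
      obtain ⟨v, hv, hv'⟩ := comm A hA A' hA'
      exact ⟨Sum.inl (v, 0), (inl_mem_upM _ _ _ _ _ _).2 ⟨hv, upR_zero _ _⟩,
        (inl_mem_upC _ _ _ hi _ _).2 (Or.inl ⟨hv', rfl⟩)⟩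
  have MD : ∀ (A : Finset α) (r r' : α → Fin (u + 1)) (y y' : ∀ l, Fin (c l)) (l : Fin u),
      ¬ Disjoint (upM (S.erase x) A r y) (upD (S.erase x) r' l y') := by
    intro A r r' y y' l
    rw [Finset.not_disjoint_iff]
    exact ⟨Sum.inr ⟨l, y l⟩, (inr_mem_upM _ _ _ _ _ _).2 rfl,
      (inr_mem_upD _ _ _ _ _ _).2 (Or.inl rfl)⟩
  have CC : ∀ A ∈ F, ∀ A' ∈ F, ∀ (i i' : α), i ∈ A → i' ∈ A' →
      ¬ Disjoint (upC c A i) (upC c A' i') := by
    intro A hA A' hA' i i' hi hi'
    rw [Finset.not_disjoint_iff]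
    obtain ⟨v, hv, hv'⟩ := comm A hA A' hA'
    exact ⟨Sum.inl (v, 0), (inl_mem_upC _ _ _ hi _ _).2 (Or.inl ⟨hv, rfl⟩),
      (inl_mem_upC _ _ _ hi' _ _).2 (Or.inl ⟨hv', rfl⟩)⟩
  have CD : ∀ (A : Finset α) (i : α) (r : α → Fin (u + 1)) (l : Fin u) (y : ∀ l, Fin (c l)),
      i ∈ A → i ∈ S.erase x → ¬ Disjoint (upC c A i) (upD (S.erase x) r l y) := by
    intro A i r l y hi hi'
    rw [Finset.not_disjoint_iff]
    exact ⟨Sum.inl (i, r i), (inl_mem_upC _ _ _ hi _ _).2 (Or.inr rfl),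
      (inl_mem_upD _ _ _ _ _ _).2 ⟨hi', rfl⟩⟩
  have DD : ∀ (r r' : α → Fin (u + 1)) (l l' : Fin u) (y y' : ∀ l, Fin (c l)),
      ¬ Disjoint (upD (S.erase x) r l y) (upD (S.erase x) r' l' y') := by
    intro r r' l l' y y'
    rw [Finset.not_disjoint_iff]
    rcases lt_trichotomy l l' with h | h | h
    · exact ⟨Sum.inr ⟨l, y' l⟩, (inr_mem_upD _ _ _ _ _ _).2 (Or.inl rfl),
        (inr_mem_upD _ _ _ _ _ _).2 (Or.inr ⟨h, rfl⟩)⟩
    · exact ⟨Sum.inr ⟨l, y' l⟩, (inr_mem_upD _ _ _ _ _ _).2 (Or.inl rfl),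
        (inr_mem_upD _ _ _ _ _ _).2 (Or.inl h)⟩
    · exact ⟨Sum.inr ⟨l', y l'⟩, (inr_mem_upD _ _ _ _ _ _).2 (Or.inr ⟨h, rfl⟩),
        (inr_mem_upD _ _ _ _ _ _).2 (Or.inl rfl)⟩
  have xd : ∀ (A : Finset α) (r : α → Fin (u + 1)),
      (S ⊆ A ∨ ((x ∈ A ∨ Disjoint A S) ∧ r = fun _ => 0)) → (x ∈ A ∨ Disjoint A S) := by
    rintro A r (h | ⟨h, -⟩)
    · exact Or.inl (h hx)
    · exact h
  intro B B' hB hB'
  rcases hB with ⟨A, hA, r, y, h, rfl⟩ | ⟨A, hA, hxA, i, hi, hi', rfl⟩ | ⟨l, r, y, rfl⟩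
  · rcases hB' with ⟨A', hA', r', y', h', rfl⟩ | ⟨A', hA', hxA', j, hj, hj', rfl⟩ |
      ⟨l', r', y', rfl⟩
    · exact MM A hA A' hA' r r' y y' (xd A r h) (xd A' r' h')
    · exact MC A hA A' hA' r y j h hj hj'
    · exact MD A r r' y y' l'
  · rcases hB' with ⟨A', hA', r', y', h', rfl⟩ | ⟨A', hA', hxA', j, hj, hj', rfl⟩ |
      ⟨l', r', y', rfl⟩
    · intro hd
      exact MC A' hA' A hA r' y' i h' hi hi' hd.symm
    · exact CC A hA A' hA' i j hi hj
    · exact CD A i r' l' y' hi hi'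
  · rcases hB' with ⟨A', hA', r', y', h', rfl⟩ | ⟨A', hA', hxA', j, hj, hj', rfl⟩ |
      ⟨l', r', y', rfl⟩
    · intro hd
      exact MD A' r' r y' y l hd.symm
    · intro hd
      exact CD A' j r l y hj hj' hd.symm
    · exact DD r r' l l' y y'

theorem up_cov {α : Type} [Fintype α] [DecidableEq α] (k u : ℕ) (F : Finset (Finset α))
    (S : Finset α) (x : α) (hx : x ∈ S) (hU : Unif k F) (hI : Efc.Inter F) (hC : Cov k F)
    (A₁ : Finset α) (hA₁ : A₁ ∈ F) (hSA : S ⊆ A₁) :
    ∀ D : Finset ((α × Fin (u + 1)) ⊕ (Σ l : Fin u, Fin (k + u + 1 - S.card - l))),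
      D.card < k + u →
      ∃ B, upP (fun l : Fin u => k + u + 1 - S.card - l) F S x B ∧ Disjoint B D := by
  classical
  intro D hD
  by_contra hno
  have hhit : ∀ B, upP (fun l : Fin u => k + u + 1 - S.card - l) F S x B → ∃ p ∈ B, p ∈ D := by
    intro B hB
    by_contra hcon
    apply hno
    refine ⟨B, hB, ?_⟩
    rw [Finset.disjoint_left]
    intro p hp hp'
    exact hcon ⟨p, hp, hp'⟩
  have hA₁c : A₁.card = k := hU A₁ hA₁
  have hSk : S.card ≤ k := by
    rw [← hA₁c]
    exact Finset.card_le_card hSA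
  have hS1 : 1 ≤ S.card := Finset.card_pos.2 ⟨x, hx⟩
  have hcardD : D.toLeft.card + D.toRight.card = D.card := Finset.card_toLeft_add_card_toRight
  set S' : Finset α := S.erase x with hS'def
  have hS'c : S'.card = S.card - 1 := Finset.card_erase_of_mem hx
  have hxS' : x ∉ S' := Finset.notMem_erase x S
  set E : Finset α := Finset.univ.filter
    (fun v => (Sum.inl (v, 0) ∈ D) ∨ (v ∈ S' ∧ ∃ a, Sum.inl (v, a) ∈ D)) with hEdef
  have hE0 : ∀ v, Sum.inl (v, 0) ∈ D → v ∈ E := by
    intro v hv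
    rw [hEdef, Finset.mem_filter]
    exact ⟨Finset.mem_univ _, Or.inl hv⟩
  have hE1 : ∀ v, v ∈ S' → ∀ a, Sum.inl (v, a) ∈ D → v ∈ E := by
    intro v hv a ha
    rw [hEdef, Finset.mem_filter]
    exact ⟨Finset.mem_univ _, Or.inr ⟨hv, a, ha⟩⟩
  have hE2 : ∀ v, v ∈ E → ∃ a, Sum.inl (v, a) ∈ D := by
    intro v hv
    rw [hEdef, Finset.mem_filter] at hv
    rcases hv.2 with h | ⟨-, h⟩
    · exact ⟨0, h⟩
    · exact h
  -- the left part
  have hEL : E.card ≤ D.toLeft.card := by
    have h1 : E ⊆ D.toLeft.image Prod.fst := by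
      intro v hv
      obtain ⟨a, ha⟩ := hE2 v hv
      exact Finset.mem_image.2 ⟨(v, a), Finset.mem_toLeft.2 ha, rfl⟩
    exact (Finset.card_le_card h1).trans Finset.card_image_le
  have hELR : ∀ i ∈ S', (∀ a, Sum.inl (i, a) ∈ D) → E.card + u ≤ D.toLeft.card := by
    intro i hi hall
    have hsub : ({i} ×ˢ (Finset.univ : Finset (Fin (u + 1)))) ⊆ D.toLeft := by
      rintro ⟨v, a⟩ hva
      rw [Finset.mem_product, Finset.mem_singleton] at hva
      obtain ⟨h1, -⟩ := hva
      change v = i at h1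
      subst h1
      exact Finset.mem_toLeft.2 (hall a)
    have h1 : E.erase i ⊆ (D.toLeft \ ({i} ×ˢ (Finset.univ : Finset (Fin (u + 1))))).image
        Prod.fst := by
      intro v hv
      rw [Finset.mem_erase] at hv
      obtain ⟨a, ha⟩ := hE2 v hv.2
      refine Finset.mem_image.2 ⟨(v, a), ?_, rfl⟩
      rw [Finset.mem_sdiff]
      refine ⟨Finset.mem_toLeft.2 ha, ?_⟩
      intro hmem
      rw [Finset.mem_product, Finset.mem_singleton] at hmem
      exact hv.1 hmem.1
    have h2 : (E.erase i).card ≤ (D.toLeft \ ({i} ×ˢ (Finset.univ : Finset (Fin (u + 1))))).card :=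
      (Finset.card_le_card h1).trans Finset.card_image_le
    rw [Finset.card_sdiff_of_subset hsub, Finset.card_product, Finset.card_singleton,
      Finset.card_univ, Fintype.card_fin, one_mul] at h2
    have h3 : (u + 1) ≤ D.toLeft.card := by
      have := Finset.card_le_card hsub
      rw [Finset.card_product, Finset.card_singleton, Finset.card_univ, Fintype.card_fin,
        one_mul] at this
      exact this
    have h4 : E.card ≤ (E.erase i).card + 1 := by
      have := Finset.pred_card_le_card_erase (s := E) (a := i)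
      omega
    omega
  -- covering of the members not containing x which meet S
  have hCov1 : ∀ A ∈ F, x ∉ A → ¬ Disjoint A S → ∃ v ∈ A, v ∈ E ∧ v ≠ x := by
    intro A hA hxA hd
    rw [Finset.not_disjoint_iff] at hd
    obtain ⟨i, hiA, hiS⟩ := hd
    have hix : i ≠ x := by
      intro h
      exact hxA (h ▸ hiA)
    have hiS' : i ∈ S' := Finset.mem_erase.2 ⟨hix, hiS⟩
    obtain ⟨p, hp, hpD⟩ := hhit _ (Or.inr (Or.inl ⟨A, hA, hxA, i, hiA, hiS', rfl⟩))
    rcases p with ⟨v, a⟩ | q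
    · rw [inl_mem_upC _ _ _ hiA] at hp
      rcases hp with ⟨h1, h2⟩ | h1
      · subst h2
        refine ⟨v, h1, hE0 v hpD, ?_⟩
        intro h
        exact hxA (h ▸ h1)
      · subst h1
        exact ⟨v, hiA, hE1 v hiS' a hpD, hix⟩
    · exact absurd hp (inr_mem_upC _ _ _ _)
  -- positivity of the block sizes
  have hcpos : ∀ l : Fin u, 0 < k + u + 1 - S.card - l := by
    intro l
    have := l.2
    omega
  by_cases hall : ∀ l : Fin u, ∃ b : Fin (k + u + 1 - S.card - l),
      (Sum.inr ⟨l, b⟩ : (α × Fin (u + 1)) ⊕ (Σ l : Fin u, Fin (k + u + 1 - S.card - l))) ∉ D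
  · -- case (I)
    choose y hy using hall
    have hEk : k ≤ E.card := by
      by_contra hlt
      obtain ⟨A, hA, hAE⟩ := hC E (by omega)
      by_cases hcase : x ∈ A ∨ Disjoint A S
      · obtain ⟨p, hp, hpD⟩ := hhit _ (Or.inl ⟨A, hA, fun _ => 0, y, Or.inr ⟨hcase, rfl⟩, rfl⟩)
        rcases p with ⟨v, a⟩ | ⟨l, b⟩
        · rw [inl_mem_upM, upR_zero] at hp
          obtain ⟨h1, h2⟩ := hp
          subst h2
          exact (Finset.disjoint_left.1 hAE h1) (hE0 v hpD)
        · rw [inr_mem_upM] at hp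
          subst hp
          exact hy l hpD
      · have h1 : x ∉ A := fun h => hcase (Or.inl h)
        have h2 : ¬ Disjoint A S := fun h => hcase (Or.inr h)
        obtain ⟨v, hvA, hvE, -⟩ := hCov1 A hA h1 h2
        exact (Finset.disjoint_left.1 hAE hvA) hvE
    by_cases hR : ∃ i ∈ S', ∀ a, Sum.inl (i, a) ∈ D
    · obtain ⟨i, hi, hia⟩ := hR
      have := hELR i hi hia
      omega
    · have hz : ∀ i, ∃ a : Fin (u + 1), i ∈ S' → Sum.inl (i, a) ∉ D := by
        intro i
        by_cases hi : i ∈ S'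
        · by_contra hcon
          apply hR
          refine ⟨i, hi, ?_⟩
          intro a
          by_contra hna
          exact hcon ⟨a, fun _ => hna⟩
        · exact ⟨0, fun h => absurd h hi⟩
      choose z hz using hz
      have hRc : u ≤ D.toRight.card := by
        have h1 : (Finset.univ : Finset (Fin u)) ⊆ D.toRight.image Sigma.fst := by
          intro l _
          obtain ⟨p, hp, hpD⟩ := hhit _ (Or.inr (Or.inr ⟨l, z, y, rfl⟩))
          rcases p with ⟨v, a⟩ | ⟨j, b⟩
          · rw [inl_mem_upD] at hp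
            obtain ⟨h1, h2⟩ := hp
            subst h2
            exact absurd hpD (hz v h1)
          · rw [inr_mem_upD] at hp
            rcases hp with h1 | ⟨h1, h2⟩
            · subst h1
              exact Finset.mem_image.2 ⟨⟨j, b⟩, Finset.mem_toRight.2 hpD, rfl⟩
            · subst h2
              exact absurd hpD (hy j)
        have h2 := (Finset.card_le_card h1).trans Finset.card_image_le
        rw [Finset.card_univ, Fintype.card_fin] at h2
        exact h2
      omega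
  · -- case (II)
    have hex : ∃ l : ℕ, ∃ h : l < u, ∀ b : Fin (k + u + 1 - S.card - (⟨l, h⟩ : Fin u)),
        (Sum.inr ⟨⟨l, h⟩, b⟩ : (α × Fin (u + 1)) ⊕ (Σ l : Fin u, Fin (k + u + 1 - S.card - l)))
          ∈ D := by
      by_contra hcon
      apply hall
      intro l
      by_contra hl
      apply hcon
      refine ⟨l.1, l.2, ?_⟩
      intro b
      by_contra hb
      exact hl ⟨b, hb⟩
    obtain ⟨hl0, hfull⟩ := Nat.find_spec hex
    set l : Fin u := ⟨Nat.find hex, hl0⟩ with hldef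
    have hmin : ∀ j : Fin u, j < l → ∃ b : Fin (k + u + 1 - S.card - j),
        (Sum.inr ⟨j, b⟩ : (α × Fin (u + 1)) ⊕ (Σ l : Fin u, Fin (k + u + 1 - S.card - l)))
          ∉ D := by
      intro j hj
      by_contra hcon
      have hjl : (j : ℕ) < Nat.find hex := hj
      apply Nat.find_min hex hjl
      refine ⟨j.2, ?_⟩
      intro b
      by_contra hb
      exact hcon ⟨b, hb⟩
    have hy : ∀ j : Fin u, ∃ b : Fin (k + u + 1 - S.card - j), j < l →
        (Sum.inr ⟨j, b⟩ : (α × Fin (u + 1)) ⊕ (Σ l : Fin u, Fin (k + u + 1 - S.card - l)))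
          ∉ D := by
      intro j
      by_cases hj : j < l
      · obtain ⟨b, hb⟩ := hmin j hj
        exact ⟨b, fun _ => hb⟩
      · exact ⟨⟨0, hcpos j⟩, fun h => absurd h hj⟩
    choose y hy using hy
    -- E \ x has at least s - 1 points
    have hEx : S.card - 1 ≤ (E.erase x).card := by
      by_contra hlt
      have hT : ((E.erase x) ∪ ({x} ∪ (A₁ \ S))).card < k := by
        have h1 := Finset.card_union_le (E.erase x) ({x} ∪ (A₁ \ S))
        have h2 := Finset.card_union_le ({x} : Finset α) (A₁ \ S)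
        rw [Finset.card_singleton, Finset.card_sdiff_of_subset hSA, hA₁c] at h2
        omega
      obtain ⟨A, hA, hAT⟩ := hC _ hT
      rw [Finset.disjoint_left] at hAT
      have hxA : x ∉ A := by
        intro h
        exact hAT h (Finset.mem_union_right _ (Finset.mem_union_left _
          (Finset.mem_singleton_self x)))
      have hdS : ¬ Disjoint A S := by
        have h1 := hI A hA A₁ hA₁
        rw [Finset.not_disjoint_iff] at h1 ⊢
        obtain ⟨w, hw, hw'⟩ := h1
        refine ⟨w, hw, ?_⟩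
        by_contra hwS
        exact hAT hw (Finset.mem_union_right _ (Finset.mem_union_right _
          (Finset.mem_sdiff.2 ⟨hw', hwS⟩)))
      obtain ⟨v, hvA, hvE, hvx⟩ := hCov1 A hA hxA hdS
      exact hAT hvA (Finset.mem_union_left _ (Finset.mem_erase.2 ⟨hvx, hvE⟩))
    have hEx2 : (E.erase x).card ≤ E.card := Finset.card_le_card (Finset.erase_subset _ _)
    have hYl : (Finset.univ : Finset (Fin (k + u + 1 - S.card - l))).image
        (fun b => (⟨l, b⟩ : Σ l : Fin u, Fin (k + u + 1 - S.card - l))) ⊆ D.toRight := by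
      intro p hp
      rw [Finset.mem_image] at hp
      obtain ⟨b, -, rfl⟩ := hp
      exact Finset.mem_toRight.2 (hfull b)
    have hYc : ((Finset.univ : Finset (Fin (k + u + 1 - S.card - l))).image
        (fun b => (⟨l, b⟩ : Σ l : Fin u, Fin (k + u + 1 - S.card - l)))).card =
        k + u + 1 - S.card - l := by
      rw [Finset.card_image_of_injective, Finset.card_univ, Fintype.card_fin]
      intro b b' h
      exact eq_of_heq (Sigma.mk.inj h).2
    by_cases hR : ∃ i ∈ S', ∀ a, Sum.inl (i, a) ∈ D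
    · obtain ⟨i, hi, hia⟩ := hR
      have h1 := hELR i hi hia
      have h2 := Finset.card_le_card hYl
      rw [hYc] at h2
      have h3 := l.2
      omega
    · have hz : ∀ i, ∃ a : Fin (u + 1), i ∈ S' → Sum.inl (i, a) ∉ D := by
        intro i
        by_cases hi : i ∈ S'
        · by_contra hcon
          apply hR
          refine ⟨i, hi, ?_⟩
          intro a
          by_contra hna
          exact hcon ⟨a, fun _ => hna⟩
        · exact ⟨0, fun h => absurd h hi⟩
      choose z hz using hz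
      have hRc : (l : ℕ) + (k + u + 1 - S.card - l) ≤ D.toRight.card := by
        have h1 : Finset.Iio l ⊆ (D.toRight \
            ((Finset.univ : Finset (Fin (k + u + 1 - S.card - l))).image
            (fun b => (⟨l, b⟩ : Σ l : Fin u, Fin (k + u + 1 - S.card - l))))).image
            Sigma.fst := by
          intro j hj
          rw [Finset.mem_Iio] at hj
          obtain ⟨p, hp, hpD⟩ := hhit _ (Or.inr (Or.inr ⟨j, z, y, rfl⟩))
          rcases p with ⟨v, a⟩ | ⟨j', b⟩
          · rw [inl_mem_upD] at hp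
            obtain ⟨h1, h2⟩ := hp
            subst h2
            exact absurd hpD (hz v h1)
          · rw [inr_mem_upD] at hp
            rcases hp with h1 | ⟨h1, h2⟩
            · subst h1
              refine Finset.mem_image.2 ⟨⟨j', b⟩, ?_, rfl⟩
              rw [Finset.mem_sdiff]
              refine ⟨Finset.mem_toRight.2 hpD, ?_⟩
              intro hmem
              rw [Finset.mem_image] at hmem
              obtain ⟨b', -, hb'⟩ := hmem
              have : l = j' := congrArg Sigma.fst hb'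
              exact absurd hj (by rw [this]; exact lt_irrefl _)
            · subst h2
              exact absurd hpD (hy j' (lt_trans h1 hj))
        have h2 := (Finset.card_le_card h1).trans Finset.card_image_le
        rw [Finset.card_sdiff_of_subset hYl, hYc, Fin.card_Iio] at h2
        have h3 := Finset.card_le_card hYl
        rw [hYc] at h3
        omega
      have h3 := l.2
      omega

theorem up_num {α : Type} [Fintype α] [DecidableEq α] {u : ℕ} (c : Fin u → ℕ)
    (F : Finset (Finset α)) (S : Finset α) (x : α) (hx : x ∈ S)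
    (G : Finset (Finset ((α × Fin (u + 1)) ⊕ (Σ l : Fin u, Fin (c l)))))
    (hG : ∀ B, upP c F S x B → B ∈ G) :
    (up F S).card * (u + 1) ^ (S.card - 1) * ∏ l : Fin u, c l ≤ G.card := by
  classical
  let PR : Finset (α → Fin (u + 1)) :=
    Fintype.piFinset (fun v => if v ∈ S.erase x then Finset.univ else {0})
  let P : Finset (Finset α × (α → Fin (u + 1)) × (∀ l, Fin (c l))) :=
    (up F S) ×ˢ (PR ×ˢ Finset.univ)
  have hPR : PR.card = (u + 1) ^ (S.card - 1) := by
    change (Fintype.piFinset (fun v => if v ∈ S.erase x then Finset.univ else {0})).card = _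
    rw [Fintype.card_piFinset]
    have h1 : ∀ v : α, (if v ∈ S.erase x then (Finset.univ : Finset (Fin (u + 1)))
        else {0}).card = if v ∈ S.erase x then (u + 1) else 1 := by
      intro v
      by_cases h : v ∈ S.erase x
      · rw [if_pos h, if_pos h, Finset.card_univ, Fintype.card_fin]
      · rw [if_neg h, if_neg h, Finset.card_singleton]
    rw [Finset.prod_congr rfl (fun v _ => h1 v), Finset.prod_ite_mem, Finset.univ_inter,
      Finset.prod_const, Finset.card_erase_of_mem hx]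
  have hP : P.card = (up F S).card * (u + 1) ^ (S.card - 1) * ∏ l : Fin u, c l := by
    change ((up F S) ×ˢ (PR ×ˢ (Finset.univ : Finset (∀ l, Fin (c l))))).card = _
    rw [Finset.card_product, Finset.card_product, hPR, Finset.card_univ, Fintype.card_pi]
    rw [mul_assoc]
    congr 2
    apply Finset.prod_congr rfl
    intro l _
    rw [Fintype.card_fin]
  rw [← hP]
  apply Finset.card_le_card_of_injOn (fun p => upM (S.erase x) p.1 p.2.1 p.2.2)
  · intro p hp
    have hp' : p ∈ P := hp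
    rw [Finset.mem_product] at hp'
    have h1 := Finset.mem_filter.1 hp'.1
    exact hG _ (Or.inl ⟨p.1, h1.1, p.2.1, p.2.2, Or.inl h1.2, rfl⟩)
  · rintro ⟨A, r, y⟩ hp ⟨A', r', y'⟩ hp' heq
    change upM (S.erase x) A r y = upM (S.erase x) A' r' y' at heq
    have hp1 : (A, r, y) ∈ P := hp
    have hp2 : (A', r', y') ∈ P := hp'
    rw [Finset.mem_product, Finset.mem_product] at hp1 hp2
    obtain ⟨hA, hr, -⟩ := hp1
    obtain ⟨hA', hr', -⟩ := hp2
    have hSA : S ⊆ A := (Finset.mem_filter.1 hA).2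
    have hSA' : S ⊆ A' := (Finset.mem_filter.1 hA').2
    have hr0 := Fintype.mem_piFinset.1 hr
    have hr0' := Fintype.mem_piFinset.1 hr'
    have hAA : A = A' := by
      ext v
      constructor
      · intro hv
        have h1 : Sum.inl (v, upR (S.erase x) r v) ∈ upM (S.erase x) A r y :=
          (inl_mem_upM _ _ _ _ _ _).2 ⟨hv, rfl⟩
        rw [heq, inl_mem_upM] at h1
        exact h1.1
      · intro hv
        have h1 : Sum.inl (v, upR (S.erase x) r' v) ∈ upM (S.erase x) A' r' y' :=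
          (inl_mem_upM _ _ _ _ _ _).2 ⟨hv, rfl⟩
        rw [← heq, inl_mem_upM] at h1
        exact h1.1
    have hrr : r = r' := by
      funext v
      by_cases hv : v ∈ S.erase x
      · have hvA : v ∈ A := hSA (Finset.mem_of_mem_erase hv)
        have h1 : Sum.inl (v, upR (S.erase x) r v) ∈ upM (S.erase x) A r y :=
          (inl_mem_upM _ _ _ _ _ _).2 ⟨hvA, rfl⟩
        rw [heq, inl_mem_upM, upR_of_mem _ _ _ hv, upR_of_mem _ _ _ hv] at h1
        exact h1.2.symm
      · have h1 := hr0 v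
        have h2 := hr0' v
        rw [if_neg hv, Finset.mem_singleton] at h1 h2
        exact h1.trans h2.symm
    have hyy : y = y' := by
      funext l
      have h1 : Sum.inr ⟨l, y l⟩ ∈ upM (S.erase x) A r y := (inr_mem_upM _ _ _ _ _ _).2 rfl
      rw [heq, inr_mem_upM] at h1
      exact h1
    rw [hAA, hrr, hyy]

end Pool.Agent.EfcA.Upf2M

namespace Pool.Agent.EfcA

open Pool.Agent.Efc Upf2M

/-- The up-step. -/
theorem stmtUpf2 : StmtUpf := by
  intro α _ _ k u F S hU hI hC hS hne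
  classical
  obtain ⟨x, hx⟩ := hS
  obtain ⟨A₁, hA₁⟩ := hne
  have hA₁' := Finset.mem_filter.1 hA₁
  have hSk : S.card ≤ k := by
    rw [← hU A₁ hA₁'.1]
    exact Finset.card_le_card hA₁'.2
  have hS1 : 1 ≤ S.card := Finset.card_pos.2 ⟨x, hx⟩
  let G : Finset (Finset ((α × Fin (u + 1)) ⊕ (Σ l : Fin u, Fin (k + u + 1 - S.card - l)))) :=
    Finset.univ.filter (fun B => upP (fun l : Fin u => k + u + 1 - S.card - l) F S x B)
  have hmem : ∀ B, B ∈ G ↔ upP (fun l : Fin u => k + u + 1 - S.card - l) F S x B := by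
    intro B
    change B ∈ Finset.univ.filter _ ↔ _
    rw [Finset.mem_filter]
    exact ⟨fun h => h.2, fun h => ⟨Finset.mem_univ _, h⟩⟩
  have hGU : Unif (k + u) G := by
    intro B hB
    rw [hmem] at hB
    rcases hB with ⟨A, hA, r, y, -, rfl⟩ | ⟨A, hA, -, i, hi, -, rfl⟩ | ⟨l, r, y, rfl⟩
    · rw [card_upM, hU A hA]
    · rw [card_upC _ _ _ hi, hU A hA]
    · rw [card_upD, Finset.card_erase_of_mem hx]
      have := l.2
      omega
  have hGI : Efc.Inter G := by
    intro B hB B' hB'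
    rw [hmem] at hB hB'
    exact up_inter _ F S x hx hI B B' hB hB'
  have hGC : Cov (k + u) G := by
    intro D hD
    obtain ⟨B, hB, hBD⟩ := up_cov k u F S x hx hU hI hC A₁ hA₁'.1 hA₁'.2 D hD
    exact ⟨B, (hmem B).2 hB, hBD⟩
  have hnum := up_num (fun l : Fin u => k + u + 1 - S.card - l) F S x hx G
    (fun B hB => (hmem B).2 hB)
  obtain ⟨n, F', h1, h2, h3, h4⟩ := UpfM.trans (k + u) G hGU hGI hGC
  refine ⟨n, F', h1, h2, h3, ?_⟩
  rw [h4, Nat.descFactorial_eq_prod_range, Finset.prod_range]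
  exact hnum

end Pool.Agent.EfcA
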