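import Pool.Agent.Lib.MP_efc1da_coA.Spec

/-!
# The new family is intersecting
-/

set_option autoImplicit false

namespace Pool.Agent.EfcA

open Pool.Agent.Efc

noncomputable section

namespace UpiM

variable {α : Type} [Fintype α] [DecidableEq α] {k u : ℕ}

private theorem blk_ne {s : ℕ} (hs : s ≤ k) (l : Fin u) :
    (blk k u s l : Finset (Pt α k u)).Nonempty := by
  refine ⟨Sum.inr (Sum.inr (l, ⟨0, by omega⟩)), ?_⟩
  unfold blk
  refine Finset.mem_image.2 ⟨⟨0, by omega⟩, Finset.mem_filter.2 ⟨Finset.mem_univ _, ?_⟩, rfl⟩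
  have := l.2
  change 0 + s + (l : ℕ) < k + u + 1
  omega

omit [Fintype α] in
private theorem old_mem {A : Finset α} {v : α} (h : v ∈ A) : Sum.inl v ∈ old k u A :=
  Finset.mem_image_of_mem _ h

omit [Fintype α] in
private theorem y_mem (y : Fin u → Pt α k u) (l : Fin u) : y l ∈ Finset.univ.image y :=
  Finset.mem_image_of_mem _ (Finset.mem_univ l)

private theorem pair {F : Finset (Finset α)} {S : Finset α} {x : α} (hF : Efc.Inter F)
    (hx : x ∈ S) (hS : S.card ≤ k) (B B' : Finset (Pt α k u)) (h : Mem k u F S x B)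
    (h' : Mem k u F S x B') : ∃ p, p ∈ B ∧ p ∈ B' := by
  have hcom : ∀ A ∈ F, ∀ A' ∈ F, ∃ v, v ∈ A ∧ v ∈ A' := fun A hA A' hA' =>
    Finset.not_disjoint_iff.1 (hF A hA A' hA')
  have hx' : ∀ A : Finset α, S ⊆ A → x ∈ A \ S.erase x := fun A hA =>
    Finset.mem_sdiff.2 ⟨hA hx, Finset.notMem_erase x S⟩
  -- a common point for the kinds 2 and 1
  have h21 : ∀ A ∈ F, ∀ A' ∈ F, S ⊆ A → (x ∈ A' ∨ Disjoint A' S) →
      ∃ v, v ∈ A \ S.erase x ∧ v ∈ A' := by
    intro A hA A' hA' hSA hA''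
    rcases hA'' with hA'' | hA''
    · exact ⟨x, hx' A hSA, hA''⟩
    · obtain ⟨v, hv, hv'⟩ := hcom A hA A' hA'
      exact ⟨v, Finset.mem_sdiff.2 ⟨hv, fun h => Finset.disjoint_left.1 hA'' hv'
        (Finset.mem_of_mem_erase h)⟩, hv'⟩
  rcases h with ⟨A, hA, y, hy, hxA, rfl⟩ | ⟨A, hA, r, y, hr, hy, hSA, rfl⟩ |
      ⟨A, hA, i, hi, hxA, hiA, rfl⟩ | ⟨l, z, y, hz, hy, rfl⟩
  · rcases h' with ⟨A', hA', y', hy', hxA', rfl⟩ | ⟨A', hA', r', y', hr', hy', hSA', rfl⟩ |
      ⟨A', hA', i', hi', hxA', hiA', rfl⟩ | ⟨l', z', y', hz', hy', rfl⟩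
    · obtain ⟨v, hv, hv'⟩ := hcom A hA A' hA'
      exact ⟨_, Finset.mem_union_left _ (old_mem hv), Finset.mem_union_left _ (old_mem hv')⟩
    · obtain ⟨v, hv, hv'⟩ := h21 A' hA' A hA hSA' hxA
      exact ⟨_, Finset.mem_union_left _ (old_mem hv'),
        Finset.mem_union_left _ (Finset.mem_union_left _ (old_mem hv))⟩
    · obtain ⟨v, hv, hv'⟩ := hcom A hA A' hA'
      exact ⟨_, Finset.mem_union_left _ (old_mem hv), Finset.mem_union_left _ (old_mem hv')⟩
    · exact ⟨y l', Finset.mem_union_right _ (y_mem y l'),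
        Finset.mem_union_left _ (Finset.mem_union_left _ (hy l'))⟩
  · rcases h' with ⟨A', hA', y', hy', hxA', rfl⟩ | ⟨A', hA', r', y', hr', hy', hSA', rfl⟩ |
      ⟨A', hA', i', hi', hxA', hiA', rfl⟩ | ⟨l', z', y', hz', hy', rfl⟩
    · obtain ⟨v, hv, hv'⟩ := h21 A hA A' hA' hSA hxA'
      exact ⟨_, Finset.mem_union_left _ (Finset.mem_union_left _ (old_mem hv)),
        Finset.mem_union_left _ (old_mem hv')⟩
    · exact ⟨_, Finset.mem_union_left _ (Finset.mem_union_left _ (old_mem (hx' A hSA))),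
        Finset.mem_union_left _ (Finset.mem_union_left _ (old_mem (hx' A' hSA')))⟩
    · exact ⟨r i', Finset.mem_union_left _ (Finset.mem_union_right _
        (Finset.mem_image_of_mem _ hi')), Finset.mem_union_right _ (hr i' hi')⟩
    · exact ⟨y l', Finset.mem_union_right _ (y_mem y l'),
        Finset.mem_union_left _ (Finset.mem_union_left _ (hy l'))⟩
  · rcases h' with ⟨A', hA', y', hy', hxA', rfl⟩ | ⟨A', hA', r', y', hr', hy', hSA', rfl⟩ |
      ⟨A', hA', i', hi', hxA', hiA', rfl⟩ | ⟨l', z', y', hz', hy', rfl⟩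
    · obtain ⟨v, hv, hv'⟩ := hcom A hA A' hA'
      exact ⟨_, Finset.mem_union_left _ (old_mem hv), Finset.mem_union_left _ (old_mem hv')⟩
    · exact ⟨r' i, Finset.mem_union_right _ (hr' i hi), Finset.mem_union_left _
        (Finset.mem_union_right _ (Finset.mem_image_of_mem _ hi))⟩
    · obtain ⟨v, hv, hv'⟩ := hcom A hA A' hA'
      exact ⟨_, Finset.mem_union_left _ (old_mem hv), Finset.mem_union_left _ (old_mem hv')⟩
    · exact ⟨z' i, Finset.mem_union_right _ (hz' i hi), Finset.mem_union_left _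
        (Finset.mem_union_right _ (Finset.mem_image_of_mem _ hi))⟩
  · rcases h' with ⟨A', hA', y', hy', hxA', rfl⟩ | ⟨A', hA', r', y', hr', hy', hSA', rfl⟩ |
      ⟨A', hA', i', hi', hxA', hiA', rfl⟩ | ⟨l', z', y', hz', hy', rfl⟩
    · exact ⟨y' l, Finset.mem_union_left _ (Finset.mem_union_left _ (hy' l)),
        Finset.mem_union_right _ (y_mem y' l)⟩
    · exact ⟨y' l, Finset.mem_union_left _ (Finset.mem_union_left _ (hy' l)),
        Finset.mem_union_right _ (y_mem y' l)⟩
    · exact ⟨z i', Finset.mem_union_left _ (Finset.mem_union_right _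
        (Finset.mem_image_of_mem _ hi')), Finset.mem_union_right _ (hz i' hi')⟩
    · rcases lt_trichotomy l l' with hl | hl | hl
      · exact ⟨y' l, Finset.mem_union_left _ (Finset.mem_union_left _ (hy' l)),
          Finset.mem_union_right _ (Finset.mem_image_of_mem _
            (Finset.mem_filter.2 ⟨Finset.mem_univ _, hl⟩))⟩
      · subst hl
        obtain ⟨p, hp⟩ := blk_ne (α := α) hS l
        exact ⟨p, Finset.mem_union_left _ (Finset.mem_union_left _ hp),
          Finset.mem_union_left _ (Finset.mem_union_left _ hp)⟩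
      · exact ⟨y l', Finset.mem_union_right _ (Finset.mem_image_of_mem _
            (Finset.mem_filter.2 ⟨Finset.mem_univ _, hl⟩)),
          Finset.mem_union_left _ (Finset.mem_union_left _ (hy l'))⟩

end UpiM

theorem stmtUpi : StmtUpi := by
  classical
  intro α _ _ k u F S x hF hx hS B hB B' hB'
  have h : Mem k u F S x B := by
    unfold fam at hB
    exact (Finset.mem_filter.1 hB).2
  have h' : Mem k u F S x B' := by
    unfold fam at hB'
    exact (Finset.mem_filter.1 hB').2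
  exact Finset.not_disjoint_iff.2 (UpiM.pair hF hx hS B B' h h')

end

end Pool.Agent.EfcA
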