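import Pool.Agent.Lib.MP_efc1da_coA.Spec

/-!
# UPN: the number of members of the new family
-/

set_option autoImplicit false

namespace Pool.Agent.EfcA.UpnM

open Pool.Agent.Efc Pool.Agent.EfcA

section

variable {α : Type} [DecidableEq α] {k u : ℕ}

lemma mem_cop {i : α} {p : Pt α k u} :
    p ∈ cop k u i ↔ p = Sum.inl i ∨ ∃ j : Fin u, p = Sum.inr (Sum.inl (i, j)) := by
  unfold cop
  rw [Finset.mem_insert, Finset.mem_image]
  constructor
  · rintro (h | ⟨j, -, h⟩)
    · exact Or.inl h
    · exact Or.inr ⟨j, h.symm⟩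
  · rintro (h | ⟨j, h⟩)
    · exact Or.inl h
    · exact Or.inr ⟨j, Finset.mem_univ _, h.symm⟩

lemma mem_blk {s : ℕ} {l : Fin u} {p : Pt α k u} (h : p ∈ blk k u s l) :
    ∃ j : Fin (k + u + 1), p = Sum.inr (Sum.inr (l, j)) := by
  unfold blk at h
  rw [Finset.mem_image] at h
  obtain ⟨j, -, h⟩ := h
  exact ⟨j, h.symm⟩

lemma mem_old {A : Finset α} {p : Pt α k u} : p ∈ old k u A ↔ ∃ v ∈ A, p = Sum.inl v := by
  unfold old
  rw [Finset.mem_image]
  constructor
  · rintro ⟨v, hv, h⟩
    exact ⟨v, hv, h.symm⟩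
  · rintro ⟨v, hv, h⟩
    exact ⟨v, hv, h.symm⟩

lemma card_cop (i : α) : (cop k u i : Finset (Pt α k u)).card = u + 1 := by
  unfold cop
  rw [Finset.card_insert_of_notMem, Finset.card_image_of_injective, Finset.card_univ,
    Fintype.card_fin]
  · intro a b h
    simpa using h
  · intro h
    rw [Finset.mem_image] at h
    obtain ⟨j, -, h⟩ := h
    exact absurd h (by simp)

lemma card_blk (s : ℕ) (l : Fin u) :
    (blk k u s l : Finset (Pt α k u)).card = k + u + 1 - s - l := by
  unfold blk
  rw [Finset.card_image_of_injective]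
  · rw [← Finset.card_range (k + u + 1 - s - l)]
    apply Finset.card_bij (fun (j : Fin (k + u + 1)) _ => (j : ℕ))
    · intro a ha
      have := (Finset.mem_filter.1 ha).2
      rw [Finset.mem_range]
      omega
    · intro a _ b _ h
      exact Fin.ext h
    · intro b hb
      rw [Finset.mem_range] at hb
      refine ⟨⟨b, by omega⟩, ?_, rfl⟩
      rw [Finset.mem_filter]
      refine ⟨Finset.mem_univ _, ?_⟩
      show b + s + (l : ℕ) < k + u + 1
      omega
  · intro a b h
    simpa using h

/-- The map. -/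
def Ph (S : Finset α) (x : α) (t : Finset α × (α → Pt α k u) × (Fin u → Pt α k u)) :
    Finset (Pt α k u) :=
  old k u (t.1 \ S.erase x) ∪ (S.erase x).image t.2.1 ∪ Finset.univ.image t.2.2

/-- The values of `r`. -/
def Rs (k u : ℕ) (S : Finset α) (x : α) (i : α) : Finset (Pt α k u) :=
  if i ∈ S.erase x then cop k u i else {Sum.inl i}

lemma mem_Ph {S : Finset α} {x : α} {A : Finset α} {r : α → Pt α k u} {y : Fin u → Pt α k u}
    {p : Pt α k u} : p ∈ Ph S x (A, r, y) ↔
      (∃ v ∈ A \ S.erase x, p = Sum.inl v) ∨ (∃ i ∈ S.erase x, r i = p) ∨ (∃ l, y l = p) := by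
  unfold Ph
  rw [Finset.mem_union, Finset.mem_union, mem_old, Finset.mem_image, Finset.mem_image]
  constructor
  · rintro ((h | h) | ⟨l, -, h⟩)
    · exact Or.inl h
    · exact Or.inr (Or.inl h)
    · exact Or.inr (Or.inr ⟨l, h⟩)
  · rintro (h | h | ⟨l, h⟩)
    · exact Or.inl (Or.inl h)
    · exact Or.inl (Or.inr h)
    · exact Or.inr ⟨l, Finset.mem_univ _, h⟩

lemma key {S : Finset α} {x : α} {A A' : Finset α} {r r' : α → Pt α k u}
    {y y' : Fin u → Pt α k u}
    (hr : ∀ i, r i ∈ Rs k u S x i) (hr' : ∀ i, r' i ∈ Rs k u S x i)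
    (hy : ∀ l, y l ∈ blk k u S.card l) (hy' : ∀ l, y' l ∈ blk k u S.card l)
    (hA' : S ⊆ A') (h : Ph S x (A, r, y) = Ph S x (A', r', y')) :
    A ⊆ A' ∧ r = r' ∧ y = y' := by
  have hrc : ∀ i ∈ S.erase x, r i ∈ cop k u i := by
    intro i hi
    have := hr i
    unfold Rs at this
    rwa [if_pos hi] at this
  have hrc' : ∀ i ∈ S.erase x, r' i ∈ cop k u i := by
    intro i hi
    have := hr' i
    unfold Rs at this
    rwa [if_pos hi] at this
  refine ⟨?_, ?_, ?_⟩
  · intro v hv
    by_cases hvS : v ∈ S.erase x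
    · exact hA' (Finset.mem_of_mem_erase hvS)
    · have h1 : (Sum.inl v : Pt α k u) ∈ Ph S x (A, r, y) :=
        mem_Ph.2 (Or.inl ⟨v, Finset.mem_sdiff.2 ⟨hv, hvS⟩, rfl⟩)
      rw [h, mem_Ph] at h1
      rcases h1 with ⟨w, hw, hvw⟩ | ⟨i, hi, hvi⟩ | ⟨l, hl⟩
      · have : v = w := Sum.inl_injective hvw
        rw [this]
        exact (Finset.mem_sdiff.1 hw).1
      · have h2 := hrc' i hi
        rw [hvi, mem_cop] at h2
        rcases h2 with h2 | ⟨j, h2⟩
        · have : v = i := Sum.inl_injective h2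
          rw [this] at hvS
          exact absurd hi hvS
        · exact absurd h2 (by simp)
      · obtain ⟨j, hj⟩ := mem_blk (hy' l)
        rw [hl] at hj
        exact absurd hj (by simp)
  · funext i
    by_cases hi : i ∈ S.erase x
    · have h1 : r i ∈ Ph S x (A, r, y) := mem_Ph.2 (Or.inr (Or.inl ⟨i, hi, rfl⟩))
      rw [h, mem_Ph] at h1
      rcases h1 with ⟨w, hw, hvw⟩ | ⟨i', hi', hii⟩ | ⟨l, hl⟩
      · have h2 := hrc i hi
        rw [hvw, mem_cop] at h2
        rcases h2 with h2 | ⟨j, h2⟩
        · have : w = i := Sum.inl_injective h2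
          rw [this] at hw
          exact absurd hi (Finset.mem_sdiff.1 hw).2
        · exact absurd h2 (by simp)
      · have h2 := hrc i hi
        have h3 := hrc' i' hi'
        rw [hii] at h3
        have h4 : i = i' := by
          rw [mem_cop] at h2 h3
          rcases h2 with h2 | ⟨j, h2⟩
          · rcases h3 with h3 | ⟨j', h3⟩
            · exact Sum.inl_injective (h2.symm.trans h3)
            · exact absurd (h2.symm.trans h3) (by simp)
          · rcases h3 with h3 | ⟨j', h3⟩
            · exact absurd (h2.symm.trans h3) (by simp)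
            · have h5 := h2.symm.trans h3
              have h6 := Sum.inl_injective (Sum.inr_injective h5)
              exact (Prod.mk.inj h6).1
        rw [h4]
        rw [h4] at hii
        exact hii.symm
      · obtain ⟨j, hj⟩ := mem_blk (hy' l)
        rw [hl] at hj
        have h2 := hrc i hi
        rw [hj, mem_cop] at h2
        rcases h2 with h2 | ⟨j', h2⟩
        · exact absurd h2 (by simp)
        · exact absurd h2 (by simp)
    · have h1 := hr i
      have h2 := hr' i
      unfold Rs at h1 h2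
      rw [if_neg hi, Finset.mem_singleton] at h1 h2
      rw [h1, h2]
  · funext l
    have h1 : y l ∈ Ph S x (A, r, y) := mem_Ph.2 (Or.inr (Or.inr ⟨l, rfl⟩))
    obtain ⟨j, hj⟩ := mem_blk (hy l)
    rw [h, mem_Ph] at h1
    rcases h1 with ⟨w, hw, hvw⟩ | ⟨i', hi', hii⟩ | ⟨l', hl⟩
    · rw [hj] at hvw
      exact absurd hvw (by simp)
    · have h3 := hrc' i' hi'
      rw [hii, hj, mem_cop] at h3
      rcases h3 with h3 | ⟨j', h3⟩
      · exact absurd h3 (by simp)
      · exact absurd h3 (by simp)
    · obtain ⟨j', hj'⟩ := mem_blk (hy' l')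
      have h4 : l' = l := by
        have h5 := hj'.symm.trans (hl.trans hj)
        have h6 := Sum.inr_injective (Sum.inr_injective h5)
        exact (Prod.mk.inj h6).1
      rw [h4] at hl
      exact hl.symm

end

end Pool.Agent.EfcA.UpnM

namespace Pool.Agent.EfcA

open Pool.Agent.Efc UpnM

theorem stmtUpn : StmtUpn := by
  intro α _ _ k u F S x hx _
  set T : Finset (Finset α × (α → Pt α k u) × (Fin u → Pt α k u)) :=
    (up F S) ×ˢ ((Fintype.piFinset (Rs k u S x)) ×ˢ
      (Fintype.piFinset fun l : Fin u => (blk k u S.card l : Finset (Pt α k u)))) with hT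
  have hcard : T.card =
      (up F S).card * ((u + 1) ^ (S.card - 1) * (k + u + 1 - S.card).descFactorial u) := by
    rw [hT, Finset.card_product, Finset.card_product, Fintype.card_piFinset,
      Fintype.card_piFinset]
    congr 2
    · have h1 : ∀ i : α, (Rs k u S x i).card = if i ∈ S.erase x then (u + 1) else 1 := by
        intro i
        unfold Rs
        by_cases hi : i ∈ S.erase x
        · rw [if_pos hi, if_pos hi, card_cop]
        · rw [if_neg hi, if_neg hi, Finset.card_singleton]
      rw [Finset.prod_congr rfl (fun i _ => h1 i), Finset.prod_ite_mem, Finset.univ_inter,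
        Finset.prod_const, Finset.card_erase_of_mem hx]
    · rw [Nat.descFactorial_eq_prod_range, Finset.prod_range]
      exact Finset.prod_congr rfl (fun l _ => card_blk S.card l)
  rw [mul_assoc, ← hcard]
  apply Finset.card_le_card_of_injOn (Ph S x)
  · rintro ⟨A, r, y⟩ ht
    have ht' := Finset.mem_coe.1 ht
    rw [hT, Finset.mem_product, Finset.mem_product, Fintype.mem_piFinset,
      Fintype.mem_piFinset] at ht'
    obtain ⟨hA, hr, hy⟩ := ht'
    have hA' := Finset.mem_filter.1 (show A ∈ F.filter (fun A => S ⊆ A) from hA)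
    rw [Finset.mem_coe]
    unfold fam
    classical
    rw [Finset.mem_filter]
    refine ⟨Finset.mem_univ _, Or.inr (Or.inl ⟨A, hA'.1, r, y, ?_, hy, hA'.2, rfl⟩)⟩
    intro i hi
    have h1 := hr i
    simp only at h1
    unfold Rs at h1
    rwa [if_pos hi] at h1
  · rintro ⟨A, r, y⟩ ht ⟨A', r', y'⟩ ht' h
    have h1 := Finset.mem_coe.1 ht
    have h2 := Finset.mem_coe.1 ht'
    rw [hT, Finset.mem_product, Finset.mem_product, Fintype.mem_piFinset,
      Fintype.mem_piFinset] at h1 h2
    obtain ⟨hA, hr, hy⟩ := h1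
    obtain ⟨hA', hr', hy'⟩ := h2
    have hSA := (Finset.mem_filter.1 (show A ∈ F.filter (fun A => S ⊆ A) from hA)).2
    have hSA' := (Finset.mem_filter.1 (show A' ∈ F.filter (fun A => S ⊆ A) from hA')).2
    obtain ⟨h3, h4, h5⟩ := key hr hr' hy hy' hSA' h
    obtain ⟨h6, -, -⟩ := key hr' hr hy' hy hSA h.symm
    have h7 : A = A' := Finset.Subset.antisymm h3 h6
    have h8 : r = r' := h4
    have h9 : y = y' := h5
    rw [h7, h8, h9]

end Pool.Agent.EfcA
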